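import Mathlib
import Pool.Graph.R_seed8.H373R2.NB.WeylSum
import Pool.Graph.R_seed8.H373R2.T7.BilLam

/-!
A recurrence lemma: if many of the numbers `β q^d`, `Q ≤ q < 2 Q`, are close to integers, then `β` has a very
good rational approximation with a small denominator.
-/

set_option autoImplicit false

namespace Pool.Agent.H544.LD
open Finset Polynomial
open Pool.Agent.H807R2.Dav
open Pool.Agent.H373R2.T7 (conj_ee mk_ee)
open Pool.Agent.H373R2.NB (Ph Ph_poly IW_all card_le_of_diam)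

/-- the inverse theorem for Weyl sums -/
theorem iw (d : ℕ) (hd : 1 ≤ d) : ∃ c m : ℕ, 1 ≤ c ∧ ∀ (N : ℕ) (u α : ℝ) (φ : ℕ → ℝ), 1 ≤ N → 1 ≤ u → Ph d α φ →
    (N : ℝ) ≤ u * ‖∑ n ∈ range N, ee (φ n)‖ →
    ∃ q : ℕ, 1 ≤ q ∧ (q : ℝ) ≤ c * u ^ m ∧ ∃ a : ℤ, |q * α - a| ≤ c * u ^ m / (N : ℝ) ^ d := by
  obtain ⟨c, m, hc, h⟩ := IW_all d hd
  refine ⟨c, m, hc, fun N u α φ hN hu hφ hS => h N u α φ hN hu hφ ?_⟩
  simp only [mk_ee]
  exact hS

lemma re_ee_ge (x : ℝ) (n : ℤ) (h : |x - n| ≤ 1 / 8) : 1 / 2 ≤ (ee x).re := by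
  have h1 : ee x = ee (x - n) := by
    have : x = (x - n) + n := by ring
    conv_lhs => rw [this]
    rw [ee_add, ee_int, mul_one]
  rw [h1]
  set θ := x - n with hθ
  have h2 : (ee θ).re = Real.cos (2 * Real.pi * θ) := by
    unfold ee
    rw [show (2 * Real.pi * Complex.I * (θ : ℝ) : ℂ) = ((2 * Real.pi * θ : ℝ) : ℂ) * Complex.I by push_cast; ring]
    rw [Complex.exp_ofReal_mul_I_re]
  rw [h2]
  have h3 := Real.one_sub_sq_div_two_le_cos (x := 2 * Real.pi * θ)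
  have hpi : Real.pi < 3.15 := Real.pi_lt_d2
  have hpi0 := Real.pi_pos
  have h4 : (2 * Real.pi * θ) ^ 2 ≤ 1 := by
    have h5 : |2 * Real.pi * θ| ≤ 1 := by
      rw [abs_mul, abs_of_pos (by positivity : 0 < 2 * Real.pi)]
      calc 2 * Real.pi * |θ| ≤ 2 * 3.15 * (1 / 8) := by
            apply mul_le_mul (by linarith) h (abs_nonneg _) (by norm_num)
        _ ≤ 1 := by norm_num
    rw [← sq_abs]
    exact pow_le_one₀ (abs_nonneg _) h5
  linarith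

/-- one of the first few multiples of a recurrent phase has a large exponential sum -/
lemma fejer (Q : ℕ) (hQ : 1 ≤ Q) (u : ℝ) (hu : 1 ≤ u) (f : ℕ → ℝ) (S : Finset ℕ) (δ : ℝ) (hδ : 200 * u * δ ≤ 1)
    (hS : ∀ q ∈ S, Q ≤ q ∧ q < 2 * Q ∧ ∃ a : ℤ, |f q - a| ≤ δ) (hcard : (Q : ℝ) ≤ u * #S) :
    ∃ j : ℕ, 1 ≤ j ∧ (j : ℝ) ≤ 17 * u ∧ (Q : ℝ) ≤ 8 * u * ‖∑ q ∈ Ico Q (2 * Q), ee (j * f q)‖ := by
  by_contra hcon
  push Not at hcon
  obtain ⟨J, hJ⟩ : ∃ J : ℕ, J = ⌈16 * u⌉₊ := ⟨_, rfl⟩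
  have hJ1 : 16 * u ≤ J := by rw [hJ]; exact Nat.le_ceil _
  have hJ2 : (J : ℝ) < 16 * u + 1 := by rw [hJ]; exact Nat.ceil_lt_add_one (by positivity)
  have hJ0 : (0 : ℝ) < J := by linarith
  have hQ0 : (0 : ℝ) < Q := by exact_mod_cast hQ
  have hSsub : S ⊆ Ico Q (2 * Q) := fun q hq => mem_Ico.2 ⟨(hS q hq).1, (hS q hq).2.1⟩
  -- lower bound
  have hlow : ∀ q ∈ S, (J : ℝ) ^ 2 / 4 ≤ ‖∑ i ∈ range J, ee (i * f q)‖ ^ 2 := by
    intro q hq
    obtain ⟨_, _, a, ha⟩ := hS q hq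
    have h1 : (J : ℝ) / 2 ≤ ‖∑ i ∈ range J, ee (i * f q)‖ := by
      refine le_trans ?_ (Complex.re_le_norm _)
      rw [Complex.re_sum]
      calc (J : ℝ) / 2 = ∑ i ∈ range J, (1 / 2 : ℝ) := by rw [sum_const, card_range, nsmul_eq_mul]; ring
        _ ≤ _ := by
          apply sum_le_sum
          intro i hi
          apply re_ee_ge _ (i * a)
          push_cast
          rw [← mul_sub, abs_mul, Nat.abs_cast]
          have h2 : (i : ℝ) ≤ J := by exact_mod_cast (mem_range.1 hi).le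
          have hδ0 : 0 ≤ δ := (abs_nonneg _).trans ha
          calc (i : ℝ) * |f q - a| ≤ J * δ := mul_le_mul h2 ha (abs_nonneg _) hJ0.le
            _ ≤ (16 * u + 1) * δ := mul_le_mul_of_nonneg_right hJ2.le hδ0
            _ ≤ (25 * u) * δ := mul_le_mul_of_nonneg_right (by linarith) hδ0
            _ ≤ 1 / 8 := by linarith
    calc (J : ℝ) ^ 2 / 4 = (J / 2) ^ 2 := by ring
      _ ≤ _ := pow_le_pow_left₀ (by positivity) h1 2
  have hlow2 : (#S : ℝ) * ((J : ℝ) ^ 2 / 4) ≤ ∑ q ∈ Ico Q (2 * Q), ‖∑ i ∈ range J, ee (i * f q)‖ ^ 2 := by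
    calc (#S : ℝ) * ((J : ℝ) ^ 2 / 4) = ∑ q ∈ S, (J : ℝ) ^ 2 / 4 := by rw [sum_const, nsmul_eq_mul]
      _ ≤ ∑ q ∈ S, ‖∑ i ∈ range J, ee (i * f q)‖ ^ 2 := sum_le_sum hlow
      _ ≤ _ := sum_le_sum_of_subset_of_nonneg hSsub (fun _ _ _ => by positivity)
  -- upper bound
  have hT : ∀ i ∈ range J, ∀ i' ∈ range J, ‖∑ q ∈ Ico Q (2 * Q), ee (i * f q) * (starRingEnd ℂ) (ee (i' * f q))‖ ≤
      (if i = i' then (Q : ℝ) else 0) + Q / (8 * u) := by
    have hgen : ∀ i i' : ℕ, i < i' → i' < J → ‖∑ q ∈ Ico Q (2 * Q), ee (i' * f q) * (starRingEnd ℂ) (ee (i * f q))‖ ≤ Q / (8 * u) := by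
      intro i i' h1 h2
      have h3 := hcon (i' - i) (by omega) (by
        have h4 : ((i' - i : ℕ) : ℝ) ≤ J := by exact_mod_cast (by omega : i' - i ≤ J)
        linarith)
      rw [le_div_iff₀ (by positivity)]
      have h5 : ∑ q ∈ Ico Q (2 * Q), ee (i' * f q) * (starRingEnd ℂ) (ee (i * f q)) = ∑ q ∈ Ico Q (2 * Q), ee (((i' - i : ℕ) : ℝ) * f q) := by
        apply sum_congr rfl
        intro q _
        rw [conj_ee, ← ee_add, Nat.cast_sub h1.le]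
        congr 1
        ring
      rw [h5]
      linarith
    intro i hi i' hi'
    rw [mem_range] at hi hi'
    have hp : 0 ≤ (Q : ℝ) / (8 * u) := by positivity
    rcases lt_trichotomy i i' with h | h | h
    · rw [if_neg h.ne, zero_add]
      have h1 := hgen i i' h hi'
      have h2 : ∑ q ∈ Ico Q (2 * Q), ee (i * f q) * (starRingEnd ℂ) (ee (i' * f q)) =
          (starRingEnd ℂ) (∑ q ∈ Ico Q (2 * Q), ee (i' * f q) * (starRingEnd ℂ) (ee (i * f q))) := by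
        rw [map_sum]
        apply sum_congr rfl
        intro q _
        rw [map_mul, Complex.conj_conj, mul_comm]
      rw [h2, RCLike.norm_conj]
      exact h1
    · rw [if_pos h, h]
      have h1 : ‖∑ q ∈ Ico Q (2 * Q), ee (i' * f q) * (starRingEnd ℂ) (ee (i' * f q))‖ ≤ Q := by
        refine (norm_sum_le _ _).trans ?_
        have h2 : ∀ q ∈ Ico Q (2 * Q), ‖ee (i' * f q) * (starRingEnd ℂ) (ee (i' * f q))‖ ≤ 1 := by
          intro q _
          rw [norm_mul, RCLike.norm_conj, norm_ee, mul_one]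
        refine (sum_le_sum h2).trans ?_
        rw [sum_const, Nat.card_Ico, nsmul_eq_mul, mul_one]
        exact_mod_cast (by omega : 2 * Q - Q ≤ Q)
      linarith
    · rw [if_neg h.ne', zero_add]
      exact hgen i' i h hi
  have hup : ∑ q ∈ Ico Q (2 * Q), ‖∑ i ∈ range J, ee (i * f q)‖ ^ 2 ≤ J * Q + J ^ 2 * (Q / (8 * u)) := by
    have h1 : ((∑ q ∈ Ico Q (2 * Q), ‖∑ i ∈ range J, ee (i * f q)‖ ^ 2 : ℝ) : ℂ) =
        ∑ i ∈ range J, ∑ i' ∈ range J, ∑ q ∈ Ico Q (2 * Q), ee (i * f q) * (starRingEnd ℂ) (ee (i' * f q)) := by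
      push_cast
      have h2 : ∀ q ∈ Ico Q (2 * Q), (‖∑ i ∈ range J, ee (i * f q)‖ : ℂ) ^ 2 =
          ∑ i ∈ range J, ∑ i' ∈ range J, ee (i * f q) * (starRingEnd ℂ) (ee (i' * f q)) := by
        intro q _
        rw [← Complex.mul_conj', map_sum, sum_mul_sum]
      rw [sum_congr rfl h2, sum_comm]
      apply sum_congr rfl
      intro i _
      rw [sum_comm]
    have h3 : ∑ q ∈ Ico Q (2 * Q), ‖∑ i ∈ range J, ee (i * f q)‖ ^ 2 =
        ‖∑ i ∈ range J, ∑ i' ∈ range J, ∑ q ∈ Ico Q (2 * Q), ee (i * f q) * (starRingEnd ℂ) (ee (i' * f q))‖ := by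
      rw [← h1, Complex.norm_real, Real.norm_of_nonneg (sum_nonneg fun _ _ => by positivity)]
    rw [h3]
    calc _ ≤ ∑ i ∈ range J, ∑ i' ∈ range J, ‖∑ q ∈ Ico Q (2 * Q), ee (i * f q) * (starRingEnd ℂ) (ee (i' * f q))‖ :=
          (norm_sum_le _ _).trans (sum_le_sum fun _ _ => norm_sum_le _ _)
      _ ≤ ∑ i ∈ range J, ∑ i' ∈ range J, ((if i = i' then (Q : ℝ) else 0) + Q / (8 * u)) :=
          sum_le_sum fun i hi => sum_le_sum fun i' hi' => hT i hi i' hi'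
      _ = _ := by
          have h4 : ∀ i ∈ range J, ∑ i' ∈ range J, ((if i = i' then (Q : ℝ) else 0) + Q / (8 * u)) = Q + J * (Q / (8 * u)) := by
            intro i hi
            rw [sum_add_distrib, sum_ite_eq, if_pos hi, sum_const, card_range, nsmul_eq_mul]
          rw [sum_congr rfl h4, sum_const, card_range, nsmul_eq_mul]
          ring
  have h1 := hlow2.trans hup
  have h2 : (Q : ℝ) * (J ^ 2 / 4) ≤ u * (J * Q + J ^ 2 * (Q / (8 * u))) := by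
    calc (Q : ℝ) * (J ^ 2 / 4) ≤ (u * #S) * (J ^ 2 / 4) := mul_le_mul_of_nonneg_right hcard (by positivity)
      _ = u * (#S * (J ^ 2 / 4)) := by ring
      _ ≤ _ := mul_le_mul_of_nonneg_left h1 (by positivity)
  have h3 : u * (J * Q + J ^ 2 * (Q / (8 * u))) = u * J * Q + J ^ 2 * Q / 8 := by field_simp
  rw [h3] at h2
  have h4 : (J : ℝ) * Q * J ≤ J * Q * (8 * u) := by nlinarith
  have h5 := le_of_mul_le_mul_left h4 (by positivity)
  linarith

lemma pow_sub_ge (d : ℕ) (hd : 1 ≤ d) (Q q q' : ℝ) (hQ : 0 ≤ Q) (hQq : Q ≤ q) (hqq : q ≤ q') :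
    (q' - q) * Q ^ (d - 1) ≤ q' ^ d - q ^ d := by
  obtain ⟨d', rfl⟩ : ∃ d', d = d' + 1 := ⟨d - 1, by omega⟩
  rw [Nat.add_sub_cancel]
  have h5 : Q ^ d' ≤ q ^ d' := pow_le_pow_left₀ hQ hQq _
  have h6 : q ^ d' ≤ q' ^ d' := pow_le_pow_left₀ (hQ.trans hQq) hqq _
  have h7 : 0 ≤ q' := hQ.trans (hQq.trans hqq)
  have h8 := mul_le_mul_of_nonneg_left h5 (sub_nonneg.2 hqq)
  have h9 := mul_le_mul_of_nonneg_right h6 h7
  rw [pow_succ, pow_succ]
  linarith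

/-- the recurrence lemma -/
theorem recur (d : ℕ) (hd : 1 ≤ d) : ∃ C m : ℕ, 1 ≤ C ∧ ∀ (Q : ℕ) (u β δ : ℝ) (S : Finset ℕ), 1 ≤ Q → 1 ≤ u → 0 ≤ δ →
    C * u ^ m ≤ Q → C * u ^ m * δ ≤ 1 → (∀ q ∈ S, Q ≤ q ∧ q < 2 * Q ∧ ∃ a : ℤ, |β * (q : ℝ) ^ d - a| ≤ δ) →
    (Q : ℝ) ≤ u * #S →
    ∃ s : ℕ, 1 ≤ s ∧ (s : ℝ) ≤ C * u ^ m ∧ ∃ b : ℤ, |s * β - b| ≤ C * u ^ m * δ / (Q : ℝ) ^ d := by
  obtain ⟨c, m, hc, hI⟩ := iw d hd
  refine ⟨204 * d.factorial * 2 ^ (2 * d + 3) * c ^ 2 * 64 ^ m, 2 * m + 2, ?_, ?_⟩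
  · have : 0 < 204 * d.factorial * 2 ^ (2 * d + 3) * c ^ 2 * 64 ^ m := by positivity
    exact this
  intro Q u β δ S hQ hu hδ hTQ hTδ hS hcard
  have hQ0 : (0 : ℝ) < Q := by exact_mod_cast hQ
  have hc1 : (1 : ℝ) ≤ c := by exact_mod_cast hc
  have hu0 : 0 < u := by linarith
  set T : ℝ := ((204 * d.factorial * 2 ^ (2 * d + 3) * c ^ 2 * 64 ^ m : ℕ) : ℝ) * u ^ (2 * m + 2) with hT
  set κ : ℝ := c * (8 * u) ^ m with hκ
  have hκ1 : 1 ≤ κ := one_le_mul_of_one_le_of_one_le hc1 (one_le_pow₀ (by linarith))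
  have hfac : (1 : ℝ) ≤ d.factorial := by exact_mod_cast Nat.factorial_pos d
  set S0 : ℝ := κ * (17 * u) * d.factorial with hS0
  have hS01 : 1 ≤ S0 := by
    rw [hS0]
    exact one_le_mul_of_one_le_of_one_le (one_le_mul_of_one_le_of_one_le hκ1 (by linarith)) hfac
  set W : ℝ := κ * 2 ^ (d + 1) with hW
  have h2d : (1 : ℝ) ≤ 2 ^ (d + 1) := one_le_pow₀ (by norm_num)
  have hW1 : 1 ≤ W := one_le_mul_of_one_le_of_one_le hκ1 h2d
  have hTbig : 12 * u * W * 2 ^ (d + 2) * S0 = T := by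
    rw [hT, hW, hS0, hκ]
    push_cast
    have e1 : (64 : ℝ) ^ m = 8 ^ m * 8 ^ m := by rw [← mul_pow]; norm_num
    rw [e1, mul_pow (8 : ℝ), show 2 * m + 2 = m + m + 1 + 1 by ring, pow_succ, pow_succ, pow_add u,
      show 2 * d + 3 = (d + 1) + (d + 2) by ring, pow_add (2 : ℝ)]
    ring
  have h2d2 : (1 : ℝ) ≤ 2 ^ (d + 2) := one_le_pow₀ (by norm_num)
  have hTS0 : S0 ≤ T := by
    rw [← hTbig]
    have : 1 ≤ 12 * u * W * 2 ^ (d + 2) := one_le_mul_of_one_le_of_one_le (one_le_mul_of_one_le_of_one_le (by linarith) hW1) h2d2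
    nlinarith
  have hT1 : 1 ≤ T := hS01.trans hTS0
  have hT12 : 12 * u * W ≤ T := by
    have h1 : 1 ≤ 2 ^ (d + 2) * S0 := one_le_mul_of_one_le_of_one_le h2d2 hS01
    calc 12 * u * W ≤ 12 * u * W * (2 ^ (d + 2) * S0) := le_mul_of_one_le_right (by positivity) h1
      _ = T := by rw [← hTbig]; ring
  have hTu : 200 * u ≤ T := by
    rw [← hTbig]
    have h1 : 17 * u ≤ S0 := by
      rw [hS0]
      have : 17 * u ≤ κ * (17 * u) := le_mul_of_one_le_left (by positivity) hκ1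
      nlinarith
    have h2 : 12 ≤ 12 * u * W * 2 ^ (d + 2) := by
      have : 1 ≤ u * W * 2 ^ (d + 2) := one_le_mul_of_one_le_of_one_le (one_le_mul_of_one_le_of_one_le hu hW1) h2d2
      linarith
    nlinarith
  -- the large exponential sum
  obtain ⟨j, hj1, hj2, hj3⟩ := fejer Q hQ u hu (fun q => β * (q : ℝ) ^ d) S δ (by
    refine le_trans ?_ hTδ
    exact mul_le_mul_of_nonneg_right hTu hδ) hS hcard
  -- apply the inverse theorem
  set f : ℤ[X] := (X + C (Q : ℤ)) ^ d with hf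
  have hfm : f.Monic := (monic_X_add_C _).pow d
  have hfd : f.natDegree = d := by
    rw [hf, natDegree_pow, natDegree_X_add_C, mul_one]
  have hfc : f.coeff d = 1 := by
    have := hfm.coeff_natDegree
    rwa [hfd] at this
  have hph := Ph_poly d f hfd.le (j * β)
  rw [hfc] at hph
  have hsum : ∑ q ∈ Ico Q (2 * Q), ee (j * (β * (q : ℝ) ^ d)) =
      ∑ n ∈ range Q, ee ((fun n : ℕ => (j * β) * ((f.eval (n : ℤ) : ℤ) : ℝ)) n) := by
    rw [sum_Ico_eq_sum_range, show 2 * Q - Q = Q by omega]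
    apply sum_congr rfl
    intro n _
    congr 1
    simp only [hf, eval_pow, eval_add, eval_X, eval_C]
    push_cast
    ring
  rw [hsum] at hj3
  obtain ⟨r, hr1, hr2, b0, hb0⟩ := hI Q (8 * u) _ _ hQ (by linarith) hph hj3
  rw [← hκ] at hr2 hb0
  set s0 : ℕ := r * j * d.factorial with hs0
  have hs01 : 1 ≤ s0 := Nat.mul_pos (Nat.mul_pos hr1 hj1) (Nat.factorial_pos d)
  have hs0r : (s0 : ℝ) ≤ S0 := by
    rw [hs0, hS0]
    push_cast
    apply mul_le_mul_of_nonneg_right _ (by positivity)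
    exact mul_le_mul hr2 hj2 (Nat.cast_nonneg _) (by positivity)
  have hs0p : (0 : ℝ) < s0 := by exact_mod_cast hs01
  set e : ℝ := s0 * β - b0 with he
  have he1 : |e| ≤ κ / (Q : ℝ) ^ d := by
    have : e = r * (j * β * (d.factorial * ((1 : ℤ) : ℝ))) - b0 := by
      rw [he, hs0]; push_cast; ring
    rw [this]
    exact hb0
  -- the integers w
  have hch : ∀ q : ℕ, ∃ a : ℤ, q ∈ S → |β * (q : ℝ) ^ d - a| ≤ δ := by
    intro q
    by_cases hq : q ∈ S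
    · obtain ⟨_, _, a, ha⟩ := hS q hq
      exact ⟨a, fun _ => ha⟩
    · exact ⟨0, fun h => absurd h hq⟩
  choose A hA using hch
  set w : ℕ → ℤ := fun q => A q * s0 - b0 * (q : ℤ) ^ d with hw
  have hwe : ∀ q ∈ S, |e * (q : ℝ) ^ d - w q| ≤ s0 * δ := by
    intro q hq
    have h1 : e * (q : ℝ) ^ d - w q = s0 * (β * (q : ℝ) ^ d - A q) := by
      simp only [hw, he]
      push_cast
      ring
    rw [h1, abs_mul, Nat.abs_cast]
    exact mul_le_mul_of_nonneg_left (hA q hq) hs0p.le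
  have hs0δ : s0 * δ ≤ 1 / 2 := by
    have h1 : 12 * u * W * 2 ^ (d + 2) * S0 * δ ≤ 1 := by rw [hTbig]; exact hTδ
    have h2 : 2 * S0 * δ ≤ 12 * u * W * 2 ^ (d + 2) * S0 * δ := by
      have h3 : 1 ≤ u * W * 2 ^ (d + 2) := one_le_mul_of_one_le_of_one_le (one_le_mul_of_one_le_of_one_le hu hW1) h2d2
      have h4 : 0 ≤ S0 * δ := by positivity
      nlinarith
    have h3 : s0 * δ ≤ S0 * δ := mul_le_mul_of_nonneg_right hs0r hδ
    linarith
  have hwW : ∀ q ∈ S, |(w q : ℝ)| ≤ W := by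
    intro q hq
    have h1 := hwe q hq
    have h2 : |e * (q : ℝ) ^ d| ≤ κ * 2 ^ d := by
      rw [abs_mul, abs_of_nonneg (by positivity : (0 : ℝ) ≤ (q : ℝ) ^ d)]
      have h3 : (q : ℝ) ^ d ≤ (2 * Q) ^ d := by
        apply pow_le_pow_left₀ (Nat.cast_nonneg _)
        exact_mod_cast (hS q hq).2.1.le
      calc |e| * (q : ℝ) ^ d ≤ (κ / (Q : ℝ) ^ d) * (2 * Q) ^ d := mul_le_mul he1 h3 (by positivity) (by positivity)
        _ = κ * 2 ^ d := by rw [mul_pow]; field_simp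
    have h3 : |(w q : ℝ)| ≤ |e * (q : ℝ) ^ d| + |e * (q : ℝ) ^ d - w q| := by
      have : (w q : ℝ) = e * (q : ℝ) ^ d - (e * (q : ℝ) ^ d - w q) := by ring
      calc |(w q : ℝ)| = |e * (q : ℝ) ^ d - (e * (q : ℝ) ^ d - w q)| := by rw [← this]
        _ ≤ _ := abs_sub _ _
    have h4 : κ * 2 ^ d + 1 ≤ W := by
      rw [hW, pow_succ]
      have : 1 ≤ κ * 2 ^ d := one_le_mul_of_one_le_of_one_le hκ1 (one_le_pow₀ (by norm_num))
      linarith
    linarith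
  obtain ⟨w0, hw0, hw0c⟩ : ∃ w0 ∈ Icc (-(⌊W⌋₊ : ℤ)) ⌊W⌋₊, (#S : ℝ) ≤ (3 * W) * #(S.filter (fun q => w q = w0)) := by
    by_contra hcon
    push Not at hcon
    have h1 : #S = ∑ w0 ∈ Icc (-(⌊W⌋₊ : ℤ)) ⌊W⌋₊, #(S.filter (fun q => w q = w0)) :=
      card_eq_sum_card_fiberwise (fun q hq => by
        rw [mem_coe] at hq ⊢
        have h1 : (w q).natAbs ≤ ⌊W⌋₊ := by
          apply Nat.le_floor
          rw [Nat.cast_natAbs, Int.cast_abs]
          exact hwW q hq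
        rw [mem_Icc]
        omega)
    have hW0 : 0 < 3 * W := by linarith
    have hne : (Icc (-(⌊W⌋₊ : ℤ)) ⌊W⌋₊).Nonempty := ⟨0, mem_Icc.2 ⟨by omega, by omega⟩⟩
    have h2 : (3 * W) * #S < (3 * W) * #S := by
      calc (3 * W) * #S = ∑ w0 ∈ Icc (-(⌊W⌋₊ : ℤ)) ⌊W⌋₊, (3 * W) * #(S.filter (fun q => w q = w0)) := by
            rw [← mul_sum]; congr 1; rw [h1]; push_cast; rfl
        _ < ∑ w0 ∈ Icc (-(⌊W⌋₊ : ℤ)) ⌊W⌋₊, (#S : ℝ) := sum_lt_sum_of_nonempty hne hcon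
        _ = (#(Icc (-(⌊W⌋₊ : ℤ)) ⌊W⌋₊) : ℝ) * #S := by rw [sum_const, nsmul_eq_mul]
        _ ≤ _ := by
          apply mul_le_mul_of_nonneg_right _ (Nat.cast_nonneg _)
          rw [Int.card_Icc]
          have h3 : ((⌊W⌋₊ : ℤ) + 1 - -(⌊W⌋₊ : ℤ)).toNat = 2 * ⌊W⌋₊ + 1 := by omega
          rw [h3]
          push_cast
          have := Nat.floor_le (by linarith : 0 ≤ W)
          linarith
    exact lt_irrefl _ h2
  set Sw := S.filter (fun q => w q = w0) with hSw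
  have hQSw : (Q : ℝ) ≤ 3 * u * W * #Sw := by
    calc (Q : ℝ) ≤ u * #S := hcard
      _ ≤ u * ((3 * W) * #Sw) := mul_le_mul_of_nonneg_left hw0c hu0.le
      _ = _ := by ring
  have hSwne : Sw.Nonempty := by
    rw [← card_pos]
    by_contra h
    have : #Sw = 0 := by omega
    rw [this, Nat.cast_zero, mul_zero] at hQSw
    linarith
  rcases eq_or_ne w0 0 with hz | hz
  · -- the good case
    obtain ⟨q, hq⟩ := hSwne
    rw [hSw, mem_filter] at hq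
    have h1 := hwe q hq.1
    rw [hq.2, hz, Int.cast_zero, sub_zero, abs_mul, abs_of_nonneg (by positivity : (0 : ℝ) ≤ (q : ℝ) ^ d)] at h1
    refine ⟨s0, hs01, hs0r.trans hTS0, b0, ?_⟩
    rw [← he]
    rw [le_div_iff₀ (by positivity)]
    have h2 : (Q : ℝ) ^ d ≤ (q : ℝ) ^ d := by
      apply pow_le_pow_left₀ hQ0.le
      exact_mod_cast (hS q hq.1).1
    calc |e| * (Q : ℝ) ^ d ≤ |e| * (q : ℝ) ^ d := mul_le_mul_of_nonneg_left h2 (abs_nonneg _)
      _ ≤ s0 * δ := h1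
      _ ≤ T * δ := mul_le_mul_of_nonneg_right (hs0r.trans hTS0) hδ
  · -- the impossible case
    exfalso
    have hw1 : (1 : ℝ) ≤ |(w0 : ℝ)| := by
      rw [← Int.cast_abs]
      exact_mod_cast Int.one_le_abs hz
    have hebig : 1 / 2 ≤ |e| * (2 * Q : ℝ) ^ d := by
      obtain ⟨q, hq⟩ := hSwne
      rw [hSw, mem_filter] at hq
      have h1 := hwe q hq.1
      rw [hq.2] at h1
      have h2 : |(w0 : ℝ)| ≤ |e * (q : ℝ) ^ d| + |e * (q : ℝ) ^ d - w0| := by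
        have : (w0 : ℝ) = e * (q : ℝ) ^ d - (e * (q : ℝ) ^ d - w0) := by ring
        calc |(w0 : ℝ)| = |e * (q : ℝ) ^ d - (e * (q : ℝ) ^ d - w0)| := by rw [← this]
          _ ≤ _ := abs_sub _ _
      have h3 : |e * (q : ℝ) ^ d| ≤ |e| * (2 * Q : ℝ) ^ d := by
        rw [abs_mul, abs_of_nonneg (by positivity : (0 : ℝ) ≤ (q : ℝ) ^ d)]
        apply mul_le_mul_of_nonneg_left _ (abs_nonneg _)
        apply pow_le_pow_left₀ (Nat.cast_nonneg _)
        exact_mod_cast (hS q hq.1).2.1.le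
      linarith
    have hdiam : (#Sw : ℝ) ≤ 2 ^ (d + 2) * (s0 * δ) * Q + 1 := by
      have hinj : Set.InjOn (fun q : ℕ => (q : ℤ)) (Sw : Set ℕ) := fun x _ y _ h => Int.ofNat.inj h
      rw [← card_image_of_injOn hinj]
      apply card_le_of_diam _ _ (by positivity)
      have key : ∀ q ∈ Sw, ∀ q' ∈ Sw, q ≤ q' → (q' : ℝ) - q ≤ 2 ^ (d + 2) * (s0 * δ) * Q := by
        intro q hq q' hq' hle
        rw [hSw, mem_filter] at hq hq'
        have h1 := abs_le.1 (hwe q hq.1)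
        have h2 := abs_le.1 (hwe q' hq'.1)
        rw [hq.2] at h1
        rw [hq'.2] at h2
        have hqq : (q : ℝ) ≤ q' := by exact_mod_cast hle
        have hQq : (Q : ℝ) ≤ q := by exact_mod_cast (hS q hq.1).1
        have h3 : |e| * ((q' : ℝ) ^ d - (q : ℝ) ^ d) ≤ 2 * (s0 * δ) := by
          have h4 : 0 ≤ (q' : ℝ) ^ d - (q : ℝ) ^ d := sub_nonneg.2 (pow_le_pow_left₀ (Nat.cast_nonneg _) hqq _)
          rw [← abs_of_nonneg h4, ← abs_mul, mul_sub, abs_le]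
          constructor <;> linarith
        have h4 : ((q' : ℝ) - q) * (Q : ℝ) ^ (d - 1) ≤ (q' : ℝ) ^ d - (q : ℝ) ^ d :=
          pow_sub_ge d hd _ _ _ hQ0.le hQq hqq
        have h5 : |e| * (((q' : ℝ) - q) * (Q : ℝ) ^ (d - 1)) ≤ 2 * (s0 * δ) :=
          (mul_le_mul_of_nonneg_left h4 (abs_nonneg _)).trans h3
        have h6 : (Q : ℝ) ^ d = (Q : ℝ) ^ (d - 1) * Q := by
          rw [← pow_succ]; congr 1; omega
        have h7 : (1 / 2) * (((q' : ℝ) - q) * (Q : ℝ) ^ (d - 1)) ≤ (2 * (s0 * δ)) * (2 * Q : ℝ) ^ d := by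
          have h8 : 0 ≤ ((q' : ℝ) - q) * (Q : ℝ) ^ (d - 1) := mul_nonneg (sub_nonneg.2 hqq) (by positivity)
          calc (1 / 2) * (((q' : ℝ) - q) * (Q : ℝ) ^ (d - 1)) ≤ (|e| * (2 * Q : ℝ) ^ d) * (((q' : ℝ) - q) * (Q : ℝ) ^ (d - 1)) :=
                mul_le_mul_of_nonneg_right hebig h8
            _ = (|e| * (((q' : ℝ) - q) * (Q : ℝ) ^ (d - 1))) * (2 * Q : ℝ) ^ d := by ring
            _ ≤ _ := mul_le_mul_of_nonneg_right h5 (by positivity)
        have h8 : (2 * (s0 * δ)) * (2 * Q : ℝ) ^ d = (2 ^ (d + 1) * (s0 * δ) * Q) * (Q : ℝ) ^ (d - 1) := by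
          rw [mul_pow, h6, pow_succ]; ring
        rw [h8] at h7
        have h9 : (((q' : ℝ) - q) / 2) * (Q : ℝ) ^ (d - 1) ≤ (2 ^ (d + 1) * (s0 * δ) * Q) * (Q : ℝ) ^ (d - 1) := by linarith
        have h10 := le_of_mul_le_mul_right h9 (by positivity)
        rw [show d + 2 = (d + 1) + 1 by ring, pow_succ]
        linarith
      intro a ha b hb
      rw [mem_image] at ha hb
      obtain ⟨q', hq', rfl⟩ := ha
      obtain ⟨q, hq, rfl⟩ := hb
      push_cast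
      rcases le_total q q' with h | h
      · exact key q hq q' hq' h
      · have h1 : (q' : ℝ) ≤ q := by exact_mod_cast h
        have h2 : 0 ≤ 2 ^ (d + 2) * (s0 * δ) * Q := by positivity
        linarith
    have h1 : (Q : ℝ) ≤ 3 * u * W * (2 ^ (d + 2) * (s0 * δ) * Q + 1) :=
      hQSw.trans (mul_le_mul_of_nonneg_left hdiam (by positivity))
    have h2 : 3 * u * W * (2 ^ (d + 2) * (s0 * δ)) ≤ 1 / 4 := by
      have h3 : 12 * u * W * 2 ^ (d + 2) * S0 * δ ≤ 1 := by rw [hTbig]; exact hTδ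
      have h4 : s0 * δ ≤ S0 * δ := mul_le_mul_of_nonneg_right hs0r hδ
      have h5 : 3 * u * W * (2 ^ (d + 2) * (s0 * δ)) ≤ 3 * u * W * (2 ^ (d + 2) * (S0 * δ)) := by
        apply mul_le_mul_of_nonneg_left _ (by positivity)
        exact mul_le_mul_of_nonneg_left h4 (by positivity)
      linarith
    have h3 : 3 * u * W ≤ Q / 4 := by linarith
    have h4 : 3 * u * W * (2 ^ (d + 2) * (s0 * δ)) * Q ≤ (1 / 4) * Q := mul_le_mul_of_nonneg_right h2 hQ0.le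
    nlinarith

end Pool.Agent.H544.LD
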