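import Mathlib
import Pool.Agent.H544.LD.Rec

/-!
Few frequencies have large Weyl sums in residue classes to many moduli.
-/

set_option autoImplicit false

namespace Pool.Agent.H544.LD
open Finset Polynomial
open Pool.Agent.H807R2.Dav
open Pool.Agent.H373R2.NB (Ph Ph_poly)

/-- the residue class of `a` modulo `q` in `{1, ..., y}` -/
def cls (y q a : ℕ) : Finset ℕ := (Icc 1 y).filter (fun n => n % q = a)

lemma cls_sum (y q a : ℕ) (hq : 1 ≤ q) (ha : a < q) : ∃ N a' : ℕ, 1 ≤ a' ∧ a' ≤ q ∧ N * q ≤ y + q ∧ N = #(cls y q a) ∧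
    ∀ F : ℕ → ℂ, ∑ n ∈ cls y q a, F n = ∑ k ∈ range N, F (a' + q * k) := by
  obtain ⟨a', ha'⟩ : ∃ a' : ℕ, a' = if a = 0 then q else a := ⟨_, rfl⟩
  obtain ⟨N, hN⟩ : ∃ N : ℕ, N = (y + q - a') / q := ⟨_, rfl⟩
  have h1 : 1 ≤ a' := by rw [ha']; split_ifs <;> omega
  have h2 : a' ≤ q := by rw [ha']; split_ifs <;> omega
  have h3 : a' % q = a := by
    rw [ha']
    split_ifs with h
    · rw [Nat.mod_self, h]
    · exact Nat.mod_eq_of_lt ha
  have hNq : N * q ≤ y + q - a' := by rw [hN]; exact Nat.div_mul_le_self _ _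
  have himg : cls y q a = (range N).image (fun k => a' + q * k) := by
    ext n
    unfold cls
    rw [mem_filter, mem_Icc, mem_image]
    constructor
    · rintro ⟨⟨hn1, hny⟩, hnr⟩
      have hle : a' ≤ n := by
        rw [ha']
        split_ifs with h
        · rw [h] at hnr
          exact Nat.le_of_dvd (by omega) (Nat.dvd_of_mod_eq_zero hnr)
        · rw [← hnr]; exact Nat.mod_le _ _
      have hmod : (n - a') % q = 0 := Nat.sub_mod_eq_zero_of_mod_eq (by rw [hnr, h3])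
      have hdv := Nat.div_add_mod (n - a') q
      rw [hmod, add_zero] at hdv
      refine ⟨(n - a') / q, ?_, by omega⟩
      rw [mem_range, hN, Nat.lt_iff_add_one_le, Nat.le_div_iff_mul_le (by omega), add_mul, one_mul, mul_comm]
      omega
    · rintro ⟨k, hk, rfl⟩
      rw [mem_range] at hk
      have h4 : q * (k + 1) ≤ q * N := Nat.mul_le_mul_left _ hk
      have h5 : q * (k + 1) = q * k + q := by ring
      have h6 : q * N = N * q := mul_comm _ _
      refine ⟨⟨by omega, by omega⟩, ?_⟩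
      rw [Nat.add_mul_mod_self_left, h3]
  have hinj : Set.InjOn (fun k : ℕ => a' + q * k) (range N : Finset ℕ) := by
    intro k _ k' _ h
    have h : a' + q * k = a' + q * k' := h
    exact Nat.eq_of_mul_eq_mul_left (by omega) (by omega : q * k = q * k')
  refine ⟨N, a', h1, h2, by omega, ?_, fun F => ?_⟩
  · rw [himg, card_image_of_injOn hinj, card_range]
  · rw [himg, sum_image hinj]

/-- the exponential sum along a polynomial in a residue class -/
noncomputable def Sm (F : ℕ → ℤ) (M y q a : ℕ) (t : ℝ) : ℂ := ∑ n ∈ cls y q a, ee (t * ((F n : ℝ) / M))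

lemma card_cls (x y q a Q : ℕ) (hQ : 1 ≤ Q) (hQx : Q ≤ x) (hy : y ≤ x) (hq : Q ≤ q) (ha : a < q) :
    (#(cls y q a) : ℝ) ≤ 2 * x / Q := by
  obtain ⟨N, a', _, _, h3, h4, _⟩ := cls_sum y q a (by omega) ha
  rw [← h4]
  have hQ0 : (0 : ℝ) < Q := by exact_mod_cast hQ
  rw [le_div_iff₀ hQ0]
  have h5 : N * q ≤ x + q := by omega
  have h6 : (N : ℝ) * q ≤ x + q := by exact_mod_cast h5
  have h7 : (Q : ℝ) ≤ q := by exact_mod_cast hq
  have h8 : (Q : ℝ) ≤ x := by exact_mod_cast hQx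
  have h9 : (0 : ℝ) ≤ N := Nat.cast_nonneg N
  rcases Nat.eq_zero_or_pos N with h | h
  · rw [h, Nat.cast_zero, zero_mul]; positivity
  · have h10 : (1 : ℝ) ≤ N := by exact_mod_cast h
    nlinarith

/-- the inverse theorem in one class -/
lemma class_inv (P : ℤ[X]) (hd : 1 ≤ P.natDegree) : ∃ c m : ℕ, 1 ≤ c ∧ ∀ (x M Q y q a : ℕ) (u t : ℝ), 1 ≤ Q → Q ≤ x →
    y ≤ x → Q ≤ q → a < q → 1 ≤ u → (x : ℝ) ≤ Q * u * ‖Sm (fun n => P.eval (n : ℤ)) M y q a t‖ →
    ∃ r : ℕ, 1 ≤ r ∧ (r : ℝ) ≤ c * (2 * u) ^ m ∧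
      ∃ b : ℤ, |r * (t / M * (P.natDegree.factorial * (P.leadingCoeff : ℝ))) * (q : ℝ) ^ P.natDegree - b| ≤
        c * (2 * u) ^ m * (Q * u / x) ^ P.natDegree := by
  set d := P.natDegree with hdd
  obtain ⟨c, m, hc, hI⟩ := iw d hd
  refine ⟨c, m, hc, ?_⟩
  intro x M Q y q a u t hQ hQx hy hq ha hu hS
  have hQ0 : (0 : ℝ) < Q := by exact_mod_cast hQ
  have hx0 : (0 : ℝ) < x := by exact_mod_cast (by omega : 0 < x)
  have hcard := card_cls x y q a Q hQ hQx hy hq ha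
  obtain ⟨N, a', ha1, ha2, hN1, hN2, hsum⟩ := cls_sum y q a (by omega) ha
  have hSN : ‖Sm (fun n => P.eval (n : ℤ)) M y q a t‖ ≤ N := by
    unfold Sm
    refine (norm_sum_le _ _).trans ?_
    rw [hN2]
    calc ∑ n ∈ cls y q a, ‖ee (t * (((P.eval (n : ℤ) : ℤ) : ℝ) / M))‖ = ∑ n ∈ cls y q a, (1 : ℝ) := by
          apply sum_congr rfl; intro n _; rw [norm_ee]
      _ = _ := by rw [sum_const, nsmul_eq_mul, mul_one]
      _ ≤ _ := le_rfl
  rw [← hN2] at hcard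
  have hNpos : 0 < N := by
    by_contra h
    have h0 : N = 0 := by omega
    rw [h0, Nat.cast_zero] at hSN
    have : Q * u * ‖Sm (fun n => P.eval (n : ℤ)) M y q a t‖ ≤ 0 := by
      have h5 : 0 ≤ Q * u := by positivity
      nlinarith [norm_nonneg (Sm (fun n => P.eval (n : ℤ)) M y q a t)]
    linarith
  have hNr : (0 : ℝ) < N := by exact_mod_cast hNpos
  set f : ℤ[X] := P.comp (C (q : ℤ) * X + C (a' : ℤ)) with hf
  have hqz : (q : ℤ) ≠ 0 := by exact_mod_cast (by omega : q ≠ 0)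
  have hlin : (C (q : ℤ) * X + C (a' : ℤ)).natDegree = 1 := natDegree_linear hqz
  have hlead : (C (q : ℤ) * X + C (a' : ℤ)).leadingCoeff = (q : ℤ) := leadingCoeff_linear hqz
  have hfd : f.natDegree ≤ d := by
    rw [hf]
    refine natDegree_comp_le.trans ?_
    rw [hlin, mul_one]
  have hfc : f.coeff d = P.leadingCoeff * (q : ℤ) ^ d := by
    have h1 := coeff_comp_degree_mul_degree (p := P) (q := C (q : ℤ) * X + C (a' : ℤ)) (by rw [hlin]; norm_num)
    rw [hlin, mul_one, hlead] at h1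
    exact h1
  have hph := Ph_poly d f hfd (t / M)
  rw [hfc] at hph
  have hsum2 : Sm (fun n => P.eval (n : ℤ)) M y q a t = ∑ n ∈ range N, ee ((fun n : ℕ => (t / M) * ((f.eval (n : ℤ) : ℤ) : ℝ)) n) := by
    unfold Sm
    rw [hsum]
    apply sum_congr rfl
    intro k _
    simp only [hf, eval_comp, eval_add, eval_mul, eval_C, eval_X]
    congr 1
    push_cast
    rw [show (q : ℤ) * (k : ℤ) + (a' : ℤ) = (a' : ℤ) + (q : ℤ) * k by ring]
    ring
  rw [hsum2] at hS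
  have hxN : (x : ℝ) ≤ Q * u * N := by
    rw [← hsum2] at hS
    refine hS.trans ?_
    exact mul_le_mul_of_nonneg_left hSN (by positivity)
  have hNS : (N : ℝ) ≤ (2 * u) * ‖∑ n ∈ range N, ee ((fun n : ℕ => (t / M) * ((f.eval (n : ℤ) : ℤ) : ℝ)) n)‖ := by
    rw [le_div_iff₀ hQ0] at hcard
    have h1 : (N : ℝ) * Q ≤ (2 * u * ‖∑ n ∈ range N, ee ((fun n : ℕ => (t / M) * ((f.eval (n : ℤ) : ℤ) : ℝ)) n)‖) * Q := by
      linarith
    exact le_of_mul_le_mul_right h1 hQ0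
  obtain ⟨r, hr1, hr2, b, hb⟩ := hI N (2 * u) _ _ hNpos (by linarith) hph hNS
  refine ⟨r, hr1, hr2, b, ?_⟩
  have e1 : (r : ℝ) * (t / M * (d.factorial * (P.leadingCoeff : ℝ))) * (q : ℝ) ^ d =
      r * (t / M * (d.factorial * ((P.leadingCoeff * (q : ℤ) ^ d : ℤ) : ℝ))) := by
    push_cast; ring
  rw [e1]
  refine hb.trans ?_
  rw [div_eq_mul_inv]
  apply mul_le_mul_of_nonneg_left _ (by positivity)
  rw [← inv_pow]
  apply pow_le_pow_left₀ (by positivity)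
  rw [inv_eq_one_div, div_le_div_iff₀ hNr hx0, one_mul]
  exact hxN

/-- frequencies with good rational approximations -/
lemma count_approx (B M x d : ℕ) (hM : 1 ≤ M) (hx : 1 ≤ x) (hMx : M ≤ B * x ^ d) (hB : 1 ≤ B) (E : ℝ) (hE : 1 ≤ E) (T : Finset ℕ)
    (hT : ∀ t ∈ T, t < M ∧ ∃ j : ℕ, 1 ≤ j ∧ (j : ℝ) ≤ E ∧ ∃ b : ℤ, |(j : ℝ) * ((t : ℝ) / M) - b| ≤ E / (x : ℝ) ^ d) :
    (#T : ℝ) ≤ 15 * B * E ^ 3 := by
  have hx0 : (0 : ℝ) < x := by exact_mod_cast hx
  have hM0 : (0 : ℝ) < M := by exact_mod_cast hM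
  have hB1r : (1 : ℝ) ≤ B := by exact_mod_cast hB
  set R : Finset (ℕ × ℤ × ℤ) := (Icc 1 ⌊E⌋₊) ×ˢ ((Icc (-(⌊2 * E⌋₊ : ℤ)) ⌊2 * E⌋₊) ×ˢ
    (Icc (-(⌊E * B⌋₊ : ℤ)) ⌊E * B⌋₊)) with hR
  set Φ : ℕ × ℤ × ℤ → ℕ := fun v => ((v.2.1 * M + v.2.2) / (v.1 : ℤ)).toNat with hΦ
  have hsub : T ⊆ R.image Φ := by
    intro t ht
    obtain ⟨htM, j, hj1, hj2, b, hb⟩ := hT t ht
    have htr : (t : ℝ) < M := by exact_mod_cast htM
    have hj0 : (0 : ℝ) < j := by exact_mod_cast hj1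
    set e : ℤ := (j : ℤ) * t - b * M with he
    have hx1 : (1 : ℝ) ≤ (x : ℝ) ^ d := one_le_pow₀ (by exact_mod_cast hx)
    have hMxr : (M : ℝ) ≤ B * (x : ℝ) ^ d := by exact_mod_cast hMx
    have heB : |(e : ℝ)| ≤ E * B := by
      have e2 : (e : ℝ) = (j * ((t : ℝ) / M) - b) * M := by
        rw [he]; push_cast; field_simp
      rw [e2, abs_mul, abs_of_pos hM0]
      calc |(j : ℝ) * ((t : ℝ) / M) - b| * M ≤ (E / (x : ℝ) ^ d) * (B * (x : ℝ) ^ d) := by
            apply mul_le_mul hb hMxr hM0.le (by positivity)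
        _ = E * B := by field_simp
    have hbB : |(b : ℝ)| ≤ 2 * E := by
      have h1 : |(j : ℝ) * ((t : ℝ) / M)| ≤ E := by
        rw [abs_of_nonneg (by positivity)]
        have h2 : (t : ℝ) / M ≤ 1 := by rw [div_le_one hM0]; exact htr.le
        calc (j : ℝ) * ((t : ℝ) / M) ≤ E * 1 := mul_le_mul hj2 h2 (by positivity) (by positivity)
          _ = E := mul_one _
      have h2 : E / (x : ℝ) ^ d ≤ E := div_le_self (by linarith) hx1
      calc |(b : ℝ)| = |(j : ℝ) * ((t : ℝ) / M) - ((j : ℝ) * ((t : ℝ) / M) - b)| := by congr 1; ring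
        _ ≤ |(j : ℝ) * ((t : ℝ) / M)| + |(j : ℝ) * ((t : ℝ) / M) - b| := abs_sub _ _
        _ ≤ E + E := add_le_add h1 (hb.trans h2)
        _ = _ := by ring
    rw [mem_image]
    refine ⟨(j, b, e), ?_, ?_⟩
    · rw [hR, mem_product, mem_product, mem_Icc, mem_Icc, mem_Icc]
      have natfl : ∀ (z : ℤ) (r : ℝ), |(z : ℝ)| ≤ r → -(⌊r⌋₊ : ℤ) ≤ z ∧ z ≤ ⌊r⌋₊ := by
        intro z r hz
        have h1 : z.natAbs ≤ ⌊r⌋₊ := by
          apply Nat.le_floor
          rw [Nat.cast_natAbs, Int.cast_abs]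
          exact hz
        omega
      exact ⟨⟨hj1, Nat.le_floor hj2⟩, natfl b _ hbB, natfl e _ heB⟩
    · simp only [hΦ]
      have h1 : b * M + e = (t : ℤ) * (j : ℤ) := by rw [he]; ring
      rw [h1, Int.mul_ediv_cancel]
      · exact Int.toNat_natCast t
      · exact_mod_cast (by omega : j ≠ 0)
  have hcard : #(R.image Φ) ≤ ⌊E⌋₊ * ((2 * ⌊2 * E⌋₊ + 1) * (2 * ⌊E * B⌋₊ + 1)) := by
    refine card_image_le.trans ?_
    rw [hR, card_product, card_product, Nat.card_Icc, Int.card_Icc, Int.card_Icc, Nat.add_sub_cancel]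
    apply Nat.mul_le_mul_left
    apply Nat.mul_le_mul
    · omega
    · omega
  calc (#T : ℝ) ≤ ((⌊E⌋₊ * ((2 * ⌊2 * E⌋₊ + 1) * (2 * ⌊E * B⌋₊ + 1)) : ℕ) : ℝ) := by
        exact_mod_cast (card_le_card hsub).trans hcard
    _ = (⌊E⌋₊ : ℝ) * ((2 * ⌊2 * E⌋₊ + 1) * (2 * ⌊E * B⌋₊ + 1)) := by push_cast; ring
    _ ≤ E * ((5 * E) * (3 * (E * B))) := by
        have h1 : (⌊E⌋₊ : ℝ) ≤ E := Nat.floor_le (by linarith)
        have h2 : (⌊2 * E⌋₊ : ℝ) ≤ 2 * E := Nat.floor_le (by positivity)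
        have h3 : (⌊E * B⌋₊ : ℝ) ≤ E * B := Nat.floor_le (by positivity)
        have h5 : 1 ≤ E * B := one_le_mul_of_one_le_of_one_le hE hB1r
        apply mul_le_mul h1 _ (by positivity) (by linarith)
        apply mul_le_mul (by linarith) (by linarith) (by positivity) (by positivity)
    _ = _ := by ring

open Classical in
/-- the moduli for which some class has a large exponential sum -/
noncomputable def BadQ (F : ℕ → ℤ) (M x y Q : ℕ) (u t : ℝ) : Finset ℕ :=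
  (Ico Q (2 * Q)).filter (fun q => ∃ a < q, (x : ℝ) ≤ Q * u * ‖Sm F M y q a t‖)

open Classical in
/-- few frequencies are large for many moduli -/
theorem count_bad (P : ℤ[X]) (hd : 1 ≤ P.natDegree) (hl : 0 < P.leadingCoeff) (B : ℕ) (hB : 1 ≤ B) :
    ∃ K m : ℕ, 1 ≤ K ∧ ∀ x M Q y : ℕ, ∀ u : ℝ, 1 ≤ M → M ≤ B * x ^ P.natDegree → 1 ≤ Q → y ≤ x → 1 ≤ u →
      K * u ^ m * Q ≤ x →
      (#((range M).filter (fun t : ℕ => (Q : ℝ) ≤ u * #(BadQ (fun n => P.eval (n : ℤ)) M x y Q u t))) : ℝ) ≤ K * u ^ m := by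
  set d := P.natDegree with hdd
  obtain ⟨c, m, hc, hI⟩ := class_inv P hd
  rw [← hdd] at hI
  obtain ⟨C, m1, hC, hrec⟩ := recur d hd
  obtain ⟨lc, hlc⟩ : ∃ lc : ℕ, P.leadingCoeff = lc := ⟨P.leadingCoeff.toNat, (Int.toNat_of_nonneg hl.le).symm⟩
  have hlc1 : 1 ≤ lc := by
    rw [hlc] at hl; exact_mod_cast hl
  set A0 : ℕ := d.factorial * lc with hA0
  have hA1 : 1 ≤ A0 := Nat.mul_pos (Nat.factorial_pos d) hlc1
  refine ⟨15 * B * (A0 * (c * 2 ^ m) * (2 * C * (c * 2 ^ m) ^ m1) ^ d) ^ 3, 3 * (m + (m1 * (m + 1) + 1) * d), ?_, ?_⟩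
  · have : 0 < 15 * B * (A0 * (c * 2 ^ m) * (2 * C * (c * 2 ^ m) ^ m1) ^ d) ^ 3 := by positivity
    exact this
  intro x M Q y u hM hMx hQ hy hu hK
  have hu0 : 0 < u := by linarith
  have hc1 : (1 : ℝ) ≤ c := by exact_mod_cast hc
  have hC1 : (1 : ℝ) ≤ C := by exact_mod_cast hC
  have hA1r : (1 : ℝ) ≤ A0 := by exact_mod_cast hA1
  have hB1r : (1 : ℝ) ≤ B := by exact_mod_cast hB
  have hQ0 : (0 : ℝ) < Q := by exact_mod_cast hQ
  have hQ1 : (1 : ℝ) ≤ Q := by exact_mod_cast hQ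
  have hM0 : (0 : ℝ) < M := by exact_mod_cast hM
  set R0 : ℝ := c * (2 * u) ^ m with hR0
  have hR01 : 1 ≤ R0 := one_le_mul_of_one_le_of_one_le hc1 (one_le_pow₀ (by linarith))
  set u1 : ℝ := u * R0 with hu1
  have hu11 : 1 ≤ u1 := one_le_mul_of_one_le_of_one_le hu hR01
  set G : ℝ := C * u1 ^ m1 with hG
  have hG1 : 1 ≤ G := one_le_mul_of_one_le_of_one_le hC1 (one_le_pow₀ hu11)
  set E : ℝ := A0 * R0 * (2 * G * u) ^ d with hE
  have hGu1 : 1 ≤ 2 * G * u := one_le_mul_of_one_le_of_one_le (by linarith) hu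
  have hGud : 2 * G * u ≤ (2 * G * u) ^ d := le_self_pow₀ hGu1 (by omega)
  have hE1 : 1 ≤ E := one_le_mul_of_one_le_of_one_le (one_le_mul_of_one_le_of_one_le hA1r hR01) (one_le_pow₀ hGu1)
  have hfin : ((15 * B * (A0 * (c * 2 ^ m) * (2 * C * (c * 2 ^ m) ^ m1) ^ d) ^ 3 : ℕ) : ℝ) * u ^ (3 * (m + (m1 * (m + 1) + 1) * d)) =
      15 * B * E ^ 3 := by
    rw [hE, hG, hu1, hR0]
    have e1 : u * (c * (2 * u) ^ m) = (c * 2 ^ m) * u ^ (m + 1) := by rw [mul_pow, pow_succ]; ring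
    have e2 : 2 * ((C : ℝ) * ((c * 2 ^ m) * u ^ (m + 1)) ^ m1) * u = (2 * C * (c * 2 ^ m) ^ m1) * u ^ (m1 * (m + 1) + 1) := by
      rw [mul_pow, ← pow_mul, pow_succ u (m1 * (m + 1)), mul_comm (m + 1) m1]; ring
    rw [e1, e2, mul_pow (2 * C * (c * 2 ^ m) ^ m1 : ℝ), ← pow_mul, mul_pow (2 : ℝ) u m]
    have e3 : (A0 : ℝ) * (c * (2 ^ m * u ^ m)) * ((2 * C * (c * 2 ^ m) ^ m1) ^ d * u ^ ((m1 * (m + 1) + 1) * d)) =
        (A0 * (c * 2 ^ m) * (2 * C * (c * 2 ^ m) ^ m1) ^ d) * u ^ (m + (m1 * (m + 1) + 1) * d) := by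
      rw [pow_add u]; ring
    rw [e3, mul_pow (A0 * (c * 2 ^ m) * (2 * C * (c * 2 ^ m) ^ m1) ^ d : ℝ), ← pow_mul, mul_comm _ 3]
    push_cast
    ring
  rw [hfin] at hK ⊢
  have hE3 : E ≤ 15 * B * E ^ 3 := by
    have h1 : E ≤ E ^ 3 := le_self_pow₀ hE1 (by norm_num)
    have h2 : E ^ 3 ≤ 15 * B * E ^ 3 := le_mul_of_one_le_left (by positivity) (by linarith)
    linarith
  have hEQ : E * Q ≤ x := le_trans (mul_le_mul_of_nonneg_right hE3 hQ0.le) hK
  have hQx : Q ≤ x := by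
    have : (Q : ℝ) ≤ x := by nlinarith
    exact_mod_cast this
  have hx1 : 1 ≤ x := by omega
  have hx0 : (0 : ℝ) < x := by exact_mod_cast hx1
  apply count_approx B M x d hM hx1 hMx hB E hE1
  intro t ht
  rw [mem_filter, mem_range] at ht
  obtain ⟨htM, ht⟩ := ht
  refine ⟨htM, ?_⟩
  set S := BadQ (fun n => P.eval (n : ℤ)) M x y Q u t with hS
  have hmem : ∀ q ∈ S, Q ≤ q ∧ q < 2 * Q ∧ ∃ a < q, (x : ℝ) ≤ Q * u * ‖Sm (fun n => P.eval (n : ℤ)) M y q a t‖ := by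
    intro q hq
    rw [hS] at hq
    unfold BadQ at hq
    rw [mem_filter, mem_Ico] at hq
    exact ⟨hq.1.1, hq.1.2, hq.2⟩
  set α : ℝ := (t : ℝ) / M with hα
  set δ : ℝ := R0 * (Q * u / x) ^ d with hδ
  have hδ0 : 0 ≤ δ := by positivity
  have hch : ∀ q : ℕ, ∃ r : ℕ, q ∈ S → 1 ≤ r ∧ (r : ℝ) ≤ R0 ∧ ∃ b : ℤ, |(r : ℝ) * A0 * α * (q : ℝ) ^ d - b| ≤ δ := by
    intro q
    by_cases hq : q ∈ S
    · obtain ⟨h1, _, a, ha, h2⟩ := hmem q hq
      obtain ⟨r, hr1, hr2, b, hb⟩ := hI x M Q y q a u t hQ hQx hy h1 ha hu h2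
      refine ⟨r, fun _ => ⟨hr1, hr2, b, ?_⟩⟩
      refine le_trans (le_of_eq ?_) hb
      rw [hlc, hA0]
      push_cast
      congr 2
      ring
    · exact ⟨0, fun h => absurd h hq⟩
  choose rr hrr using hch
  obtain ⟨r, hr, hrc⟩ : ∃ r ∈ Icc 1 ⌊R0⌋₊, (#S : ℝ) ≤ R0 * #(S.filter (fun q => rr q = r)) := by
    by_contra hcon
    push Not at hcon
    have h1 : #S = ∑ r ∈ Icc 1 ⌊R0⌋₊, #(S.filter (fun q => rr q = r)) :=
      card_eq_sum_card_fiberwise (fun q hq => by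
        rw [mem_coe] at hq ⊢
        obtain ⟨a1, a2, _⟩ := hrr q hq
        exact mem_Icc.2 ⟨a1, Nat.le_floor a2⟩)
    have hR00 : 0 < R0 := by linarith
    have hfl : (⌊R0⌋₊ : ℝ) ≤ R0 := Nat.floor_le hR00.le
    have hne : (Icc 1 ⌊R0⌋₊).Nonempty := ⟨1, mem_Icc.2 ⟨le_rfl, Nat.le_floor (by rw [Nat.cast_one]; exact hR01)⟩⟩
    have h2 : R0 * #S < R0 * #S := by
      calc R0 * #S = ∑ r ∈ Icc 1 ⌊R0⌋₊, R0 * #(S.filter (fun q => rr q = r)) := by
            rw [← mul_sum]; congr 1; rw [h1]; push_cast; rfl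
        _ < ∑ r ∈ Icc 1 ⌊R0⌋₊, (#S : ℝ) := sum_lt_sum_of_nonempty hne hcon
        _ = (⌊R0⌋₊ : ℝ) * #S := by rw [sum_const, Nat.card_Icc, nsmul_eq_mul, Nat.add_sub_cancel]
        _ ≤ _ := mul_le_mul_of_nonneg_right hfl (Nat.cast_nonneg _)
    exact lt_irrefl _ h2
  rw [mem_Icc] at hr
  have hrR : (r : ℝ) ≤ R0 := (Nat.cast_le.2 hr.2).trans (Nat.floor_le (by linarith))
  set Sr := S.filter (fun q => rr q = r) with hSr
  have hQSr : (Q : ℝ) ≤ u1 * #Sr := by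
    calc (Q : ℝ) ≤ u * #S := ht
      _ ≤ u * (R0 * #Sr) := mul_le_mul_of_nonneg_left hrc hu0.le
      _ = _ := by rw [hu1]; ring
  have hSrm : ∀ q ∈ Sr, Q ≤ q ∧ q < 2 * Q ∧ ∃ a : ℤ, |((r : ℝ) * A0 * α) * (q : ℝ) ^ d - a| ≤ δ := by
    intro q hq
    rw [hSr, mem_filter] at hq
    obtain ⟨h1, h2, _⟩ := hmem q hq.1
    obtain ⟨_, _, b, hb⟩ := hrr q hq.1
    rw [hq.2] at hb
    exact ⟨h1, h2, b, hb⟩
  have hxd : (0 : ℝ) < (x : ℝ) ^ d := by positivity
  rcases lt_or_ge (Q : ℝ) G with hcase | hcase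
  · -- small moduli
    have hSrne : Sr.Nonempty := by
      rw [← card_pos]
      by_contra h
      have : #Sr = 0 := by omega
      rw [this, Nat.cast_zero, mul_zero] at hQSr
      linarith
    obtain ⟨q, hq⟩ := hSrne
    obtain ⟨h1, h2, b, hb⟩ := hSrm q hq
    have hq2 : (q : ℝ) ≤ 2 * Q := by exact_mod_cast h2.le
    refine ⟨r * A0 * q ^ d, Nat.mul_pos (Nat.mul_pos hr.1 hA1) (Nat.pow_pos (by omega)), ?_, b, ?_⟩
    · push_cast
      have h3 : (q : ℝ) ^ d ≤ (2 * G * u) ^ d := by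
        apply pow_le_pow_left₀ (Nat.cast_nonneg _)
        nlinarith
      calc (r : ℝ) * A0 * (q : ℝ) ^ d ≤ (R0 * A0) * (2 * G * u) ^ d := by
            apply mul_le_mul _ h3 (by positivity) (by positivity)
            exact mul_le_mul_of_nonneg_right hrR (Nat.cast_nonneg _)
        _ = E := by rw [hE]; ring
    · have e1 : ((r * A0 * q ^ d : ℕ) : ℝ) * α - b = ((r : ℝ) * A0 * α) * (q : ℝ) ^ d - b := by push_cast; ring
      rw [e1]
      refine hb.trans ?_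
      rw [hδ, div_pow, ← mul_div_assoc]
      apply div_le_div_of_nonneg_right _ hxd.le
      rw [hE]
      apply mul_le_mul _ _ (by positivity) (by positivity)
      · exact le_mul_of_one_le_left (by positivity) hA1r
      · apply pow_le_pow_left₀ (by positivity)
        apply mul_le_mul_of_nonneg_right _ hu0.le
        linarith
  · -- large moduli
    have hGδ : G * δ ≤ 1 := by
      have h1 : (Q * u / x : ℝ) ≤ 1 := by
        rw [div_le_one hx0]
        have h2 : u ≤ E := by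
          have h3 : u ≤ 2 * G * u := le_mul_of_one_le_left hu0.le (by linarith)
          have h4 : (2 * G * u) ^ d ≤ E := by
            rw [hE]
            exact le_mul_of_one_le_left (by positivity) (one_le_mul_of_one_le_of_one_le hA1r hR01)
          linarith
        nlinarith
      have h2 : (Q * u / x : ℝ) ^ d ≤ Q * u / x := pow_le_of_le_one (by positivity) h1 (by omega)
      have h3 : G * R0 * u ≤ E := by
        rw [hE]
        have h5 : G * u ≤ 2 * G * u := by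
          have : 0 ≤ G * u := by positivity
          linarith
        calc G * R0 * u = R0 * (G * u) := by ring
          _ ≤ (A0 * R0) * (2 * G * u) ^ d := by
              apply mul_le_mul (le_mul_of_one_le_left (by positivity) hA1r) (h5.trans hGud) (by positivity) (by positivity)
      calc G * δ = G * R0 * (Q * u / x) ^ d := by rw [hδ]; ring
        _ ≤ G * R0 * (Q * u / x) := mul_le_mul_of_nonneg_left h2 (by positivity)
        _ = (G * R0 * u) * Q / x := by ring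
        _ ≤ 1 := by
            rw [div_le_one hx0]
            exact le_trans (mul_le_mul_of_nonneg_right h3 hQ0.le) hEQ
    obtain ⟨s, hs1, hs2, b, hb⟩ := hrec Q u1 ((r : ℝ) * A0 * α) δ Sr hQ hu11 hδ0 (by rw [← hG]; exact hcase)
      (by rw [← hG]; exact hGδ) hSrm hQSr
    rw [← hG] at hs2 hb
    refine ⟨s * (r * A0), Nat.mul_pos hs1 (Nat.mul_pos hr.1 hA1), ?_, b, ?_⟩
    · push_cast
      calc (s : ℝ) * (r * A0) ≤ G * (R0 * A0) := by
            apply mul_le_mul hs2 _ (by positivity) (by positivity)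
            exact mul_le_mul_of_nonneg_right hrR (Nat.cast_nonneg _)
        _ = (A0 * R0) * G := by ring
        _ ≤ (A0 * R0) * (2 * G * u) ^ d := by
            apply mul_le_mul_of_nonneg_left _ (by positivity)
            refine le_trans ?_ hGud
            nlinarith
    · have e1 : ((s * (r * A0) : ℕ) : ℝ) * α - b = s * ((r : ℝ) * A0 * α) - b := by push_cast; ring
      rw [e1]
      refine hb.trans ?_
      have e2 : G * δ / (Q : ℝ) ^ d = (R0 * (G * u ^ d)) / (x : ℝ) ^ d := by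
        rw [hδ, div_pow, mul_pow]
        field_simp
      rw [e2]
      apply div_le_div_of_nonneg_right _ hxd.le
      rw [hE]
      apply mul_le_mul (le_mul_of_one_le_left (by positivity) hA1r) _ (by positivity) (by positivity)
      calc G * u ^ d ≤ (2 * G) ^ d * u ^ d := by
            apply mul_le_mul_of_nonneg_right _ (by positivity)
            calc G ≤ 2 * G := by linarith
              _ ≤ (2 * G) ^ d := le_self_pow₀ (by linarith) (by omega)
        _ = _ := by rw [← mul_pow]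

end Pool.Agent.H544.LD
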