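import Mathlib
import Pool.Agent.H544.LD.Count
import Pool.Graph.R_seed8.TH892.SW.S2
import Pool.Graph.R_seed8.H373R2.T7.LamZ2

/-!
Local densities of polynomial values, and the fundamental lemma in residue classes.
-/

set_option autoImplicit false

namespace Pool.Agent.H544.LD
open Finset Polynomial
open Pool.Agent.W41 (JJ JJ_lt JJ_le JJ_small)
open Pool.Agent.H373R2.T7 (pz Vz mem_pz Vz_pos Vz_le_one)

/-- the number of roots modulo `p` -/
def om (H : ℤ[X]) (p : ℕ) : ℕ := #((range p).filter (fun n : ℕ => (p : ℤ) ∣ H.eval (n : ℤ)))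

/-- the number of residues modulo `q` at which the value is coprime to `q` -/
def rho (H : ℤ[X]) (q : ℕ) : ℕ := #((range q).filter (fun r : ℕ => Int.gcd (H.eval (r : ℤ)) q = 1))

lemma dvd_eval_iff (H : ℤ[X]) (p a b : ℤ) (h : p ∣ a - b) : p ∣ H.eval a ↔ p ∣ H.eval b := by
  have h1 : p ∣ H.eval a - H.eval b := h.trans (sub_dvd_eval_sub a b H)
  exact dvd_iff_dvd_of_dvd_sub h1

lemma dvd_eval_zmod (H : ℤ[X]) (p : ℕ) (a : ℤ) : (p : ℤ) ∣ H.eval a ↔ (H.map (Int.castRingHom (ZMod p))).eval (a : ZMod p) = 0 := by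
  rw [← ZMod.intCast_zmod_eq_zero_iff_dvd]
  have : ((H.eval a : ℤ) : ZMod p) = (H.map (Int.castRingHom (ZMod p))).eval (a : ZMod p) := by
    have h := Polynomial.eval_map_apply (f := Int.castRingHom (ZMod p)) (p := H) a
    simp
  rw [this]

lemma om_shift (H : ℤ[X]) (p : ℕ) (hp : p.Prime) (q : ℕ) (hq : ¬ p ∣ q) (A : ℤ) :
    #((range p).filter (fun a : ℕ => (p : ℤ) ∣ H.eval (A + q * a))) = om H p := by
  have : Fact p.Prime := ⟨hp⟩
  have hq0 : (q : ZMod p) ≠ 0 := by
    rw [Ne, ZMod.natCast_eq_zero_iff]; exact hq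
  have key : ∀ a : ℤ, (p : ℤ) ∣ H.eval a ↔ (H.map (Int.castRingHom (ZMod p))).eval (a : ZMod p) = 0 := dvd_eval_zmod H p
  unfold om
  refine card_nbij' (fun a : ℕ => ((A : ZMod p) + (q : ZMod p) * (a : ZMod p)).val)
    (fun x : ℕ => (((x : ZMod p) - (A : ZMod p)) * (q : ZMod p)⁻¹).val) ?_ ?_ ?_ ?_
  · intro a ha
    rw [mem_coe, mem_filter] at ha
    rw [mem_coe, mem_filter, mem_range]
    refine ⟨ZMod.val_lt _, ?_⟩
    rw [key]
    have h1 := (key _).1 ha.2
    push_cast at h1 ⊢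
    rw [ZMod.natCast_zmod_val]
    exact h1
  · intro x hx
    rw [mem_coe, mem_filter] at hx
    rw [mem_coe, mem_filter, mem_range]
    refine ⟨ZMod.val_lt _, ?_⟩
    rw [key]
    have h1 := (key _).1 hx.2
    push_cast at h1 ⊢
    rw [ZMod.natCast_zmod_val]
    have : (A : ZMod p) + (q : ZMod p) * (((x : ZMod p) - (A : ZMod p)) * (q : ZMod p)⁻¹) = (x : ZMod p) := by
      field_simp
      ring
    rw [this]
    exact h1
  · intro a ha
    rw [mem_coe, mem_filter, mem_range] at ha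
    have : ((A : ZMod p) + (q : ZMod p) * (a : ZMod p) - (A : ZMod p)) * (q : ZMod p)⁻¹ = (a : ZMod p) := by
      field_simp
      ring
    simp only [ZMod.natCast_zmod_val, this]
    exact ZMod.val_cast_of_lt ha.1
  · intro x hx
    rw [mem_coe, mem_filter, mem_range] at hx
    have : (A : ZMod p) + (q : ZMod p) * (((x : ZMod p) - (A : ZMod p)) * (q : ZMod p)⁻¹) = (x : ZMod p) := by
      field_simp
      ring
    simp only [ZMod.natCast_zmod_val, this]
    exact ZMod.val_cast_of_lt hx.1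

/-- a prime divides all values, or it has few roots -/
lemma om_le (H : ℤ[X]) (p : ℕ) (hp : p.Prime) : (∀ a : ℤ, (p : ℤ) ∣ H.eval a) ∨ om H p ≤ H.natDegree := by
  have : Fact p.Prime := ⟨hp⟩
  set Hp := H.map (Int.castRingHom (ZMod p)) with hHp
  rcases eq_or_ne Hp 0 with h | h
  · left
    intro a
    rw [dvd_eval_zmod, ← hHp, h, eval_zero]
  · right
    have h1 : #((range p).filter (fun n : ℕ => (p : ℤ) ∣ H.eval (n : ℤ))) ≤ #(Hp.roots.toFinset) := by
      refine card_le_card_of_injOn (fun n : ℕ => (n : ZMod p)) ?_ ?_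
      · intro n hn
        rw [mem_coe, mem_filter] at hn
        have h2 := (dvd_eval_zmod H p _).1 hn.2
        rw [mem_coe, Multiset.mem_toFinset, mem_roots h, IsRoot.def]
        push_cast at h2
        exact h2
      · intro n hn n' hn' hnn
        rw [mem_coe, mem_filter, mem_range] at hn hn'
        simp only at hnn
        have h3 := ZMod.val_cast_of_lt hn.1
        have h4 := ZMod.val_cast_of_lt hn'.1
        rw [← h3, ← h4, hnn]
    unfold om
    refine h1.trans ((Multiset.toFinset_card_le _).trans ((card_roots' Hp).trans ?_))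
    exact natDegree_map_le

lemma om_fixed (H : ℤ[X]) (p : ℕ) (h : ∀ a : ℤ, (p : ℤ) ∣ H.eval a) : om H p = p := by
  unfold om
  rw [filter_true_of_mem (fun (n : ℕ) _ => h (n : ℤ)), card_range]

lemma om_le_self (H : ℤ[X]) (p : ℕ) : om H p ≤ p := by
  unfold om
  exact (card_filter_le _ _).trans (card_range p).le

lemma fac_nn (H : ℤ[X]) (p : ℕ) : 0 ≤ 1 - (om H p : ℝ) / p := by
  rw [sub_nonneg]
  apply div_le_one_of_le₀ _ (Nat.cast_nonneg _)
  exact_mod_cast om_le_self H p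

lemma fac_le_one (H : ℤ[X]) (p : ℕ) : 1 - (om H p : ℝ) / p ≤ 1 := by
  have : 0 ≤ (om H p : ℝ) / p := by positivity
  linarith

lemma gcd_iff (q : ℕ) (hq : 1 ≤ q) (m : ℤ) :
    Int.gcd m q = 1 ↔ ∀ p ∈ q.primeFactors, ¬ (p : ℤ) ∣ m := by
  constructor
  · intro h p hp hd
    have hpp := Nat.prime_of_mem_primeFactors hp
    have h1 : p ∣ Int.gcd m q := by
      apply Int.dvd_gcd
      · exact hd
      · exact_mod_cast Nat.dvd_of_mem_primeFactors hp
    rw [h] at h1
    exact hpp.one_lt.ne' (Nat.dvd_one.1 h1)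
  · intro h
    by_contra hc
    obtain ⟨p, hp, hpd⟩ := Nat.exists_prime_and_dvd hc
    have h1 : (p : ℤ) ∣ (Int.gcd m q : ℤ) := by exact_mod_cast hpd
    have h2 : (p : ℤ) ∣ m := h1.trans (Int.gcd_dvd_left ..)
    have h3 : (p : ℤ) ∣ (q : ℤ) := h1.trans (Int.gcd_dvd_right ..)
    exact h p (Nat.mem_primeFactors.2 ⟨hp, by exact_mod_cast h3, by omega⟩) h2

/-- a class coprime to its modulus excludes fixed divisors -/
lemma om_lt (H : ℤ[X]) (p : ℕ) (hp : p.Prime) (r : ℤ) (hr : ¬ (p : ℤ) ∣ H.eval r) : om H p < p := by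
  have h1 : (r % p).toNat ∈ range p := by
    rw [mem_range]
    have h2 := Int.emod_nonneg r (by exact_mod_cast hp.ne_zero : (p : ℤ) ≠ 0)
    have h3 := Int.emod_lt_of_pos r (by exact_mod_cast hp.pos : (0 : ℤ) < p)
    omega
  unfold om
  calc #((range p).filter (fun n : ℕ => (p : ℤ) ∣ H.eval (n : ℤ))) < #(range p) := by
        apply card_lt_card
        rw [filter_ssubset]
        refine ⟨_, h1, ?_⟩
        have h2 := Int.emod_nonneg r (by exact_mod_cast hp.ne_zero : (p : ℤ) ≠ 0)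
        rw [Int.toNat_of_nonneg h2]
        intro hd
        apply hr
        rw [dvd_eval_iff H p r (r % p)]
        · exact hd
        · exact Int.dvd_self_sub_emod
    _ = p := card_range p

open Classical in
/-- the formula for `rho` -/
theorem rho_eq (H : ℤ[X]) (q : ℕ) (hq : 1 ≤ q) :
    (rho H q : ℝ) = q * ∏ p ∈ q.primeFactors, (1 - (om H p : ℝ) / p) := by
  set P : ℕ → Prop := fun n => ∀ p ∈ q.primeFactors, ¬ (p : ℤ) ∣ H.eval (n : ℤ) with hP
  have hper : Function.Periodic P q := by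
    intro n
    simp only [hP]
    apply propext
    apply forall₂_congr
    intro p hp
    have hpq : (p : ℤ) ∣ (q : ℤ) := by exact_mod_cast Nat.dvd_of_mem_primeFactors hp
    rw [dvd_eval_iff H p ((n + q : ℕ) : ℤ) (n : ℤ)]
    push_cast
    simpa using hpq
  have hcount : q.count P = rho H q := by
    rw [Nat.count_eq_card_filter_range]
    unfold rho
    apply congrArg
    apply filter_congr
    intro r _
    rw [gcd_iff q hq]
  have hm : ∀ m : ℕ, ((Icc 1 (q * m)).filter P).card = m * rho H q := by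
    intro m
    induction m with
    | zero => simp
    | succ m ih =>
      have h1 : Icc 1 (q * (m + 1)) = Icc 1 (q * m) ∪ Ico (q * m + 1) (q * m + 1 + q) := by
        ext n
        rw [mem_union, mem_Icc, mem_Icc, mem_Ico, mul_add, mul_one]
        constructor
        · intro h; by_cases h2 : n ≤ q * m
          · left; omega
          · right; omega
        · rintro (h | h) <;> omega
      have h2 : Disjoint (Icc 1 (q * m)) (Ico (q * m + 1) (q * m + 1 + q)) := by
        rw [disjoint_left]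
        intro n h3 h4
        rw [mem_Icc] at h3
        rw [mem_Ico] at h4
        omega
      rw [h1, filter_union, card_union_of_disjoint (disjoint_filter_filter h2), ih,
        Nat.filter_Ico_card_eq_of_periodic _ _ P hper, hcount]
      ring
  set PP := ∏ p ∈ q.primeFactors, (1 - (om H p : ℝ) / p) with hPP
  set S := q.primeFactors with hS
  have hsys := fun x : ℕ => Pool.Agent.H373R2.T7.count_sys (fun p a => ¬ (p : ℤ) ∣ H.eval (a : ℤ)) x S
    (fun p hp => Nat.prime_of_mem_primeFactors hp) 1 le_rfl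
    (fun p hp => (Nat.prime_of_mem_primeFactors hp).one_lt.ne' ∘ Nat.dvd_one.1) 0
  set C := ∏ p ∈ S, (((range p).filter (fun a : ℕ => ¬ (p : ℤ) ∣ H.eval (a : ℤ))).card : ℝ) with hC
  have hprod : ∏ p ∈ S, ((((range p).filter (fun a : ℕ => ¬ (p : ℤ) ∣ H.eval (a : ℤ))).card : ℝ) / p) = PP := by
    apply prod_congr rfl
    intro p hp
    have hpp := Nat.prime_of_mem_primeFactors hp
    have hp0 : (p : ℝ) ≠ 0 := by exact_mod_cast hpp.ne_zero
    have h4 := card_filter_add_card_filter_not (s := range p) (fun a : ℕ => (p : ℤ) ∣ H.eval (a : ℤ))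
    rw [card_range] at h4
    have h6 : ((((range p).filter (fun a : ℕ => (p : ℤ) ∣ H.eval (a : ℤ))).card : ℕ) : ℝ) +
      (((range p).filter (fun a : ℕ => ¬ (p : ℤ) ∣ H.eval (a : ℤ))).card : ℝ) = p := by exact_mod_cast h4
    have h7 : (((range p).filter (fun a : ℕ => ¬ (p : ℤ) ∣ H.eval (a : ℤ))).card : ℝ) = p - om H p := by
      have h8 : ((((range p).filter (fun a : ℕ => (p : ℤ) ∣ H.eval (a : ℤ))).card : ℕ) : ℝ) = om H p := by
        unfold om
        congr!
      linarith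
    rw [h7]
    field_simp
  have hbd : ∀ m : ℕ, |(m : ℝ) * ((rho H q : ℝ) - q * PP)| ≤ C := by
    intro m
    have h1 := hsys (q * m)
    have h2 : ((Icc 1 (q * m)).filter (fun n => n ≡ 0 [MOD 1] ∧ ∀ p ∈ S, ¬ (p : ℤ) ∣ H.eval ((n % p : ℕ) : ℤ))) =
        (Icc 1 (q * m)).filter P := by
      apply filter_congr
      intro n _
      have h5 : ∀ p : ℕ, (p : ℤ) ∣ H.eval ((n % p : ℕ) : ℤ) ↔ (p : ℤ) ∣ H.eval (n : ℤ) := by
        intro p
        apply dvd_eval_iff
        rw [Int.natCast_mod, ← dvd_neg, neg_sub]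
        exact Int.dvd_self_sub_emod
      constructor
      · rintro ⟨_, h3⟩ p hp
        have h4 := h3 p hp
        rwa [h5] at h4
      · intro h3
        refine ⟨Nat.modEq_one, fun p hp => ?_⟩
        have h4 := h3 p hp
        rwa [h5]
    have h3 : |((((Icc 1 (q * m)).filter P).card : ℕ) : ℝ) - ((q * m : ℕ) : ℝ) / 1 * PP| ≤ C := by
      rw [← h2, ← hprod]
      have h4 := h1
      rw [Nat.cast_one] at h4
      convert h4 using 6
    rw [hm m] at h3
    refine le_trans (le_of_eq ?_) h3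
    congr 1
    push_cast
    ring
  by_contra hne
  have hδ : 0 < |(rho H q : ℝ) - q * PP| := abs_pos.2 (sub_ne_zero.2 hne)
  obtain ⟨m, hm2⟩ := exists_nat_gt (C / |(rho H q : ℝ) - q * PP|)
  rw [div_lt_iff₀ hδ] at hm2
  have h5 := hbd m
  rw [abs_mul, Nat.abs_cast] at h5
  linarith

/-- the density in the classes modulo `q` -/
noncomputable def Gz (H : ℤ[X]) (z q : ℕ) : ℝ := ∏ p ∈ (pz z).filter (fun p => ¬ p ∣ q), (1 - (om H p : ℝ) / p)

lemma Gz_nonneg (H : ℤ[X]) (z q : ℕ) : 0 ≤ Gz H z q := prod_nonneg fun p _ => fac_nn H p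

lemma Gz_le_one (H : ℤ[X]) (z q : ℕ) : Gz H z q ≤ 1 := prod_le_one (fun p _ => fac_nn H p) (fun p _ => fac_le_one H p)

open Classical in
/-- the fundamental lemma in residue classes -/
theorem flcS (κ : ℕ) : ∃ C1 z0 : ℕ, 1 ≤ C1 ∧ 2 ≤ z0 ∧ ∀ b : ℕ, C1 ≤ b → ∀ z : ℕ, z0 ≤ z →
    ∀ (H : ℤ[X]) (q r y : ℕ), H.natDegree ≤ κ → 1 ≤ q → r < q → Int.gcd (H.eval (r : ℤ)) q = 1 →
    |(#((cls y q r).filter (fun n : ℕ => ∀ p ∈ pz z, ¬ (p : ℤ) ∣ H.eval (n : ℤ))) : ℝ) - (y : ℝ) / q * Gz H z q| ≤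
      (1 / 2 : ℝ) ^ b * ((y : ℝ) / q) + (z : ℝ) ^ (C1 * b) := by
  obtain ⟨C0, K0, hC0, hK0, hfl⟩ := Pool.Agent.TH892.SW.fl_set κ
  refine ⟨4 * C0 + 4, K0 + 3, by omega, by omega, fun b hb z hz H q r y hHd hq hr hg => ?_⟩
  have hz1 : (1 : ℝ) ≤ z := by exact_mod_cast (by omega : 1 ≤ z)
  have hz2 : (2 : ℝ) ≤ z := by exact_mod_cast (by omega : 2 ≤ z)
  have hqr : (0 : ℝ) < q := by exact_mod_cast hq
  have hyq : 0 ≤ (y : ℝ) / q := by positivity
  have hb0 : (0 : ℝ) < (1 / 2) ^ b := by positivity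
  set P := (pz z).filter (fun p => ¬ p ∣ q) with hP
  have hPp : ∀ p ∈ P, p.Prime ∧ p ≤ z ∧ ¬ p ∣ q := by
    intro p hp
    rw [hP, mem_filter, mem_pz] at hp
    exact ⟨hp.1.2, hp.1.1, hp.2⟩
  by_cases hfix : ∃ p ∈ P, ∀ a : ℤ, (p : ℤ) ∣ H.eval a
  · -- a fixed divisor
    obtain ⟨p, hp, hpa⟩ := hfix
    have h1 : #((cls y q r).filter (fun n : ℕ => ∀ p ∈ pz z, ¬ (p : ℤ) ∣ H.eval (n : ℤ))) = 0 := by
      rw [card_eq_zero, filter_eq_empty_iff]
      intro n _ h2
      exact h2 p (mem_filter.1 hp).1 (hpa n)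
    have h2 : Gz H z q = 0 := by
      unfold Gz
      apply prod_eq_zero hp
      have h3 : om H p = p := om_fixed H p hpa
      rw [h3, div_self, sub_self]
      exact_mod_cast (hPp p hp).1.ne_zero
    rw [h1, h2, Nat.cast_zero, mul_zero, sub_zero, abs_zero]
    positivity
  push Not at hfix
  obtain ⟨r', hr'⟩ : ∃ r' : ℕ, r' = if r = 0 then q else r := ⟨_, rfl⟩
  have hr1 : 1 ≤ r' := by rw [hr']; split_ifs <;> omega
  have hrq : r' ≤ q := by rw [hr']; split_ifs <;> omega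
  have hrm : r' % q = r := by
    rw [hr']
    split_ifs with h
    · rw [Nat.mod_self, h]
    · exact Nat.mod_eq_of_lt hr
  set A : ℤ := (r' : ℤ) - q with hA
  set T : ℕ := (y + q - r') / q with hT
  have h1 := hfl b (by omega) z (by omega) T P (fun p a => (p : ℤ) ∣ H.eval (A + q * a)) (by
    intro p hp
    refine ⟨(hPp p hp).1, (hPp p hp).2.1, ?_⟩
    have h2 := om_shift H p (hPp p hp).1 q (hPp p hp).2.2 A
    have h3 : om H p ≤ κ := by
      rcases om_le H p (hPp p hp).1 with h | h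
      · obtain ⟨a, ha⟩ := hfix p hp
        exact absurd (h a) ha
      · exact h.trans hHd
    rw [← h2] at h3
    convert h3)
  have hVe : ∏ p ∈ P, (1 - ((((range p).filter (fun a : ℕ => (p : ℤ) ∣ H.eval (A + q * a))).card : ℕ) : ℝ) / p) =
      Gz H z q := by
    unfold Gz
    apply prod_congr rfl
    intro p hp
    rw [om_shift H p (hPp p hp).1 q (hPp p hp).2.2 A]
  have hmod : ∀ n p : ℕ, ((p : ℤ) ∣ H.eval (A + q * ((n % p : ℕ) : ℤ))) ↔ ((p : ℤ) ∣ H.eval (A + q * (n : ℤ))) := by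
    intro n p
    apply dvd_eval_iff
    have e : A + q * ((n % p : ℕ) : ℤ) - (A + q * (n : ℤ)) = -(q * ((n : ℤ) - (n : ℤ) % p)) := by push_cast; ring
    rw [e, dvd_neg]
    exact Dvd.dvd.mul_left (Int.dvd_self_sub_emod) _
  set S := ((Icc 1 T).filter (fun t : ℕ => ∀ p ∈ P, ¬ (p : ℤ) ∣ H.eval (A + q * t))) with hS
  have hset : S = ((Icc 1 T).filter (fun n : ℕ => ∀ p ∈ P, ¬ (p : ℤ) ∣ H.eval (A + q * ((n % p : ℕ) : ℤ)))) := by
    apply filter_congr
    intro n _
    constructor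
    · intro h p hp hd
      exact h p hp ((hmod n p).1 hd)
    · intro h p hp hd
      exact h p hp ((hmod n p).2 hd)
  set G := Gz H z q with hG
  have h2 : |((S.card : ℕ) : ℝ) - T * G| ≤
      (1 / 2 : ℝ) ^ b * (T * G) + ((JJ z : ℝ) + 2) * ((z : ℝ) ^ (2 * (C0 * b)) * (K0 * (z : ℝ) ^ (2 * (C0 * b)))) := by
    rw [hset, ← hVe]
    convert h1 using 6 <;> congr!
  have hJ : ((JJ z : ℝ) + 2) ≤ z * z := by
    have h3 : ((JJ z : ℝ) + 2) ≤ 2 * z := by exact_mod_cast JJ_small z (by omega)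
    nlinarith
  have hK0 : (K0 : ℝ) ≤ z := by exact_mod_cast (by omega : K0 ≤ z)
  have h3 : ((JJ z : ℝ) + 2) * ((z : ℝ) ^ (2 * (C0 * b)) * (K0 * (z : ℝ) ^ (2 * (C0 * b)))) ≤
      (z : ℝ) ^ (4 * (C0 * b) + 3) := by
    calc ((JJ z : ℝ) + 2) * ((z : ℝ) ^ (2 * (C0 * b)) * (K0 * (z : ℝ) ^ (2 * (C0 * b))))
        ≤ (z * z) * ((z : ℝ) ^ (2 * (C0 * b)) * (z * (z : ℝ) ^ (2 * (C0 * b)))) := by gcongr
      _ = (z : ℝ) ^ (4 * (C0 * b) + 3) := by
          rw [show 4 * (C0 * b) + 3 = 2 * (C0 * b) + 2 * (C0 * b) + 1 + 1 + 1 by ring]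
          simp only [pow_succ, pow_add]
          ring
  -- the bijection
  have hcard : (cls y q r).filter (fun n : ℕ => ∀ p ∈ pz z, ¬ (p : ℤ) ∣ H.eval (n : ℤ)) = S.image (fun t => r' + q * (t - 1)) := by
    ext n
    unfold cls
    rw [mem_filter, mem_filter, mem_Icc, mem_image]
    constructor
    · rintro ⟨⟨⟨hn1, hny⟩, hnr⟩, hnp⟩
      have hle : r' ≤ n := by
        rw [hr']
        split_ifs with h
        · rw [h] at hnr
          exact Nat.le_of_dvd (by omega) (Nat.dvd_of_mod_eq_zero hnr)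
        · rw [← hnr]; exact Nat.mod_le _ _
      have hmod2 : (n - r') % q = 0 := Nat.sub_mod_eq_zero_of_mod_eq (by rw [hnr, hrm])
      have hdv := Nat.div_add_mod (n - r') q
      rw [hmod2, add_zero] at hdv
      refine ⟨(n - r') / q + 1, ?_, by rw [Nat.add_sub_cancel]; omega⟩
      rw [hS, mem_filter, mem_Icc]
      refine ⟨⟨Nat.le_add_left 1 _, ?_⟩, ?_⟩
      · rw [hT, Nat.le_div_iff_mul_le (by omega), add_mul, one_mul, mul_comm]
        omega
      · intro p hp hd
        apply hnp p (mem_filter.1 hp).1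
        have h4 : A + q * (((n - r') / q + 1 : ℕ) : ℤ) = (n : ℤ) := by
          rw [hA]
          have h5 : (q : ℤ) * (((n - r') / q : ℕ) : ℤ) = (n : ℤ) - r' := by
            have : ((q * ((n - r') / q) : ℕ) : ℤ) = ((n - r' : ℕ) : ℤ) := by rw [hdv]
            rw [Nat.cast_sub hle] at this
            push_cast at this
            exact this
          push_cast at h5 ⊢
          linear_combination h5
        rwa [h4] at hd
    · rintro ⟨t, ht, rfl⟩
      rw [hS, mem_filter, mem_Icc] at ht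
      obtain ⟨⟨ht1, htT⟩, htp⟩ := ht
      obtain ⟨j, rfl⟩ : ∃ j, t = j + 1 := ⟨t - 1, by omega⟩
      rw [Nat.add_sub_cancel]
      have h4 : q * (j + 1) ≤ y + q - r' := by
        rw [hT] at htT
        rw [mul_comm]
        exact (Nat.le_div_iff_mul_le (by omega)).1 htT
      have h5 : q * (j + 1) = q * j + q := by ring
      have hmr : (r' + q * j) % q = r := by rw [Nat.add_mul_mod_self_left, hrm]
      refine ⟨⟨⟨by omega, by omega⟩, hmr⟩, ?_⟩
      intro p hp hd
      by_cases hpq : p ∣ q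
      · have h6 : (p : ℤ) ∣ H.eval (r : ℤ) := by
          rw [dvd_eval_iff H p (r : ℤ) ((r' + q * j : ℕ) : ℤ)]
          · exact hd
          · have h7 : (q : ℤ) ∣ (r : ℤ) - ((r' + q * j : ℕ) : ℤ) := by
              rw [← dvd_neg, neg_sub, ← hmr]
              push_cast
              exact Int.dvd_self_sub_emod
            exact (by exact_mod_cast hpq : (p : ℤ) ∣ q).trans h7
        exact (gcd_iff q hq _).1 hg p (Nat.mem_primeFactors.2 ⟨(mem_pz.1 hp).2, hpq, by omega⟩) h6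
      · apply htp p (by rw [hP, mem_filter]; exact ⟨hp, hpq⟩)
        have h4 : A + q * ((j + 1 : ℕ) : ℤ) = ((r' + q * j : ℕ) : ℤ) := by
          rw [hA]; push_cast; ring
        rwa [h4]
  have hScard : #((cls y q r).filter (fun n : ℕ => ∀ p ∈ pz z, ¬ (p : ℤ) ∣ H.eval (n : ℤ))) = #S := by
    rw [hcard, card_image_of_injOn]
    intro t ht t' ht' he
    rw [mem_coe, hS, mem_filter, mem_Icc] at ht ht'
    simp only at he
    have h4 : q * (t - 1) = q * (t' - 1) := by omega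
    have h5 := Nat.eq_of_mul_eq_mul_left (by omega) h4
    omega
  rw [hScard]
  have hG0 : 0 ≤ G := Gz_nonneg H z q
  have hG1 : G ≤ 1 := Gz_le_one H z q
  have hTy : |(T : ℝ) - y / q| ≤ 1 := by
    have a1 : T * q ≤ y + q - r' := Nat.div_mul_le_self _ _
    have a2 : y + q - r' < (T + 1) * q := by
      rw [hT]
      have := Nat.lt_div_mul_add (a := y + q - r') (b := q) (by omega)
      have h7 : ((y + q - r') / q + 1) * q = (y + q - r') / q * q + q := by ring
      omega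
    have a1' : (T : ℝ) * q ≤ y + q - r' := by
      have : ((T * q : ℕ) : ℝ) ≤ ((y + q - r' : ℕ) : ℝ) := by exact_mod_cast a1
      rw [Nat.cast_sub (by omega)] at this
      push_cast at this
      exact this
    have a2' : (y : ℝ) + q - r' < (T + 1) * q := by
      have : ((y + q - r' : ℕ) : ℝ) < (((T + 1) * q : ℕ) : ℝ) := by exact_mod_cast a2
      rw [Nat.cast_sub (by omega)] at this
      push_cast at this
      exact this
    have a3 : (1 : ℝ) ≤ r' := by exact_mod_cast hr1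
    have a4 : (r' : ℝ) ≤ q := by exact_mod_cast hrq
    rw [abs_le]
    constructor
    · have : (y : ℝ) / q ≤ T + 1 := by
        rw [div_le_iff₀ hqr]; linarith
      linarith
    · have : (T : ℝ) - 1 ≤ y / q := by
        rw [le_div_iff₀ hqr]
        nlinarith
      linarith
  have hb1 : (1 / 2 : ℝ) ^ b ≤ 1 := pow_le_one₀ (by norm_num) (by norm_num)
  have hTle := (abs_le.1 hTy).2
  have hm : |((S.card : ℕ) : ℝ) - (y : ℝ) / q * G| ≤ (1 / 2 : ℝ) ^ b * ((y : ℝ) / q) + (z : ℝ) ^ (4 * (C0 * b) + 3) + 2 := by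
    have e1 : ((S.card : ℕ) : ℝ) - (y : ℝ) / q * G = (((S.card : ℕ) : ℝ) - T * G) + ((T : ℝ) - y / q) * G := by ring
    rw [e1]
    refine (abs_add_le _ _).trans ?_
    have e2 : |((T : ℝ) - y / q) * G| ≤ 1 := by
      rw [abs_mul, abs_of_nonneg hG0]
      calc _ ≤ 1 * 1 := mul_le_mul hTy hG1 hG0 (by norm_num)
        _ = 1 := one_mul 1
    have e3 : (1 / 2 : ℝ) ^ b * (T * G) ≤ (1 / 2 : ℝ) ^ b * ((y : ℝ) / q) + 1 := by
      have e4 : (T : ℝ) * G ≤ y / q + 1 := by
        calc (T : ℝ) * G ≤ T * 1 := mul_le_mul_of_nonneg_left hG1 (Nat.cast_nonneg _)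
          _ ≤ y / q + 1 := by linarith
      calc (1 / 2 : ℝ) ^ b * (T * G) ≤ (1 / 2 : ℝ) ^ b * (y / q + 1) := mul_le_mul_of_nonneg_left e4 hb0.le
        _ ≤ _ := by rw [mul_add]; linarith
    linarith [h2, h3]
  have hfin : (z : ℝ) ^ (4 * (C0 * b) + 3) + 2 ≤ (z : ℝ) ^ ((4 * C0 + 4) * b) := by
    have e1 : (2 : ℝ) ≤ (z : ℝ) ^ (4 * (C0 * b) + 3) := by
      calc (2 : ℝ) ≤ z := hz2
        _ = (z : ℝ) ^ 1 := (pow_one _).symm
        _ ≤ _ := pow_le_pow_right₀ hz1 (by omega)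
    calc (z : ℝ) ^ (4 * (C0 * b) + 3) + 2 ≤ (z : ℝ) ^ (4 * (C0 * b) + 3) * z := by nlinarith
      _ = (z : ℝ) ^ (4 * (C0 * b) + 4) := (pow_succ _ _).symm
      _ ≤ (z : ℝ) ^ ((4 * C0 + 4) * b) := by
          apply pow_le_pow_right₀ hz1
          have : 1 ≤ b := by omega
          nlinarith
  linarith

end Pool.Agent.H544.LD
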