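import Mathlib
import Pool.Agent.H544.LD.Count

/-!
Arbitrary bounded weights: duality, and the bilinear estimate for families of residue classes.
-/

set_option autoImplicit false

namespace Pool.Agent.H544.LD
open Finset Polynomial
open Pool.Agent.H807R2.Dav
open Pool.Agent.H373R2.T7 (conj_ee orth fz parseval_Icc)

/-- duality -/
lemma dual (N : Finset ℕ) (w : ℕ → ℂ) (hw : ∀ n, ‖w n‖ ≤ 1) (f : ℕ → ℝ) (T : Finset ℕ) :
    (∑ t ∈ T, ‖∑ n ∈ N, w n * ee ((t : ℝ) * f n)‖) ^ 2 ≤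
      (#N : ℝ) * ∑ t ∈ T, ∑ t' ∈ T, ‖∑ n ∈ N, ee (((t : ℝ) - t') * f n)‖ := by
  set S : ℕ → ℂ := fun t => ∑ n ∈ N, w n * ee ((t : ℝ) * f n) with hS
  set b : ℕ → ℂ := fun t => if S t = 0 then 1 else (starRingEnd ℂ) (S t) / ‖S t‖ with hb
  have hb1 : ∀ t, ‖b t‖ = 1 := by
    intro t
    simp only [hb]
    split_ifs with h
    · simp
    · rw [norm_div, RCLike.norm_conj, Complex.norm_real, norm_norm, div_self]
      exact norm_ne_zero_iff.2 h
  have hbS : ∀ t, b t * S t = (‖S t‖ : ℂ) := by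
    intro t
    simp only [hb]
    split_ifs with h
    · rw [h]; simp
    · have h1 : (‖S t‖ : ℂ) ≠ 0 := by exact_mod_cast norm_ne_zero_iff.2 h
      rw [div_mul_eq_mul_div, Complex.conj_mul', sq, mul_div_assoc, div_self h1, mul_one]
  set V : ℕ → ℂ := fun n => ∑ t ∈ T, b t * ee ((t : ℝ) * f n) with hV
  have h1 : ∑ t ∈ T, ‖S t‖ ≤ ∑ n ∈ N, ‖V n‖ := by
    have h2 : ((∑ t ∈ T, ‖S t‖ : ℝ) : ℂ) = ∑ n ∈ N, w n * V n := by
      push_cast
      calc ∑ t ∈ T, (‖S t‖ : ℂ) = ∑ t ∈ T, ∑ n ∈ N, b t * (w n * ee ((t : ℝ) * f n)) := by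
            apply sum_congr rfl
            intro t _
            rw [← hbS t, hS, mul_sum]
        _ = _ := by
            rw [sum_comm]
            apply sum_congr rfl
            intro n _
            simp only [hV]
            rw [mul_sum]
            apply sum_congr rfl
            intro t _
            ring
    have h3 : ∑ t ∈ T, ‖S t‖ = ‖∑ n ∈ N, w n * V n‖ := by
      rw [← h2, Complex.norm_real, Real.norm_of_nonneg (sum_nonneg fun _ _ => norm_nonneg _)]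
    rw [h3]
    refine (norm_sum_le _ _).trans (sum_le_sum fun n _ => ?_)
    rw [norm_mul]
    exact mul_le_of_le_one_left (norm_nonneg _) (hw n)
  have h2 : (∑ n ∈ N, ‖V n‖) ^ 2 ≤ (#N : ℝ) * ∑ n ∈ N, ‖V n‖ ^ 2 := by
    have := sum_mul_sq_le_sq_mul_sq N (fun _ => (1 : ℝ)) (fun n => ‖V n‖)
    simpa using this
  have h3 : ∑ n ∈ N, ‖V n‖ ^ 2 ≤ ∑ t ∈ T, ∑ t' ∈ T, ‖∑ n ∈ N, ee (((t : ℝ) - t') * f n)‖ := by
    have h4 : ((∑ n ∈ N, ‖V n‖ ^ 2 : ℝ) : ℂ) = ∑ t ∈ T, ∑ t' ∈ T, (b t * (starRingEnd ℂ) (b t')) * ∑ n ∈ N, ee (((t : ℝ) - t') * f n) := by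
      push_cast
      have h5 : ∀ n ∈ N, (‖V n‖ : ℂ) ^ 2 = ∑ t ∈ T, ∑ t' ∈ T, (b t * (starRingEnd ℂ) (b t')) * ee (((t : ℝ) - t') * f n) := by
        intro n _
        rw [← Complex.mul_conj', hV]
        simp only
        rw [map_sum, sum_mul_sum]
        apply sum_congr rfl
        intro t _
        apply sum_congr rfl
        intro t' _
        rw [map_mul, conj_ee, sub_mul, sub_eq_add_neg, ee_add]
        ring
      rw [sum_congr rfl h5, sum_comm]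
      apply sum_congr rfl
      intro t _
      rw [sum_comm]
      apply sum_congr rfl
      intro t' _
      rw [mul_sum]
    have h5 : ∑ n ∈ N, ‖V n‖ ^ 2 = ‖∑ t ∈ T, ∑ t' ∈ T, (b t * (starRingEnd ℂ) (b t')) * ∑ n ∈ N, ee (((t : ℝ) - t') * f n)‖ := by
      rw [← h4, Complex.norm_real, Real.norm_of_nonneg (sum_nonneg fun _ _ => by positivity)]
    rw [h5]
    refine (norm_sum_le _ _).trans (sum_le_sum fun t _ => (norm_sum_le _ _).trans (sum_le_sum fun t' _ => ?_))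
    rw [norm_mul, norm_mul, RCLike.norm_conj, hb1, hb1, one_mul, one_mul]
  calc (∑ t ∈ T, ‖S t‖) ^ 2 ≤ (∑ n ∈ N, ‖V n‖) ^ 2 := pow_le_pow_left₀ (sum_nonneg fun _ _ => norm_nonneg _) h1 2
    _ ≤ (#N : ℝ) * ∑ n ∈ N, ‖V n‖ ^ 2 := h2
    _ ≤ _ := mul_le_mul_of_nonneg_left h3 (Nat.cast_nonneg _)

/-- weighted exponential sums in a class -/
noncomputable def Sw (w : ℕ → ℂ) (F : ℕ → ℤ) (M y : ℕ) (i : ℕ × ℕ) (t : ℝ) : ℂ :=
  ∑ n ∈ cls y i.1 i.2, w n * ee (t * ((F n : ℝ) / M))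

/-- a family of residue classes with moduli in `[Q, 2 Q)`, at most `ν` classes to each modulus -/
def Fam (Q ν : ℕ) (I : Finset (ℕ × ℕ)) : Prop :=
  (∀ i ∈ I, Q ≤ i.1 ∧ i.1 < 2 * Q ∧ i.2 < i.1) ∧ ∀ q, #(I.filter (fun i => i.1 = q)) ≤ ν

lemma Fam.card_le {Q ν : ℕ} {I : Finset (ℕ × ℕ)} (h : Fam Q ν I) : #I ≤ ν * Q := by
  have h1 : #I = ∑ q ∈ Ico Q (2 * Q), #(I.filter (fun i => i.1 = q)) :=
    card_eq_sum_card_fiberwise (fun i hi => by
      rw [mem_coe] at hi ⊢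
      exact mem_Ico.2 ⟨(h.1 i hi).1, (h.1 i hi).2.1⟩)
  rw [h1]
  refine (sum_le_sum fun q _ => h.2 q).trans ?_
  rw [sum_const, Nat.card_Ico, smul_eq_mul, mul_comm]
  apply Nat.mul_le_mul_left
  omega

open Classical in
/-- the classes with a large exponential sum -/
noncomputable def BadI (w : ℕ → ℂ) (F : ℕ → ℤ) (M x y Q : ℕ) (I : Finset (ℕ × ℕ)) (u t : ℝ) : Finset (ℕ × ℕ) :=
  I.filter (fun i => (x : ℝ) ≤ Q * u * ‖Sw w F M y i t‖)

lemma Sw_le (w : ℕ → ℂ) (hw : ∀ n, ‖w n‖ ≤ 1) (F : ℕ → ℤ) (M x y Q ν : ℕ) (I : Finset (ℕ × ℕ)) (hI : Fam Q ν I) (hQ : 1 ≤ Q)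
    (hQx : Q ≤ x) (hy : y ≤ x) (i : ℕ × ℕ) (hi : i ∈ I) (t : ℝ) : ‖Sw w F M y i t‖ ≤ 2 * x / Q := by
  obtain ⟨h1, _, h2⟩ := hI.1 i hi
  refine le_trans ?_ (card_cls x y i.1 i.2 Q hQ hQx hy h1 h2)
  unfold Sw
  refine (norm_sum_le _ _).trans ?_
  calc ∑ n ∈ cls y i.1 i.2, ‖w n * ee (t * ((F n : ℝ) / M))‖ ≤ ∑ n ∈ cls y i.1 i.2, (1 : ℝ) := by
        apply sum_le_sum
        intro n _
        rw [norm_mul, norm_ee, mul_one]
        exact hw n
    _ = _ := by rw [sum_const, nsmul_eq_mul, mul_one]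

/-- the distance of two natural numbers -/
def dst (t t' : ℕ) : ℕ := (t - t') + (t' - t)

lemma dst_norm (N : Finset ℕ) (f : ℕ → ℝ) (t t' : ℕ) :
    ‖∑ n ∈ N, ee (((t : ℝ) - t') * f n)‖ = ‖∑ n ∈ N, ee (((dst t t' : ℕ) : ℝ) * f n)‖ := by
  unfold dst
  rcases le_total t' t with h | h
  · rw [Nat.sub_eq_zero_of_le h, add_zero, Nat.cast_sub h]
  · rw [Nat.sub_eq_zero_of_le h, zero_add, Nat.cast_sub h, ← RCLike.norm_conj, map_sum]
    congr 1
    apply sum_congr rfl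
    intro n _
    rw [conj_ee]
    congr 1
    ring

lemma dst_count (T D : Finset ℕ) (t : ℕ) : #(T.filter (fun t' => dst t t' ∈ D)) ≤ 2 * #D := by
  have h1 : T.filter (fun t' => dst t t' ∈ D) ⊆ D.image (fun τ => t + τ) ∪ D.image (fun τ => t - τ) := by
    intro t' ht'
    rw [mem_filter] at ht'
    rw [mem_union, mem_image, mem_image]
    unfold dst at ht'
    rcases le_total t' t with h | h
    · right
      refine ⟨_, ht'.2, ?_⟩
      omega
    · left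
      refine ⟨_, ht'.2, ?_⟩
      omega
  refine (card_le_card h1).trans ((card_union_le _ _).trans ?_)
  have h2 := card_image_le (s := D) (f := fun τ => t + τ)
  have h3 := card_image_le (s := D) (f := fun τ => t - τ)
  omega

lemma not_bad_sum (F : ℕ → ℤ) (M x y Q ν : ℕ) (I : Finset (ℕ × ℕ)) (hI : Fam Q ν I) (hQ : 1 ≤ Q)
    (hQx : Q ≤ x) (hy : y ≤ x) (u : ℝ) (hu : 1 ≤ u) (t : ℝ) (ht : ¬ (Q : ℝ) ≤ u * #(BadQ F M x y Q u t)) :
    ∑ i ∈ I, ‖Sm F M y i.1 i.2 t‖ ≤ 3 * ν * x / u := by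
  classical
  have hQ0 : (0 : ℝ) < Q := by exact_mod_cast hQ
  have hu0 : 0 < u := by linarith
  have hx0 : (0 : ℝ) < x := by exact_mod_cast (by omega : 0 < x)
  have hSm : ∀ i : ℕ × ℕ, Sm F M y i.1 i.2 t = Sw (fun _ => 1) F M y i t := by
    intro i
    unfold Sm Sw
    simp only [one_mul]
  have hle : ∀ i ∈ I, ‖Sm F M y i.1 i.2 t‖ ≤ 2 * x / Q := by
    intro i hi
    rw [hSm]
    exact Sw_le _ (fun _ => by simp) F M x y Q ν I hI hQ hQx hy i hi t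
  have hpt : ∀ i ∈ I, ‖Sm F M y i.1 i.2 t‖ ≤ (if i.1 ∈ BadQ F M x y Q u t then 2 * (x : ℝ) / Q else 0) + x / (Q * u) := by
    intro i hi
    have hp : 0 ≤ (x : ℝ) / (Q * u) := by positivity
    by_cases h : i.1 ∈ BadQ F M x y Q u t
    · rw [if_pos h]
      have := hle i hi
      linarith
    · rw [if_neg h, zero_add]
      obtain ⟨h1, h2, h3⟩ := hI.1 i hi
      unfold BadQ at h
      rw [mem_filter, mem_Ico] at h
      push Not at h
      have h4 := h ⟨h1, h2⟩ i.2 h3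
      rw [le_div_iff₀ (by positivity)]
      linarith
  have hcardI : (#I : ℝ) ≤ ν * Q := by exact_mod_cast hI.card_le
  have hcardB : (#(I.filter (fun i => i.1 ∈ BadQ F M x y Q u t)) : ℝ) ≤ ν * #(BadQ F M x y Q u t) := by
    have h1 : #(I.filter (fun i => i.1 ∈ BadQ F M x y Q u t)) =
        ∑ q ∈ BadQ F M x y Q u t, #((I.filter (fun i => i.1 ∈ BadQ F M x y Q u t)).filter (fun i => i.1 = q)) :=
      card_eq_sum_card_fiberwise (fun i hi => by
        rw [mem_coe, mem_filter] at hi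
        exact hi.2)
    have h2 : #(I.filter (fun i => i.1 ∈ BadQ F M x y Q u t)) ≤ #(BadQ F M x y Q u t) * ν := by
      rw [h1, ← smul_eq_mul, ← sum_const]
      apply sum_le_sum
      intro q _
      refine le_trans (card_le_card ?_) (hI.2 q)
      apply filter_subset_filter
      exact filter_subset _ _
    calc _ ≤ ((#(BadQ F M x y Q u t) * ν : ℕ) : ℝ) := by exact_mod_cast h2
      _ = _ := by push_cast; ring
  push Not at ht
  calc ∑ i ∈ I, ‖Sm F M y i.1 i.2 t‖ ≤ ∑ i ∈ I, ((if i.1 ∈ BadQ F M x y Q u t then 2 * (x : ℝ) / Q else 0) + x / (Q * u)) :=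
        sum_le_sum hpt
    _ = #(I.filter (fun i => i.1 ∈ BadQ F M x y Q u t)) * (2 * x / Q) + #I * (x / (Q * u)) := by
        rw [sum_add_distrib, ← sum_filter, sum_const, sum_const, nsmul_eq_mul, nsmul_eq_mul]
    _ ≤ (ν * (Q / u)) * (2 * x / Q) + (ν * Q) * (x / (Q * u)) := by
        apply add_le_add
        · apply mul_le_mul_of_nonneg_right _ (by positivity)
          refine hcardB.trans ?_
          apply mul_le_mul_of_nonneg_left _ (Nat.cast_nonneg _)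
          rw [le_div_iff₀ hu0]
          linarith
        · exact mul_le_mul_of_nonneg_right hcardI (by positivity)
    _ = _ := by field_simp; ring

open Classical in
/-- few frequencies are large for many classes, for arbitrary weights -/
theorem count_badw (P : ℤ[X]) (hd : 1 ≤ P.natDegree) (hl : 0 < P.leadingCoeff) (B : ℕ) (hB : 1 ≤ B) :
    ∃ K m : ℕ, 1 ≤ K ∧ ∀ x M Q y ν : ℕ, ∀ I : Finset (ℕ × ℕ), ∀ u : ℝ, ∀ w : ℕ → ℂ, 1 ≤ M → M ≤ B * x ^ P.natDegree →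
      1 ≤ Q → 1 ≤ ν → y ≤ x → 1 ≤ u → Fam Q ν I → (∀ n, ‖w n‖ ≤ 1) → K * u ^ m * Q ≤ x →
      (#((range M).filter (fun t : ℕ => (ν * Q : ℝ) ≤ u * #(BadI w (fun n => P.eval (n : ℤ)) M x y Q I u t))) : ℝ) ≤ K * u ^ m := by
  obtain ⟨K1, m1, hK1, hcb⟩ := count_bad P hd hl B hB
  refine ⟨16 * 12 ^ m1 * K1, 4 + 4 * m1, ?_, ?_⟩
  · have : 0 < 16 * 12 ^ m1 * K1 := by positivity
    exact this
  intro x M Q y ν I u w hM hMx hQ hν hy hu hI hw hK
  set F : ℕ → ℤ := fun n => P.eval (n : ℤ) with hF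
  have hQ0 : (0 : ℝ) < Q := by exact_mod_cast hQ
  have hν0 : (0 : ℝ) < ν := by exact_mod_cast hν
  have hu0 : 0 < u := by linarith
  have hu4 : 1 ≤ u ^ 4 := one_le_pow₀ hu
  have hK1r : (1 : ℝ) ≤ K1 := by exact_mod_cast hK1
  set u' : ℝ := 12 * u ^ 4 with hu'
  have hu'1 : 1 ≤ u' := by rw [hu']; linarith
  have hfin : ((16 * 12 ^ m1 * K1 : ℕ) : ℝ) * u ^ (4 + 4 * m1) = 16 * u ^ 4 * (K1 * u' ^ m1) := by
    rw [hu', mul_pow, ← pow_mul, pow_add]
    push_cast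
    ring
  rw [hfin] at hK ⊢
  have hKu' : 1 ≤ K1 * u' ^ m1 := one_le_mul_of_one_le_of_one_le hK1r (one_le_pow₀ hu'1)
  have hK' : K1 * u' ^ m1 * Q ≤ x := by
    refine le_trans ?_ hK
    apply mul_le_mul_of_nonneg_right _ hQ0.le
    exact le_mul_of_one_le_left (by positivity) (by linarith)
  have hQx : Q ≤ x := by
    have : (Q : ℝ) ≤ x := by nlinarith
    exact_mod_cast this
  have hx0 : (0 : ℝ) < x := by exact_mod_cast (by omega : 0 < x)
  set D := (range M).filter (fun t : ℕ => (Q : ℝ) ≤ u' * #(BadQ F M x y Q u' t)) with hD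
  have hDc : (#D : ℝ) ≤ K1 * u' ^ m1 := hcb x M Q y u' hM hMx hQ hy hu'1 hK'
  set T := (range M).filter (fun t : ℕ => (ν * Q : ℝ) ≤ u * #(BadI w F M x y Q I u t)) with hT
  have hTm : ∀ t ∈ T, t < M ∧ (ν * Q : ℝ) ≤ u * #(BadI w F M x y Q I u t) := by
    intro t ht
    rw [hT, mem_filter, mem_range] at ht
    exact ht
  set R : ℝ := (#T : ℝ) with hR
  set f : ℕ → ℝ := fun n => (F n : ℝ) / M with hf
  -- upper bound
  have hcardI : (#I : ℝ) ≤ ν * Q := by exact_mod_cast hI.card_le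
  have hup1 : ∀ t ∈ T, ∀ t' ∈ T, ∑ i ∈ I, ‖∑ n ∈ cls y i.1 i.2, ee (((t : ℝ) - t') * f n)‖ ≤
      (if dst t t' ∈ D then 2 * ν * (x : ℝ) else 0) + ν * x / (4 * u ^ 4) := by
    intro t ht t' ht'
    have hdM : dst t t' < M := by
      have h1 := (hTm t ht).1
      have h2 := (hTm t' ht').1
      unfold dst
      omega
    have h1 : ∑ i ∈ I, ‖∑ n ∈ cls y i.1 i.2, ee (((t : ℝ) - t') * f n)‖ = ∑ i ∈ I, ‖Sm F M y i.1 i.2 ((dst t t' : ℕ) : ℝ)‖ := by
      apply sum_congr rfl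
      intro i _
      rw [dst_norm]
      rfl
    rw [h1]
    have hp : 0 ≤ ν * x / (4 * u ^ 4) := by positivity
    by_cases h : dst t t' ∈ D
    · rw [if_pos h]
      have h2 : ∀ i ∈ I, ‖Sm F M y i.1 i.2 ((dst t t' : ℕ) : ℝ)‖ ≤ 2 * x / Q := by
        intro i hi
        have h3 : Sm F M y i.1 i.2 ((dst t t' : ℕ) : ℝ) = Sw (fun _ => 1) F M y i ((dst t t' : ℕ) : ℝ) := by
          unfold Sm Sw
          simp only [one_mul]
        rw [h3]
        exact Sw_le _ (fun _ => by simp) F M x y Q ν I hI hQ hQx hy i hi _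
      have h3 := sum_le_sum h2
      rw [sum_const, nsmul_eq_mul] at h3
      have h4 : (#I : ℝ) * (2 * x / Q) ≤ (ν * Q) * (2 * x / Q) := mul_le_mul_of_nonneg_right hcardI (by positivity)
      have h5 : (ν * Q : ℝ) * (2 * x / Q) = 2 * ν * x := by field_simp
      linarith
    · rw [if_neg h, zero_add]
      have h2 : ¬ (Q : ℝ) ≤ u' * #(BadQ F M x y Q u' ((dst t t' : ℕ) : ℝ)) := by
        intro h3
        apply h
        rw [hD, mem_filter, mem_range]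
        exact ⟨hdM, h3⟩
      refine (not_bad_sum F M x y Q ν I hI hQ hQx hy u' hu'1 _ h2).trans (le_of_eq ?_)
      rw [hu']
      field_simp
      ring
  have hup : ∑ t ∈ T, ∑ t' ∈ T, ∑ i ∈ I, ‖∑ n ∈ cls y i.1 i.2, ee (((t : ℝ) - t') * f n)‖ ≤
      R * (2 * #D) * (2 * ν * x) + R * (R * (ν * x / (4 * u ^ 4))) := by
    calc _ ≤ ∑ t ∈ T, ∑ t' ∈ T, ((if dst t t' ∈ D then 2 * ν * (x : ℝ) else 0) + ν * x / (4 * u ^ 4)) :=
          sum_le_sum fun t ht => sum_le_sum fun t' ht' => hup1 t ht t' ht'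
      _ ≤ ∑ t ∈ T, ((2 * #D) * (2 * ν * x) + R * (ν * x / (4 * u ^ 4))) := by
          apply sum_le_sum
          intro t _
          rw [sum_add_distrib, ← sum_filter, sum_const, sum_const, nsmul_eq_mul, nsmul_eq_mul]
          apply add_le_add
          · apply mul_le_mul_of_nonneg_right _ (by positivity)
            have := dst_count T D t
            calc (#(T.filter (fun t' => dst t t' ∈ D)) : ℝ) ≤ ((2 * #D : ℕ) : ℝ) := by exact_mod_cast this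
              _ = _ := by push_cast; ring
          · exact le_rfl
      _ = _ := by rw [sum_const, nsmul_eq_mul]; ring
  -- lower bound
  set Ti : ℕ × ℕ → Finset ℕ := fun i => T.filter (fun t => (x : ℝ) ≤ Q * u * ‖Sw w F M y i t‖) with hTi
  have hlow1 : ∀ i ∈ I, (#(Ti i) : ℝ) ^ 2 * (x / (2 * Q * u ^ 2)) ≤
      ∑ t ∈ T, ∑ t' ∈ T, ‖∑ n ∈ cls y i.1 i.2, ee (((t : ℝ) - t') * f n)‖ := by
    intro i hi
    obtain ⟨hi1, hi2, hi3⟩ := hI.1 i hi
    have h1 := dual (cls y i.1 i.2) w hw f (Ti i)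
    have h2 : (#(Ti i) : ℝ) * (x / (Q * u)) ≤ ∑ t ∈ Ti i, ‖∑ n ∈ cls y i.1 i.2, w n * ee ((t : ℝ) * f n)‖ := by
      rw [← nsmul_eq_mul, ← sum_const]
      apply sum_le_sum
      intro t ht
      rw [hTi, mem_filter] at ht
      rw [div_le_iff₀ (by positivity)]
      have h3 := ht.2
      unfold Sw at h3
      calc (x : ℝ) ≤ _ := h3
        _ = _ := by ring
    have h3 : ∑ t ∈ Ti i, ∑ t' ∈ Ti i, ‖∑ n ∈ cls y i.1 i.2, ee (((t : ℝ) - t') * f n)‖ ≤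
        ∑ t ∈ T, ∑ t' ∈ T, ‖∑ n ∈ cls y i.1 i.2, ee (((t : ℝ) - t') * f n)‖ := by
      refine (sum_le_sum_of_subset_of_nonneg (filter_subset _ _) (fun _ _ _ => sum_nonneg fun _ _ => norm_nonneg _)).trans ?_
      exact sum_le_sum fun t _ => sum_le_sum_of_subset_of_nonneg (filter_subset _ _) (fun _ _ _ => norm_nonneg _)
    have h4 := card_cls x y i.1 i.2 Q hQ hQx hy hi1 hi3
    set Z := ∑ t ∈ T, ∑ t' ∈ T, ‖∑ n ∈ cls y i.1 i.2, ee (((t : ℝ) - t') * f n)‖ with hZ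
    have hZ0 : 0 ≤ Z := sum_nonneg fun _ _ => sum_nonneg fun _ _ => norm_nonneg _
    have h5 : ((#(Ti i) : ℝ) * (x / (Q * u))) ^ 2 ≤ (2 * x / Q) * Z := by
      calc ((#(Ti i) : ℝ) * (x / (Q * u))) ^ 2 ≤ (∑ t ∈ Ti i, ‖∑ n ∈ cls y i.1 i.2, w n * ee ((t : ℝ) * f n)‖) ^ 2 :=
            pow_le_pow_left₀ (by positivity) h2 2
        _ ≤ _ := h1
        _ ≤ (#(cls y i.1 i.2) : ℝ) * Z := mul_le_mul_of_nonneg_left h3 (Nat.cast_nonneg _)
        _ ≤ _ := mul_le_mul_of_nonneg_right h4 hZ0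
    have h6 : ((#(Ti i) : ℝ) * (x / (Q * u))) ^ 2 = (2 * x / Q) * ((#(Ti i) : ℝ) ^ 2 * (x / (2 * Q * u ^ 2))) := by
      field_simp
    rw [h6] at h5
    exact le_of_mul_le_mul_left h5 (by positivity)
  have hsumT : R * (ν * Q / u) ≤ ∑ i ∈ I, (#(Ti i) : ℝ) := by
    have h1 : ∑ i ∈ I, (#(Ti i) : ℝ) = ∑ t ∈ T, (#(BadI w F M x y Q I u t) : ℝ) := by
      simp only [hTi, BadI, card_filter]
      push_cast
      rw [sum_comm]
    rw [h1, ← nsmul_eq_mul, ← sum_const]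
    apply sum_le_sum
    intro t ht
    rw [div_le_iff₀ hu0]
    have := (hTm t ht).2
    linarith
  have hsq : R ^ 2 * (ν * Q / u ^ 2) ≤ ∑ i ∈ I, (#(Ti i) : ℝ) ^ 2 := by
    have h1 := sum_mul_sq_le_sq_mul_sq I (fun _ => (1 : ℝ)) (fun i => (#(Ti i) : ℝ))
    simp only [one_mul, one_pow, sum_const, nsmul_eq_mul, mul_one] at h1
    have h2 : (R * (ν * Q / u)) ^ 2 ≤ (ν * Q) * ∑ i ∈ I, (#(Ti i) : ℝ) ^ 2 := by
      calc (R * (ν * Q / u)) ^ 2 ≤ (∑ i ∈ I, (#(Ti i) : ℝ)) ^ 2 := pow_le_pow_left₀ (by positivity) hsumT 2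
        _ ≤ _ := h1
        _ ≤ _ := mul_le_mul_of_nonneg_right hcardI (sum_nonneg fun _ _ => by positivity)
    have h3 : (R * (ν * Q / u)) ^ 2 = (ν * Q) * (R ^ 2 * (ν * Q / u ^ 2)) := by
      field_simp
    rw [h3] at h2
    exact le_of_mul_le_mul_left h2 (by positivity)
  have hlow : R ^ 2 * (ν * x / (2 * u ^ 4)) ≤ ∑ t ∈ T, ∑ t' ∈ T, ∑ i ∈ I, ‖∑ n ∈ cls y i.1 i.2, ee (((t : ℝ) - t') * f n)‖ := by
    have h1 : ∑ t ∈ T, ∑ t' ∈ T, ∑ i ∈ I, ‖∑ n ∈ cls y i.1 i.2, ee (((t : ℝ) - t') * f n)‖ =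
        ∑ i ∈ I, ∑ t ∈ T, ∑ t' ∈ T, ‖∑ n ∈ cls y i.1 i.2, ee (((t : ℝ) - t') * f n)‖ := by
      rw [sum_comm' (s := I) (t := fun _ => T) (t' := T) (s' := fun _ => I) (by intros; tauto)]
      apply sum_congr rfl
      intro t _
      rw [sum_comm]
    rw [h1]
    calc R ^ 2 * (ν * x / (2 * u ^ 4)) = (R ^ 2 * (ν * Q / u ^ 2)) * (x / (2 * Q * u ^ 2)) := by field_simp
      _ ≤ (∑ i ∈ I, (#(Ti i) : ℝ) ^ 2) * (x / (2 * Q * u ^ 2)) := mul_le_mul_of_nonneg_right hsq (by positivity)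
      _ = ∑ i ∈ I, (#(Ti i) : ℝ) ^ 2 * (x / (2 * Q * u ^ 2)) := sum_mul _ _ _
      _ ≤ _ := sum_le_sum hlow1
  -- conclusion
  have h1 := hlow.trans hup
  have hR0 : 0 ≤ R := Nat.cast_nonneg _
  rcases hR0.eq_or_lt with h0 | h0
  · rw [← h0]; positivity
  · have h2 : R * (R * (ν * x / (4 * u ^ 4))) ≤ R * ((2 * #D) * (2 * ν * x)) := by
      have e1 : R ^ 2 * (ν * x / (2 * u ^ 4)) = R * (R * (ν * x / (4 * u ^ 4))) + R * (R * (ν * x / (4 * u ^ 4))) := by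
        field_simp
        ring
      rw [e1] at h1
      linarith
    have h3 := le_of_mul_le_mul_left h2 h0
    have h4 : R * (ν * x) ≤ (16 * u ^ 4 * #D) * (ν * x) := by
      have e2 : R * (ν * x / (4 * u ^ 4)) = R * (ν * x) / (4 * u ^ 4) := by ring
      rw [e2, div_le_iff₀ (by positivity)] at h3
      linarith
    have h5 := le_of_mul_le_mul_right h4 (by positivity)
    refine h5.trans ?_
    exact mul_le_mul_of_nonneg_left hDc (by positivity)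

end Pool.Agent.H544.LD
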