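import Mathlib
import Pool.Agent.H544.LD.Dual

/-!
The bilinear estimate for families of residue classes.
-/

set_option autoImplicit false

namespace Pool.Agent.H544.LD
open Finset Polynomial
open Pool.Agent.H807R2.Dav
open Pool.Agent.H373R2.T7 (conj_ee orth fz parseval_Icc cf abs_eval_le lamI lamzI sup_diff Vz_inv_small ev_L' lamz lamz_nonneg Vz)

/-- the energy of the large sums -/
lemma energy_all (w : ℕ → ℂ) (hw : ∀ n, ‖w n‖ ≤ 1) (F : ℕ → ℤ) (M x y Q ν : ℕ) (I : Finset (ℕ × ℕ)) (hI : Fam Q ν I) (hQ : 1 ≤ Q)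
    (hQx : Q ≤ x) (hy : y ≤ x) (t : ℝ) : ∑ i ∈ I, ‖Sw w F M y i t‖ ^ 2 ≤ 4 * ν * x ^ 2 / Q := by
  have hQ0 : (0 : ℝ) < Q := by exact_mod_cast hQ
  have h1 : ∀ i ∈ I, ‖Sw w F M y i t‖ ^ 2 ≤ (2 * x / Q) ^ 2 := fun i hi =>
    pow_le_pow_left₀ (norm_nonneg _) (Sw_le w hw F M x y Q ν I hI hQ hQx hy i hi t) 2
  refine (sum_le_sum h1).trans ?_
  rw [sum_const, nsmul_eq_mul]
  have h2 : (#I : ℝ) ≤ ν * Q := by exact_mod_cast hI.card_le
  calc (#I : ℝ) * (2 * x / Q) ^ 2 ≤ (ν * Q) * (2 * x / Q) ^ 2 := mul_le_mul_of_nonneg_right h2 (by positivity)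
    _ = _ := by field_simp; ring

lemma energy_good (w : ℕ → ℂ) (hw : ∀ n, ‖w n‖ ≤ 1) (F : ℕ → ℤ) (M x y Q ν : ℕ) (I : Finset (ℕ × ℕ)) (hI : Fam Q ν I) (hQ : 1 ≤ Q)
    (hQx : Q ≤ x) (hy : y ≤ x) (u : ℝ) (hu : 1 ≤ u) (t : ℝ) (ht : ¬ (ν * Q : ℝ) ≤ u * #(BadI w F M x y Q I u t)) :
    ∑ i ∈ I, ‖Sw w F M y i t‖ ^ 2 ≤ 5 * ν * x ^ 2 / (Q * u) := by
  classical
  have hQ0 : (0 : ℝ) < Q := by exact_mod_cast hQ
  have hu0 : 0 < u := by linarith
  have hx0 : (0 : ℝ) < x := by exact_mod_cast (by omega : 0 < x)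
  push Not at ht
  have hpt : ∀ i ∈ I, ‖Sw w F M y i t‖ ^ 2 ≤ (if (x : ℝ) ≤ Q * u * ‖Sw w F M y i t‖ then (2 * (x : ℝ) / Q) ^ 2 else 0) + (x / (Q * u)) ^ 2 := by
    intro i hi
    have hp : 0 ≤ ((x : ℝ) / (Q * u)) ^ 2 := by positivity
    by_cases h : (x : ℝ) ≤ Q * u * ‖Sw w F M y i t‖
    · rw [if_pos h]
      have := pow_le_pow_left₀ (norm_nonneg _) (Sw_le w hw F M x y Q ν I hI hQ hQx hy i hi t) 2
      linarith
    · rw [if_neg h, zero_add]
      push Not at h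
      apply pow_le_pow_left₀ (norm_nonneg _)
      rw [le_div_iff₀ (by positivity)]
      linarith
  have hcardI : (#I : ℝ) ≤ ν * Q := by exact_mod_cast hI.card_le
  have hB : (#(I.filter (fun i => (x : ℝ) ≤ Q * u * ‖Sw w F M y i t‖)) : ℝ) ≤ ν * Q / u := by
    rw [le_div_iff₀ hu0]
    have : (#(I.filter (fun i => (x : ℝ) ≤ Q * u * ‖Sw w F M y i t‖)) : ℝ) = #(BadI w F M x y Q I u t) := by
      unfold BadI
      congr!
    rw [this]
    linarith
  calc _ ≤ ∑ i ∈ I, ((if (x : ℝ) ≤ Q * u * ‖Sw w F M y i t‖ then (2 * (x : ℝ) / Q) ^ 2 else 0) + (x / (Q * u)) ^ 2) := sum_le_sum hpt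
    _ = #(I.filter (fun i => (x : ℝ) ≤ Q * u * ‖Sw w F M y i t‖)) * (2 * x / Q) ^ 2 + #I * (x / (Q * u)) ^ 2 := by
        rw [sum_add_distrib, ← sum_filter, sum_const, sum_const, nsmul_eq_mul, nsmul_eq_mul]
    _ ≤ (ν * Q / u) * (2 * x / Q) ^ 2 + (ν * Q) * (x / (Q * u)) ^ 2 :=
        add_le_add (mul_le_mul_of_nonneg_right hB (by positivity)) (mul_le_mul_of_nonneg_right hcardI (by positivity))
    _ = (4 + 1 / u) * (ν * x ^ 2 / (Q * u)) := by field_simp; ring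
    _ ≤ 5 * (ν * x ^ 2 / (Q * u)) := by
        apply mul_le_mul_of_nonneg_right _ (by positivity)
        have : 1 / u ≤ 1 := by rw [div_le_one hu0]; exact hu
        linarith
    _ = _ := by ring

open Classical in
/-- the bilinear estimate for a family of classes -/
theorem bil_fam (A H x y M Q ν : ℕ) (I : Finset (ℕ × ℕ)) (hI : Fam Q ν I) (hQ : 1 ≤ Q) (hQx : Q ≤ x) (hy : y ≤ x)
    (hM1 : 1 ≤ M) (f : ℕ → ℂ) (G : ℕ × ℕ → ℕ → ℂ) (w : ℕ → ℂ) (F : ℕ → ℤ) (δ u : ℝ) (R W : ℝ) (hu : 1 ≤ u)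
    (hM : ∀ a ∈ Icc 1 A, ∀ m ∈ Icc 1 x, ∀ n ∈ Icc 1 H, |(a : ℤ) + F m - n| < M) (hAM : A ≤ M) (hHM : H ≤ M)
    (hf : ∀ α : ℝ, ‖∑ n ∈ Icc 1 H, f n * ee ((n : ℝ) * α)‖ ≤ δ)
    (hG : ∀ i a, ‖G i a‖ ≤ 1) (hw : ∀ m, ‖w m‖ ≤ 1)
    (hcount : (#((range M).filter (fun t : ℕ => (ν * Q : ℝ) ≤ u * #(BadI w F M x y Q I u t))) : ℝ) ≤ R)
    (hfs : ∑ n ∈ Icc 1 H, ‖f n‖ ^ 2 ≤ W) :
    ‖∑ i ∈ I, ∑ a ∈ Icc 1 A, ∑ m ∈ cls y i.1 i.2, G i a * w m * fz f H (a + F m)‖ ≤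
      2 * R * δ * A * ν * x / M + ν * x * Real.sqrt (5 * W * A / u) := by
  have hM0 : (0 : ℝ) < M := by exact_mod_cast hM1
  have hQ0 : (0 : ℝ) < Q := by exact_mod_cast hQ
  have hx0 : (0 : ℝ) < x := by exact_mod_cast (by omega : 0 < x)
  have hu0 : 0 < u := by linarith
  have hδ : 0 ≤ δ := (norm_nonneg _).trans (hf 0)
  have hclsx : ∀ i : ℕ × ℕ, ∀ m ∈ cls y i.1 i.2, m ∈ Icc 1 x := by
    intro i m hm
    unfold cls at hm
    rw [mem_filter, mem_Icc] at hm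
    rw [mem_Icc]
    omega
  set fh : ℕ → ℂ := fun t => ∑ n ∈ Icc 1 H, f n * ee ((t : ℝ) * ((((-1 : ℤ) * n : ℤ) : ℝ) / M)) with hfh
  set Gh : ℕ × ℕ → ℕ → ℂ := fun i t => ∑ a ∈ Icc 1 A, G i a * ee ((t : ℝ) * ((((1 : ℤ) * a : ℤ) : ℝ) / M)) with hGh
  -- the Fourier identity
  have hid1 : ∀ i ∈ I, (M : ℂ) * ∑ a ∈ Icc 1 A, ∑ m ∈ cls y i.1 i.2, G i a * w m * fz f H (a + F m) =
      ∑ t ∈ range M, fh t * Gh i t * Sw w F M y i t := by
    intro i _
    have h1 : ∀ t ∈ range M, fh t * Gh i t * Sw w F M y i t = ∑ a ∈ Icc 1 A, ∑ m ∈ cls y i.1 i.2, ∑ n ∈ Icc 1 H,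
        G i a * w m * f n * ee ((t : ℝ) * ((((a : ℤ) + F m - n : ℤ) : ℝ) / M)) := by
      intro t _
      rw [hfh, hGh]
      unfold Sw
      simp only
      rw [← Pool.Agent.H373R2.T7.triple]
      apply sum_congr rfl
      intro a _
      apply sum_congr rfl
      intro m _
      apply sum_congr rfl
      intro n _
      have h2 : ee ((t : ℝ) * ((((a : ℤ) + F m - n : ℤ) : ℝ) / M)) =
          ee ((t : ℝ) * ((((1 : ℤ) * a : ℤ) : ℝ) / M)) * ee ((t : ℝ) * ((((-1 : ℤ) * n : ℤ) : ℝ) / M)) * ee ((t : ℝ) * ((F m : ℝ) / M)) := by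
        rw [← ee_add, ← ee_add]
        congr 1
        push_cast
        ring
      rw [h2]
      ring
    rw [sum_congr rfl h1]
    symm
    rw [sum_comm, mul_sum]
    apply sum_congr rfl
    intro a ha
    rw [sum_comm, mul_sum]
    apply sum_congr rfl
    intro m hm
    rw [sum_comm]
    have h2 : ∀ n ∈ Icc 1 H, ∑ t ∈ range M, G i a * w m * f n * ee ((t : ℝ) * ((((a : ℤ) + F m - n : ℤ) : ℝ) / M)) =
        if (n : ℤ) = a + F m then (M : ℂ) * (G i a * w m * f n) else 0 := by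
      intro n hn
      rw [← mul_sum, orth M hM1]
      by_cases h3 : (n : ℤ) = a + F m
      · rw [if_pos h3, if_pos (by rw [h3]; simp)]
        ring
      · rw [if_neg h3, if_neg, mul_zero]
        intro hd
        apply h3
        have := Int.eq_zero_of_abs_lt_dvd hd (hM a ha m (hclsx i m hm) n hn)
        omega
    rw [sum_congr rfl h2]
    unfold fz
    by_cases h3 : 1 ≤ (a : ℤ) + F m ∧ (a : ℤ) + F m ≤ H
    · rw [if_pos h3, sum_eq_single ((a : ℤ) + F m).toNat]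
      · rw [if_pos (by rw [Int.toNat_of_nonneg (by omega)])]
      · intro n _ hne
        rw [if_neg]
        intro h4
        apply hne
        omega
      · intro h4
        exfalso
        apply h4
        rw [mem_Icc]
        omega
    · rw [if_neg h3, mul_zero, mul_zero]
      apply sum_eq_zero
      intro n hn
      rw [mem_Icc] at hn
      rw [if_neg]
      omega
  have hid : (M : ℂ) * ∑ i ∈ I, ∑ a ∈ Icc 1 A, ∑ m ∈ cls y i.1 i.2, G i a * w m * fz f H (a + F m) =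
      ∑ t ∈ range M, fh t * ∑ i ∈ I, Gh i t * Sw w F M y i t := by
    rw [mul_sum, sum_congr rfl hid1, sum_comm]
    apply sum_congr rfl
    intro t _
    rw [mul_sum]
    apply sum_congr rfl
    intro i _
    ring
  -- bounds
  have hfh1 : ∀ t, ‖fh t‖ ≤ δ := by
    intro t
    have h1 : fh t = ∑ n ∈ Icc 1 H, f n * ee ((n : ℝ) * (-(t : ℝ) / M)) := by
      rw [hfh]
      apply sum_congr rfl
      intro n _
      congr 2
      push_cast
      ring
    rw [h1]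
    exact hf _
  have hGh1 : ∀ i t, ‖Gh i t‖ ≤ A := by
    intro i t
    rw [hGh]
    refine (norm_sum_le _ _).trans ?_
    have : ∀ a ∈ Icc 1 A, ‖G i a * ee ((t : ℝ) * ((((1 : ℤ) * a : ℤ) : ℝ) / M))‖ ≤ 1 := by
      intro a _
      rw [norm_mul, norm_ee, mul_one]
      exact hG i a
    refine (sum_le_sum this).trans ?_
    rw [sum_const, Nat.card_Icc, nsmul_eq_mul]
    simp
  have hcardI : (#I : ℝ) ≤ ν * Q := by exact_mod_cast hI.card_le
  set Gt : ℕ → ℝ := fun t => ∑ i ∈ I, ‖Gh i t‖ ^ 2 with hGt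
  have hGt0 : ∀ t, 0 ≤ Gt t := fun t => sum_nonneg fun _ _ => by positivity
  have hcs : ∀ t : ℕ, ‖∑ i ∈ I, Gh i t * Sw w F M y i t‖ ≤ √(Gt t) * √(∑ i ∈ I, ‖Sw w F M y i t‖ ^ 2) := by
    intro t
    rw [← Real.sqrt_mul (hGt0 t)]
    apply Real.le_sqrt_of_sq_le
    calc ‖∑ i ∈ I, Gh i t * Sw w F M y i t‖ ^ 2 ≤ (∑ i ∈ I, ‖Gh i t‖ * ‖Sw w F M y i t‖) ^ 2 := by
          apply pow_le_pow_left₀ (norm_nonneg _)
          refine (norm_sum_le _ _).trans (le_of_eq ?_)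
          exact sum_congr rfl fun i _ => norm_mul _ _
      _ ≤ _ := sum_mul_sq_le_sq_mul_sq I _ _
  set bad := (range M).filter (fun t : ℕ => (ν * Q : ℝ) ≤ u * #(BadI w F M x y Q I u t)) with hbad
  have hptb : ∀ t ∈ bad, ‖fh t * ∑ i ∈ I, Gh i t * Sw w F M y i t‖ ≤ δ * (2 * A * ν * x) := by
    intro t _
    rw [norm_mul]
    apply mul_le_mul (hfh1 t) _ (norm_nonneg _) hδ
    refine (hcs t).trans ?_
    have h1 : Gt t ≤ (ν * Q) * (A : ℝ) ^ 2 := by
      rw [hGt]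
      have h2 : ∀ i ∈ I, ‖Gh i t‖ ^ 2 ≤ (A : ℝ) ^ 2 := fun i _ => pow_le_pow_left₀ (norm_nonneg _) (hGh1 i t) 2
      refine (sum_le_sum h2).trans ?_
      rw [sum_const, nsmul_eq_mul]
      exact mul_le_mul_of_nonneg_right hcardI (by positivity)
    have h2 := energy_all w hw F M x y Q ν I hI hQ hQx hy t
    rw [← Real.sqrt_mul (hGt0 t)]
    apply Real.sqrt_le_iff.2
    refine ⟨by positivity, ?_⟩
    calc Gt t * ∑ i ∈ I, ‖Sw w F M y i t‖ ^ 2 ≤ ((ν * Q) * (A : ℝ) ^ 2) * (4 * ν * x ^ 2 / Q) :=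
          mul_le_mul h1 h2 (sum_nonneg fun _ _ => by positivity) (by positivity)
      _ = (2 * A * ν * x) ^ 2 := by field_simp; ring
  have hptg : ∀ t ∈ range M, t ∉ bad → ‖fh t * ∑ i ∈ I, Gh i t * Sw w F M y i t‖ ≤
      √(5 * ν * x ^ 2 / (Q * u)) * (‖fh t‖ * √(Gt t)) := by
    intro t ht htb
    rw [norm_mul]
    have h1 : ¬ (ν * Q : ℝ) ≤ u * #(BadI w F M x y Q I u t) := by
      intro h
      apply htb
      rw [hbad, mem_filter]
      exact ⟨ht, h⟩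
    have h2 := energy_good w hw F M x y Q ν I hI hQ hQx hy u hu t h1
    have h3 := (hcs t).trans (mul_le_mul_of_nonneg_left (Real.sqrt_le_sqrt h2) (Real.sqrt_nonneg _))
    calc ‖fh t‖ * ‖∑ i ∈ I, Gh i t * Sw w F M y i t‖ ≤ ‖fh t‖ * (√(Gt t) * √(5 * ν * x ^ 2 / (Q * u))) :=
          mul_le_mul_of_nonneg_left h3 (norm_nonneg _)
      _ = _ := by ring
  have hW : 0 ≤ W := (sum_nonneg fun _ _ => by positivity).trans hfs
  have hcs2 : ∑ t ∈ range M, ‖fh t‖ * √(Gt t) ≤ M * √(W * (A * (ν * Q))) := by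
    have h1 := sum_mul_sq_le_sq_mul_sq (range M) (fun t => ‖fh t‖) (fun t => √(Gt t))
    have h2 : ∑ t ∈ range M, ‖fh t‖ ^ 2 ≤ M * W := by
      have h3 := parseval_Icc H M hM1 hHM f (-1) (Or.inr rfl)
      rw [hfh]
      simp only
      rw [h3]
      exact mul_le_mul_of_nonneg_left hfs hM0.le
    have h3 : ∑ t ∈ range M, √(Gt t) ^ 2 ≤ M * (A * (ν * Q)) := by
      have h4 : ∀ t ∈ range M, √(Gt t) ^ 2 = ∑ i ∈ I, ‖Gh i t‖ ^ 2 := fun t _ => Real.sq_sqrt (hGt0 t)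
      rw [sum_congr rfl h4, sum_comm]
      have h5 : ∀ i ∈ I, ∑ t ∈ range M, ‖Gh i t‖ ^ 2 ≤ M * A := by
        intro i _
        have h6 := parseval_Icc A M hM1 hAM (G i) 1 (Or.inl rfl)
        rw [hGh]
        simp only
        rw [h6]
        apply mul_le_mul_of_nonneg_left _ hM0.le
        have h7 : ∀ a ∈ Icc 1 A, ‖G i a‖ ^ 2 ≤ 1 := fun a _ => pow_le_one₀ (norm_nonneg _) (hG i a)
        refine (sum_le_sum h7).trans ?_
        rw [sum_const, Nat.card_Icc, nsmul_eq_mul]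
        simp
      refine (sum_le_sum h5).trans ?_
      rw [sum_const, nsmul_eq_mul]
      calc (#I : ℝ) * (M * A) ≤ (ν * Q) * (M * A) := mul_le_mul_of_nonneg_right hcardI (by positivity)
        _ = _ := by ring
    have h4 : (∑ t ∈ range M, ‖fh t‖ * √(Gt t)) ^ 2 ≤ (M * W) * (M * (A * (ν * Q))) :=
      h1.trans (mul_le_mul h2 h3 (sum_nonneg fun _ _ => by positivity) (by positivity))
    have h5 : (M * W) * (M * (A * (ν * Q))) = (M : ℝ) ^ 2 * (W * (A * (ν * Q))) := by ring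
    rw [h5] at h4
    have h6 := Real.sqrt_le_sqrt h4
    rw [Real.sqrt_sq (sum_nonneg fun _ _ => by positivity), Real.sqrt_mul (by positivity), Real.sqrt_sq hM0.le] at h6
    exact h6
  have hfin : ‖(M : ℂ) * ∑ i ∈ I, ∑ a ∈ Icc 1 A, ∑ m ∈ cls y i.1 i.2, G i a * w m * fz f H (a + F m)‖ ≤
      R * (δ * (2 * A * ν * x)) + √(5 * ν * x ^ 2 / (Q * u)) * (M * √(W * (A * (ν * Q)))) := by
    rw [hid]
    refine (norm_sum_le _ _).trans ?_
    rw [← sum_filter_add_sum_filter_not (range M) (fun t : ℕ => (ν * Q : ℝ) ≤ u * #(BadI w F M x y Q I u t))]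
    apply add_le_add
    · refine (sum_le_sum hptb).trans ?_
      rw [sum_const, nsmul_eq_mul]
      exact mul_le_mul_of_nonneg_right hcount (by positivity)
    · have h1 : ∀ t ∈ (range M).filter (fun t : ℕ => ¬ (ν * Q : ℝ) ≤ u * #(BadI w F M x y Q I u t)),
          ‖fh t * ∑ i ∈ I, Gh i t * Sw w F M y i t‖ ≤ √(5 * ν * x ^ 2 / (Q * u)) * (‖fh t‖ * √(Gt t)) := by
        intro t ht
        rw [mem_filter] at ht
        apply hptg t ht.1
        rw [hbad, mem_filter]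
        exact fun h => ht.2 h.2
      refine (sum_le_sum h1).trans ?_
      rw [← mul_sum]
      apply mul_le_mul_of_nonneg_left _ (Real.sqrt_nonneg _)
      refine le_trans ?_ hcs2
      apply sum_le_sum_of_subset_of_nonneg (filter_subset _ _)
      intro _ _ _
      positivity
  rw [norm_mul, Complex.norm_natCast] at hfin
  have e1 : √(5 * ν * x ^ 2 / (Q * u)) * √(W * (A * (ν * Q))) = ν * x * √(5 * W * A / u) := by
    rw [← Real.sqrt_mul (by positivity)]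
    have e2 : 5 * ν * x ^ 2 / (Q * u) * (W * (A * (ν * Q))) = (ν * x) ^ 2 * (5 * W * A / u) := by
      field_simp
    rw [e2, Real.sqrt_mul (by positivity), Real.sqrt_sq (by positivity)]
  rw [← mul_le_mul_iff_right₀ hM0]
  refine hfin.trans (le_of_eq ?_)
  rw [mul_add, mul_left_comm (√(5 * ν * x ^ 2 / (Q * u))), e1]
  field_simp

set_option maxHeartbeats 1000000 in
/-- the von Mangoldt function minus its model, for families of classes -/
theorem fam_lam (P : ℤ[X]) (hd : 1 ≤ P.natDegree) (hl : 0 < P.leadingCoeff) (B : ℕ) (hB : 1 ≤ B) (U : ℕ) :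
    ∃ B0 D0 : ℕ, ∀ E : ℕ, ∃ N0 : ℕ, ∀ N : ℕ, N0 ≤ N → ∀ x : ℕ, N ≤ B * x ^ P.natDegree → x ^ P.natDegree ≤ B * N →
    ∀ A : ℕ, A ≤ B * N → ∀ z : ℕ, Real.log N ^ B0 ≤ z → (z : ℝ) ≤ Real.log N ^ E →
    ∀ Q ν y : ℕ, 1 ≤ Q → 1 ≤ ν → y ≤ x → Q * Real.log N ^ D0 ≤ x → ∀ I : Finset (ℕ × ℕ), Fam Q ν I →
    ∀ (G : ℕ × ℕ → ℕ → ℂ) (w : ℕ → ℂ), (∀ i a, ‖G i a‖ ≤ 1) → (∀ m, ‖w m‖ ≤ 1) →
    ‖∑ i ∈ I, ∑ a ∈ Icc 1 A, ∑ m ∈ cls y i.1 i.2, G i a * w m *
      ((lamI (a + P.eval (m : ℤ)) - lamzI z (a + P.eval (m : ℤ)) : ℝ) : ℂ)‖ ≤ ν * N * x / Real.log N ^ U := by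
  set d := P.natDegree with hdd
  set c1 : ℕ := B + cf P * B with hc1
  have hc1B : 1 ≤ c1 := by omega
  obtain ⟨K, m, hK1, hcnt⟩ := count_badw P hd hl (4 * c1 * B) (by nlinarith)
  set U' : ℕ := 2 * (U + 2) * m + U + 1 with hU'
  obtain ⟨B1, hsup⟩ := sup_diff U'
  refine ⟨B1 + 1, 2 * (U + 2) * m + 1, fun E => ?_⟩
  obtain ⟨m1, h1⟩ := hsup E
  obtain ⟨m2, h2⟩ := Vz_inv_small E
  obtain ⟨m3, h3⟩ := ev_L' (max (2 * (K * c1)) (max (20 * c1) (max (2 ^ B1) (Real.log c1 + 1))))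
  refine ⟨max (max m1 m2) (max m3 3), fun N hN x hx1 hx2 A hA z hz1 hz2 Q ν y hQ hν hy hQD I hI G w hG hw => ?_⟩
  have hm1 : m1 ≤ N := le_trans (le_trans (le_max_left _ _) (le_max_left _ _)) hN
  have hm2 : m2 ≤ N := le_trans (le_trans (le_max_right _ _) (le_max_left _ _)) hN
  have hL := h3 N (le_trans (le_trans (le_max_left _ _) (le_max_right _ _)) hN)
  have hN3 : 3 ≤ N := le_trans (le_trans (le_max_right _ _) (le_max_right _ _)) hN
  have hNr : (3 : ℝ) ≤ N := by exact_mod_cast hN3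
  have hN0 : (0 : ℝ) < N := by linarith
  set L := Real.log N with hLd
  have hL1 : 2 * ((K : ℝ) * c1) ≤ L := (le_max_left _ _).trans hL
  have hL2 : 20 * (c1 : ℝ) ≤ L := ((le_max_left _ _).trans (le_max_right _ _)).trans hL
  have hL3 : (2 : ℝ) ^ B1 ≤ L := (((le_max_left _ _).trans (le_max_right _ _)).trans (le_max_right _ _)).trans hL
  have hL4 : Real.log c1 + 1 ≤ L := (((le_max_right _ _).trans (le_max_right _ _)).trans (le_max_right _ _)).trans hL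
  have hc1r : (1 : ℝ) ≤ c1 := by exact_mod_cast hc1B
  have hK1r : (1 : ℝ) ≤ K := by exact_mod_cast hK1
  have hL0 : 0 < L := by linarith
  have hLge1 : 1 ≤ L := by linarith
  have hKL : (K : ℝ) ≤ L := by nlinarith
  have hQ0 : (0 : ℝ) < Q := by exact_mod_cast hQ
  have hν0 : (0 : ℝ) < ν := by exact_mod_cast hν
  have hz : 1 ≤ z := by
    have : (1 : ℝ) ≤ z := (one_le_pow₀ hLge1).trans hz1
    exact_mod_cast this
  have hx : 1 ≤ x := by
    rcases Nat.eq_zero_or_pos x with h | h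
    · rw [h, zero_pow (by omega), mul_zero] at hx1; omega
    · exact h
  have hx0 : (0 : ℝ) < x := by exact_mod_cast hx
  have hQx : Q ≤ x := by
    have h4 : (Q : ℝ) ≤ Q * L ^ (2 * (U + 2) * m + 1) := le_mul_of_one_le_right hQ0.le (one_le_pow₀ hLge1)
    have h5 : (Q : ℝ) ≤ x := h4.trans hQD
    exact_mod_cast h5
  set H : ℕ := c1 * N with hH
  have hHN : N ≤ H := Nat.le_mul_of_pos_left _ (by omega)
  have hH1 : 1 ≤ H := by omega
  have hHr : (H : ℝ) = c1 * N := by rw [hH]; push_cast; ring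
  have hlogH1 : L ≤ Real.log H := Real.log_le_log hN0 (by exact_mod_cast hHN)
  have hlogH2 : Real.log H ≤ 2 * L := by
    rw [hHr, Real.log_mul (by linarith) hN0.ne']
    linarith
  set M : ℕ := 4 * H with hM
  have hsz : ∀ m ∈ Icc 1 x, |P.eval (m : ℤ)| ≤ ((cf P * B * N : ℕ) : ℤ) := by
    intro m hm
    rw [mem_Icc] at hm
    refine (abs_eval_le P m hm.1).trans ?_
    have h5 : cf P * m ^ P.natDegree ≤ cf P * B * N := by
      rw [mul_assoc]
      apply Nat.mul_le_mul_left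
      exact (Nat.pow_le_pow_left hm.2 _).trans hx2
    exact_mod_cast h5
  have hHc : (H : ℤ) = B * N + ((cf P * B * N : ℕ) : ℤ) := by rw [hH, hc1]; push_cast; ring
  have hM1 : 1 ≤ M := by omega
  have hcond : ∀ a ∈ Icc 1 A, ∀ m ∈ Icc 1 x, ∀ n ∈ Icc 1 H, |(a : ℤ) + P.eval (m : ℤ) - n| < M := by
    intro a ha m hm n hn
    have h4 := abs_le.1 (hsz m hm)
    rw [mem_Icc] at ha hn
    have h5 : (a : ℤ) ≤ B * N := by exact_mod_cast ha.2.trans hA
    rw [abs_lt]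
    constructor <;> push_cast [hM] <;> omega
  have hAH : A ≤ H := hA.trans (by rw [hH, hc1]; nlinarith [Nat.zero_le (cf P * B * N)])
  -- the parameter u
  set u : ℝ := L ^ (2 * (U + 2)) with hu
  have hu1 : 1 ≤ u := one_le_pow₀ hLge1
  have hum : u ^ m = L ^ (2 * (U + 2) * m) := by rw [hu, ← pow_mul]
  have hcnt1 := hcnt x M Q y ν I u w hM1 (by
    rw [hM, hH]
    calc 4 * (c1 * N) ≤ 4 * (c1 * (B * x ^ d)) := by gcongr
      _ = 4 * c1 * B * x ^ d := by ring) hQ hν hy hu1 hI hw (by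
    rw [hum]
    calc (K : ℝ) * L ^ (2 * (U + 2) * m) * Q ≤ L * L ^ (2 * (U + 2) * m) * Q := by gcongr
      _ = Q * L ^ (2 * (U + 2) * m + 1) := by rw [pow_succ]; ring
      _ ≤ x := hQD)
  -- the function
  set fΛ : ℕ → ℂ := fun n => ((ArithmeticFunction.vonMangoldt n - lamz z n : ℝ) : ℂ) with hfΛ
  have hzH1 : Real.log H ^ B1 ≤ z := by
    calc Real.log H ^ B1 ≤ (2 * L) ^ B1 := pow_le_pow_left₀ (hL0.le.trans hlogH1) hlogH2 _
      _ = 2 ^ B1 * L ^ B1 := mul_pow _ _ _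
      _ ≤ L * L ^ B1 := mul_le_mul_of_nonneg_right hL3 (by positivity)
      _ = L ^ (B1 + 1) := by ring
      _ ≤ z := hz1
  have hzH2 : (z : ℝ) ≤ Real.log H ^ E := hz2.trans (pow_le_pow_left₀ hL0.le hlogH1 _)
  have hsup1 : ∀ α : ℝ, ‖∑ n ∈ Icc 1 H, fΛ n * ee ((n : ℝ) * α)‖ ≤ H / L ^ U' := by
    intro α
    refine (h1 H (hm1.trans hHN) z hzH1 hzH2 α).trans ?_
    apply div_le_div_of_nonneg_left (by positivity) (by positivity)
    exact pow_le_pow_left₀ hL0.le hlogH1 _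
  have hVinv := h2 N hm2 z hz hz2
  have hlz : ∀ n, lamz z n ≤ L := by
    intro n
    unfold lamz
    split_ifs
    · exact hVinv
    · exact hL0.le
  have hfs : ∑ n ∈ Icc 1 H, ‖fΛ n‖ ^ 2 ≤ H * (2 * L) ^ 2 := by
    have h4 : ∀ n ∈ Icc 1 H, ‖fΛ n‖ ^ 2 ≤ (2 * L) ^ 2 := by
      intro n hn
      rw [mem_Icc] at hn
      apply pow_le_pow_left₀ (norm_nonneg _)
      rw [hfΛ, Complex.norm_real, Real.norm_eq_abs]
      have h5 : ArithmeticFunction.vonMangoldt n ≤ 2 * L := by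
        refine ArithmeticFunction.vonMangoldt_le_log.trans (le_trans ?_ hlogH2)
        exact Real.log_le_log (by exact_mod_cast hn.1) (by exact_mod_cast hn.2)
      have h6 : (0 : ℝ) ≤ ArithmeticFunction.vonMangoldt n := ArithmeticFunction.vonMangoldt_nonneg
      have h7 := lamz_nonneg z n
      have h8 := hlz n
      rw [abs_le]
      constructor <;> linarith
    refine (sum_le_sum h4).trans ?_
    rw [sum_const, Nat.card_Icc, nsmul_eq_mul]
    simp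
  have key := bil_fam A H x y M Q ν I hI hQ hQx hy hM1 fΛ G w (fun m => P.eval (m : ℤ)) (H / L ^ U') u (K * u ^ m)
    (H * (2 * L) ^ 2) hu1 hcond (hAH.trans (by omega)) (by omega) hsup1 hG hw hcnt1 hfs
  have heq : ∑ i ∈ I, ∑ a ∈ Icc 1 A, ∑ m ∈ cls y i.1 i.2, G i a * w m *
      ((lamI (a + P.eval (m : ℤ)) - lamzI z (a + P.eval (m : ℤ)) : ℝ) : ℂ) =
      ∑ i ∈ I, ∑ a ∈ Icc 1 A, ∑ m ∈ cls y i.1 i.2, G i a * w m * fz fΛ H (a + P.eval (m : ℤ)) := by
    apply sum_congr rfl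
    intro i hi
    apply sum_congr rfl
    intro a ha
    apply sum_congr rfl
    intro m hm
    congr 1
    unfold fz lamI lamzI
    have hmx : m ∈ Icc 1 x := by
      unfold cls at hm
      rw [mem_filter, mem_Icc] at hm
      rw [mem_Icc]
      omega
    have h4 := abs_le.1 (hsz m hmx)
    rw [mem_Icc] at ha
    have h5 : (a : ℤ) ≤ B * N := by exact_mod_cast ha.2.trans hA
    by_cases h6 : 1 ≤ (a : ℤ) + P.eval (m : ℤ)
    · rw [if_pos h6, if_pos h6, if_pos ⟨h6, by omega⟩]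
    · rw [if_neg h6, if_neg h6, if_neg (fun h => h6 h.1)]
      simp
  rw [heq]
  refine key.trans ?_
  have hAr : (A : ℝ) ≤ H := by exact_mod_cast hAH
  have hHr0 : (0 : ℝ) < H := by exact_mod_cast hH1
  have hMr : (M : ℝ) = 4 * H := by rw [hM]; push_cast; ring
  have t1 : 2 * (K * u ^ m) * (H / L ^ U') * A * ν * x / M ≤ (1 / 2) * (ν * N * x / L ^ U) := by
    rw [hum, hU', hMr]
    have e : L ^ (2 * (U + 2) * m + U + 1) = L ^ (2 * (U + 2) * m) * L ^ U * L := by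
      rw [pow_succ, pow_add]
    rw [e]
    calc 2 * (K * L ^ (2 * (U + 2) * m)) * (H / (L ^ (2 * (U + 2) * m) * L ^ U * L)) * A * ν * x / (4 * H)
        = (K * A / (2 * L)) * (ν * x / L ^ U) := by field_simp; ring
      _ ≤ (K * H / (2 * L)) * (ν * x / L ^ U) := by gcongr
      _ = (K * c1 / L) * (1 / 2 * (ν * N * x / L ^ U)) := by rw [hHr]; field_simp
      _ ≤ 1 * (1 / 2 * (ν * N * x / L ^ U)) := by
          apply mul_le_mul_of_nonneg_right _ (by positivity)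
          rw [div_le_one hL0]
          nlinarith
      _ = _ := one_mul _
  have t2 : ν * x * Real.sqrt (5 * (H * (2 * L) ^ 2) * A / u) ≤ (1 / 2) * (ν * N * x / L ^ U) := by
    have h4 : Real.sqrt (5 * (H * (2 * L) ^ 2) * A / u) ≤ 5 * H * L / L ^ (U + 2) := by
      rw [Real.sqrt_le_left (by positivity), hu]
      have e : L ^ (2 * (U + 2)) = (L ^ (U + 2)) ^ 2 := by rw [← pow_mul, mul_comm]
      rw [e, div_pow]
      apply div_le_div_of_nonneg_right _ (by positivity)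
      have : 5 * (H * (2 * L) ^ 2) * A ≤ 5 * (H * (2 * L) ^ 2) * H := mul_le_mul_of_nonneg_left hAr (by positivity)
      nlinarith [mul_pos hHr0 hL0, sq_nonneg (H * L : ℝ)]
    calc ν * x * Real.sqrt (5 * (H * (2 * L) ^ 2) * A / u) ≤ ν * x * (5 * H * L / L ^ (U + 2)) :=
          mul_le_mul_of_nonneg_left h4 (by positivity)
      _ = (10 * c1 / L) * (1 / 2 * (ν * N * x / L ^ U)) := by rw [hHr, pow_add]; field_simp; ring
      _ ≤ 1 * (1 / 2 * (ν * N * x / L ^ U)) := by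
          apply mul_le_mul_of_nonneg_right _ (by positivity)
          rw [div_le_one hL0]
          linarith
      _ = _ := one_mul _
  linarith

end Pool.Agent.H544.LD
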