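import Mathlib
import Pool.Agent.H544.LD.Bil
import Pool.Graph.R_seed8.H373R2.T7.Sys2

/-!
Systems of polynomials: from the von Mangoldt function to its model in families of residue classes.
-/

set_option autoImplicit false

namespace Pool.Agent.H544.LD
open Finset Polynomial
open Pool.Agent.H373R2.T7 (avg_coord vl size_log cf abs_eval_le lamI lamzI lamP lamI_nonneg lamzI_nonneg lamI_le lamzI_le lamP_nonneg
  lamP_le ev_L' ev_log' Vz_inv_small cst vl_le' sum_coord pp_sum prod_sub_le)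

variable {k : ℕ}

/-- telescoping for a seminorm -/
theorem teleF (N : ℕ) (x : Fin k → ℕ) (hx : ∀ i, 1 ≤ x i) (P Q : Fin k → ℕ → ℕ → ℝ) (Φ : (ℕ → ℝ) → ℝ) (Λ δ : ℝ) (hΛ : 1 ≤ Λ) (hδ : 0 ≤ δ)
    (hΦ0 : Φ (fun _ => 0) = 0) (hΦa : ∀ g h : ℕ → ℝ, Φ (fun n => g n + h n) ≤ Φ g + Φ h)
    (hΦc : ∀ g h : ℕ → ℝ, (∀ n ∈ Icc 1 N, g n = h n) → Φ g = Φ h)
    (hP : ∀ i, ∀ n ∈ Icc 1 N, ∀ v ∈ Icc 1 (x i), |P i n v| ≤ Λ) (hQ : ∀ i, ∀ n ∈ Icc 1 N, ∀ v ∈ Icc 1 (x i), |Q i n v| ≤ Λ)
    (hone : ∀ i, ∀ K : ℝ, 0 < K → ∀ G : ℕ → ℝ, (∀ n ∈ Icc 1 N, |G n| ≤ K) →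
      ∑ v ∈ Icc 1 (x i), Φ (fun n => G n * (P i n v - Q i n v)) ≤ K * (δ * x i))
    (J : Finset (Fin k)) : ∀ K : ℝ, 0 < K → ∀ G : ℕ → (Fin k → ℕ) → ℝ,
    (∀ n ∈ Icc 1 N, ∀ m ∈ Fintype.piFinset (fun i => Icc 1 (x i)), |G n m| ≤ K) →
    (∀ n m v, ∀ i ∈ J, G n (Function.update m i v) = G n m) →
    ∑ m ∈ Fintype.piFinset (fun i => Icc 1 (x i)), Φ (fun n => G n m * (∏ i ∈ J, P i n (m i) - ∏ i ∈ J, Q i n (m i))) ≤
      J.card * (K * Λ ^ J.card * δ) * ∏ i, (x i : ℝ) := by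
  induction J using Finset.induction_on with
  | empty => intro K _ G _ _; simp [hΦ0]
  | insert i J hi ih =>
    intro K hK G hG hind
    have hx0 : ∀ j, (0 : ℝ) < x j := fun j => by exact_mod_cast hx j
    have hprod : 0 < ∏ j, (x j : ℝ) := prod_pos fun j _ => hx0 j
    rw [card_insert_of_notMem hi]
    -- splitting
    have hsplit : ∀ m ∈ Fintype.piFinset (fun i => Icc 1 (x i)),
        Φ (fun n => G n m * (∏ i ∈ insert i J, P i n (m i) - ∏ i ∈ insert i J, Q i n (m i))) ≤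
        Φ (fun n => (G n m * P i n (m i)) * (∏ i ∈ J, P i n (m i) - ∏ i ∈ J, Q i n (m i))) +
        Φ (fun n => (G n m * ∏ j ∈ J, Q j n (m j)) * (P i n (m i) - Q i n (m i))) := by
      intro m _
      refine le_trans (le_of_eq ?_) (hΦa _ _)
      congr 1
      funext n
      rw [prod_insert hi, prod_insert hi]
      ring
    refine (sum_le_sum hsplit).trans ?_
    rw [sum_add_distrib]
    -- first part
    have h1 := ih (K * Λ) (by positivity) (fun n m => if n ∈ Icc 1 N ∧ m i ∈ Icc 1 (x i) then G n m * P i n (m i) else 0)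
      (by
        intro n hn m hm
        rw [Fintype.mem_piFinset] at hm
        simp only [if_pos (And.intro hn (hm i))]
        rw [abs_mul]
        exact mul_le_mul (hG n hn m (Fintype.mem_piFinset.2 hm)) (hP i n hn _ (hm i)) (abs_nonneg _) hK.le)
      (by
        intro n m v j hj
        have hne : i ≠ j := fun h => hi (h ▸ hj)
        rw [Function.update_of_ne hne]
        rw [hind n m v j (mem_insert_of_mem hj)])
    have h1' : ∑ m ∈ Fintype.piFinset (fun i => Icc 1 (x i)),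
        Φ (fun n => (G n m * P i n (m i)) * (∏ i ∈ J, P i n (m i) - ∏ i ∈ J, Q i n (m i))) ≤
        J.card * (K * Λ * Λ ^ J.card * δ) * ∏ i, (x i : ℝ) := by
      refine le_trans (le_of_eq ?_) h1
      apply sum_congr rfl
      intro m hm
      apply hΦc
      intro n hn
      rw [Fintype.mem_piFinset] at hm
      simp only [if_pos (And.intro hn (hm i))]
    -- second part
    have h2 : ∑ m ∈ Fintype.piFinset (fun i => Icc 1 (x i)),
        Φ (fun n => (G n m * ∏ j ∈ J, Q j n (m j)) * (P i n (m i) - Q i n (m i))) ≤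
        (K * Λ ^ J.card * δ) * ∏ i, (x i : ℝ) := by
      set Ψ : (Fin k → ℕ) → ℝ := fun m => Φ (fun n => (G n m * ∏ j ∈ J, Q j n (m j)) * (P i n (m i) - Q i n (m i))) with hΨ
      have h3 := avg_coord (fun i => Icc 1 (x i)) i Ψ
      have h4 : ((Icc 1 (x i)).card : ℝ) = x i := by simp
      rw [h4] at h3
      have h5 : ∀ m ∈ Fintype.piFinset (fun i => Icc 1 (x i)), ∑ v ∈ Icc 1 (x i), Ψ (Function.update m i v) ≤
          (K * Λ ^ J.card) * (δ * x i) := by
        intro m hm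
        have hm' := Fintype.mem_piFinset.1 hm
        have h6 := hone i (K * Λ ^ J.card) (by positivity) (fun n => G n m * ∏ j ∈ J, Q j n (m j)) (by
          intro n hn
          rw [abs_mul, abs_prod]
          apply mul_le_mul (hG n hn m hm) _ (prod_nonneg fun _ _ => abs_nonneg _) hK.le
          calc ∏ j ∈ J, |Q j n (m j)| ≤ ∏ _j ∈ J, Λ := prod_le_prod (fun _ _ => abs_nonneg _) (fun j _ => hQ j n hn _ (hm' j))
            _ = Λ ^ J.card := by rw [prod_const])
        refine le_trans (le_of_eq ?_) h6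
        apply sum_congr rfl
        intro v _
        rw [hΨ]
        simp only
        congr 1
        funext n
        rw [hind n m v i (mem_insert_self _ _), Function.update_self]
        congr 2
        apply prod_congr rfl
        intro j hj
        have hne : j ≠ i := fun h => hi (h ▸ hj)
        rw [Function.update_of_ne hne]
      have h6 := sum_le_sum h5
      rw [h3, sum_const, nsmul_eq_mul] at h6
      have h7 : ((Fintype.piFinset (fun i => Icc 1 (x i))).card : ℝ) = ∏ i, (x i : ℝ) := by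
        rw [Fintype.card_piFinset]
        push_cast
        apply prod_congr rfl
        intro j _
        simp
      rw [h7] at h6
      have h8 : (x i : ℝ) * ∑ m ∈ Fintype.piFinset (fun i => Icc 1 (x i)), Ψ m ≤ x i * ((K * Λ ^ J.card * δ) * ∏ i, (x i : ℝ)) := by
        refine h6.trans (le_of_eq ?_)
        ring
      exact le_of_mul_le_mul_left h8 (hx0 i)
    refine (add_le_add h1' h2).trans ?_
    have h9 : K * Λ ^ J.card * δ ≤ K * Λ ^ (J.card + 1) * δ := by
      have : Λ ^ J.card ≤ Λ ^ (J.card + 1) := pow_le_pow_right₀ hΛ (by omega)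
      gcongr
    have h10 : K * Λ * Λ ^ J.card * δ = K * Λ ^ (J.card + 1) * δ := by ring
    rw [h10]
    push_cast
    have h11 := mul_le_mul_of_nonneg_right h9 hprod.le
    calc _ ≤ (J.card : ℝ) * (K * Λ ^ (J.card + 1) * δ) * ∏ i, (x i : ℝ) + K * Λ ^ (J.card + 1) * δ * ∏ i, (x i : ℝ) := by
          linarith
      _ = _ := by ring

/-- the seminorm of a family of classes -/
noncomputable def nrm (I : Finset (ℕ × ℕ)) (y : ℕ) (h : ℕ → ℝ) : ℝ := ∑ i ∈ I, |∑ n ∈ cls y i.1 i.2, h n|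

lemma nrm_zero (I : Finset (ℕ × ℕ)) (y : ℕ) : nrm I y (fun _ => 0) = 0 := by
  unfold nrm
  simp

lemma nrm_add (I : Finset (ℕ × ℕ)) (y : ℕ) (g h : ℕ → ℝ) : nrm I y (fun n => g n + h n) ≤ nrm I y g + nrm I y h := by
  unfold nrm
  rw [← sum_add_distrib]
  apply sum_le_sum
  intro i _
  rw [sum_add_distrib]
  exact abs_add_le _ _

lemma nrm_congr (I : Finset (ℕ × ℕ)) (x y : ℕ) (hy : y ≤ x) (g h : ℕ → ℝ) (hgh : ∀ n ∈ Icc 1 x, g n = h n) : nrm I y g = nrm I y h := by
  unfold nrm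
  apply sum_congr rfl
  intro i _
  congr 1
  apply sum_congr rfl
  intro n hn
  unfold cls at hn
  rw [mem_filter, mem_Icc] at hn
  apply hgh
  rw [mem_Icc]
  omega

/-- from a bilinear bound with complex weights to an `L¹` bound -/
lemma l1_fam (A x y : ℕ) (hy : y ≤ x) (I : Finset (ℕ × ℕ)) (D : ℕ → ℕ → ℝ) (δ K : ℝ) (hK : 0 < K)
    (h : ∀ (G : ℕ × ℕ → ℕ → ℂ) (c : ℕ → ℂ), (∀ i a, ‖G i a‖ ≤ 1) → (∀ m, ‖c m‖ ≤ 1) →
      ‖∑ i ∈ I, ∑ a ∈ Icc 1 A, ∑ m ∈ cls y i.1 i.2, G i a * c m * ((D a m : ℝ) : ℂ)‖ ≤ δ)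
    (c : ℕ → ℝ) (hc : ∀ m ∈ Icc 1 x, |c m| ≤ K) :
    ∑ a ∈ Icc 1 A, nrm I y (fun m => c m * D a m) ≤ K * δ := by
  set c' : ℕ → ℂ := fun m => if m ∈ Icc 1 x then ((c m / K : ℝ) : ℂ) else 0 with hc'
  set G : ℕ × ℕ → ℕ → ℂ := fun i a => ((if 0 ≤ ∑ m ∈ cls y i.1 i.2, c m * D a m then (1 : ℝ) else -1 : ℝ) : ℂ) with hG
  have h1 := h G c' (fun i a => by
    rw [hG, Complex.norm_real]
    split_ifs <;> simp) (fun m => by
    rw [hc']
    simp only
    split_ifs with ha
    · rw [Complex.norm_real, Real.norm_eq_abs, abs_div, abs_of_pos hK, div_le_one hK]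
      exact hc m ha
    · simp)
  have h2 : ∑ i ∈ I, ∑ a ∈ Icc 1 A, ∑ m ∈ cls y i.1 i.2, G i a * c' m * ((D a m : ℝ) : ℂ) =
      (((1 / K) * ∑ a ∈ Icc 1 A, nrm I y (fun m => c m * D a m) : ℝ) : ℂ) := by
    unfold nrm
    rw [sum_comm]
    push_cast
    rw [mul_sum]
    apply sum_congr rfl
    intro a _
    rw [mul_sum]
    apply sum_congr rfl
    intro i _
    have h3 : |∑ m ∈ cls y i.1 i.2, c m * D a m| = (if 0 ≤ ∑ m ∈ cls y i.1 i.2, c m * D a m then (1 : ℝ) else -1) *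
        ∑ m ∈ cls y i.1 i.2, c m * D a m := by
      split_ifs with h4
      · rw [one_mul, abs_of_nonneg h4]
      · rw [abs_of_neg (not_le.1 h4)]; ring
    rw [h3]
    push_cast
    rw [mul_sum, mul_sum]
    apply sum_congr rfl
    intro m hm
    have hmx : m ∈ Icc 1 x := by
      unfold cls at hm
      rw [mem_filter, mem_Icc] at hm
      rw [mem_Icc]
      omega
    rw [hG, hc']
    simp only [if_pos hmx]
    push_cast
    ring
  rw [h2, Complex.norm_real, Real.norm_of_nonneg (mul_nonneg (by positivity)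
    (sum_nonneg fun _ _ => by unfold nrm; exact sum_nonneg fun _ _ => abs_nonneg _))] at h1
  rw [one_div, inv_mul_le_iff₀ hK] at h1
  exact h1

/-- the values of the system -/
def va (F : Fin k → ℤ[X]) (a : Fin k → ℕ) (i : Fin k) (n : ℕ) : ℤ := (a i : ℤ) + (F i).eval (n : ℤ)

set_option maxHeartbeats 1000000 in
/-- systems: the difference between the von Mangoldt function and its model in families of classes -/
theorem fam_sys (F : Fin k → ℤ[X]) (hd : ∀ i, 1 ≤ (F i).natDegree) (hl : ∀ i, 0 < (F i).leadingCoeff)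
    (B : ℕ) (hB : 1 ≤ B) (U : ℕ) :
    ∃ B0 D0 : ℕ, ∀ E : ℕ, ∃ N0 : ℕ, ∀ x : ℕ, N0 ≤ x → ∀ A : Fin k → ℕ,
      (∀ i, A i ≤ B * x ^ (F i).natDegree ∧ x ^ (F i).natDegree ≤ B * A i) →
      ∀ z : ℕ, Real.log x ^ B0 ≤ z → (z : ℝ) ≤ Real.log x ^ E →
      ∀ Q ν y : ℕ, 1 ≤ Q → 1 ≤ ν → y ≤ x → Q * Real.log x ^ D0 ≤ x → ∀ I : Finset (ℕ × ℕ), Fam Q ν I →
      ∀ G : ℕ → ℝ, (∀ n ∈ Icc 1 x, |G n| ≤ Real.log x) →
      ∑ a ∈ Fintype.piFinset (fun i => Icc 1 (A i)), nrm I y (fun n => G n *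
        (∏ i, lamI (va F a i n) - ∏ i, lamzI z (va F a i n))) ≤
        ν * x * (∏ i, (A i : ℝ)) / Real.log x ^ U := by
  classical
  set U' : ℕ := U + k + 2 with hU'
  set D : ℕ := univ.sup (fun i => (F i).natDegree) with hD
  have hbl := fun i => fam_lam (F i) (hd i) (hl i) B hB U'
  choose B0 D0 hB0 using hbl
  refine ⟨univ.sup B0 + 1, univ.sup D0 + 1, fun E => ?_⟩
  have hE := fun i => hB0 i (E + 1)
  choose N0 hN0 using hE
  obtain ⟨n1, h1⟩ := size_log D B hB
  set c1 : ℕ := 2 * B * (1 + univ.sup (fun i => cf (F i))) with hc1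
  set C2 : ℝ := (D + 1 : ℝ) ^ (univ.sup B0) + (D + 1 : ℝ) ^ (univ.sup D0) + 2 * 2 ^ E + Real.log c1 + (D + 2) + (k : ℝ) * (D + 2) ^ k * 2 ^ U' with hC2
  obtain ⟨n2, h2⟩ := ev_L' C2
  obtain ⟨n3, h3⟩ := Vz_inv_small E
  refine ⟨max (max (B * univ.sup N0) n1) (max (max n2 n3) 3), fun x hx A hA z hz1 hz2 Q ν y hQ hν hy hQD I hI G hG => ?_⟩
  have b0 := le_trans (le_trans (le_max_left _ _) (le_max_left _ _)) hx
  have b1 := le_trans (le_trans (le_max_right _ _) (le_max_left _ _)) hx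
  have b2 := le_trans (le_trans (le_trans (le_max_left _ _) (le_max_left _ _)) (le_max_right _ _)) hx
  have b3 := le_trans (le_trans (le_trans (le_max_right _ _) (le_max_left _ _)) (le_max_right _ _)) hx
  have hx3 : 3 ≤ x := le_trans (le_trans (le_max_right _ _) (le_max_right _ _)) hx
  have hxr : (3 : ℝ) ≤ x := by exact_mod_cast hx3
  have hx0 : (0 : ℝ) < x := by linarith
  have hL := h2 x b2
  set L := Real.log x with hLd
  have hDr : (0 : ℝ) ≤ D := Nat.cast_nonneg _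
  have hc1n : 1 ≤ c1 := by rw [hc1]; exact Nat.mul_pos (by omega) (by omega)
  have hc1r : (1 : ℝ) ≤ c1 := by exact_mod_cast hc1n
  have hlc1 : 0 ≤ Real.log c1 := Real.log_nonneg hc1r
  have q1 : (1 : ℝ) ≤ (D + 1 : ℝ) ^ (univ.sup B0) := one_le_pow₀ (by linarith)
  have q1' : (1 : ℝ) ≤ (D + 1 : ℝ) ^ (univ.sup D0) := one_le_pow₀ (by linarith)
  have q2 : (1 : ℝ) ≤ 2 ^ E := one_le_pow₀ (by norm_num)
  have q3 : 0 ≤ (k : ℝ) * (D + 2) ^ k * 2 ^ U' := by positivity
  have hL1 : 1 ≤ L := by rw [hC2] at hL; linarith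
  have hL0 : 0 < L := by linarith
  have hLa : (D + 1 : ℝ) ^ (univ.sup B0) ≤ L := by rw [hC2] at hL; linarith
  have hLa' : (D + 1 : ℝ) ^ (univ.sup D0) ≤ L := by rw [hC2] at hL; linarith
  have hLb : 2 * 2 ^ E ≤ L := by rw [hC2] at hL; linarith
  have hLc : Real.log c1 ≤ L := by rw [hC2] at hL; linarith
  have hLd' : (k : ℝ) * (D + 2) ^ k * 2 ^ U' ≤ L := by rw [hC2] at hL; linarith
  have hz : 1 ≤ z := by
    have : (1 : ℝ) ≤ z := (one_le_pow₀ hL1).trans hz1
    exact_mod_cast this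
  have hV := h3 x b3 z hz hz2
  have hdD : ∀ i, (F i).natDegree ≤ D := fun i => le_sup (f := fun i => (F i).natDegree) (mem_univ i)
  have hsz := fun i => h1 x b1 (F i).natDegree (A i) (hd i) (hdD i) (hA i).1 (hA i).2
  have hQ0 : (0 : ℝ) < Q := by exact_mod_cast hQ
  have hν0 : (0 : ℝ) < ν := by exact_mod_cast hν
  have hA1 : ∀ i, 1 ≤ A i := by
    intro i
    rcases Nat.eq_zero_or_pos (A i) with h | h
    · have := (hsz i).2.2
      rw [h, mul_zero] at this
      omega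
    · exact h
  have hAN : ∀ i, N0 i ≤ A i := by
    intro i
    have h4 : B * N0 i ≤ B * A i := by
      calc B * N0 i ≤ B * univ.sup N0 := Nat.mul_le_mul_left _ (le_sup (f := N0) (mem_univ i))
        _ ≤ x := b0
        _ ≤ B * A i := (hsz i).2.2
    exact Nat.le_of_mul_le_mul_left h4 (by omega)
  -- sizes of the values
  have hup : ∀ i, ∀ n ∈ Icc 1 x, ∀ v ∈ Icc 1 (A i), (((v : ℤ) + (F i).eval (n : ℤ) : ℤ) : ℝ) ≤ c1 * (x : ℝ) ^ D := by
    intro i n hn v hv
    rw [mem_Icc] at hn hv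
    have h4 := abs_eval_le (F i) n hn.1
    have h5 : (F i).eval (n : ℤ) ≤ (cf (F i) : ℤ) * (n : ℤ) ^ (F i).natDegree := (le_abs_self _).trans h4
    have h6 : cf (F i) * n ^ (F i).natDegree ≤ univ.sup (fun i => cf (F i)) * x ^ D := by
      apply Nat.mul_le_mul (le_sup (f := fun i => cf (F i)) (mem_univ i))
      exact (Nat.pow_le_pow_left hn.2 _).trans (Nat.pow_le_pow_right (by omega) (hdD i))
    have h7 : v ≤ B * x ^ D := hv.2.trans ((hA i).1.trans (Nat.mul_le_mul_left _ (Nat.pow_le_pow_right (by omega) (hdD i))))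
    have h8 : v + univ.sup (fun i => cf (F i)) * x ^ D ≤ c1 * x ^ D := by
      rw [hc1]
      have h9 : univ.sup (fun i => cf (F i)) ≤ 2 * B * univ.sup (fun i => cf (F i)) := Nat.le_mul_of_pos_left _ (by omega)
      have h10 : 2 * B * (1 + univ.sup (fun i => cf (F i))) * x ^ D = 2 * (B * x ^ D) + 2 * B * univ.sup (fun i => cf (F i)) * x ^ D := by ring
      rw [h10]
      have h11 : univ.sup (fun i => cf (F i)) * x ^ D ≤ 2 * B * univ.sup (fun i => cf (F i)) * x ^ D := Nat.mul_le_mul_right _ h9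
      omega
    have h9 : ((v : ℤ) + (F i).eval (n : ℤ)) ≤ ((c1 * x ^ D : ℕ) : ℤ) := by
      have h10 : ((cf (F i) * n ^ (F i).natDegree : ℕ) : ℤ) ≤ ((univ.sup (fun i => cf (F i)) * x ^ D : ℕ) : ℤ) := by exact_mod_cast h6
      have h11 : ((v + univ.sup (fun i => cf (F i)) * x ^ D : ℕ) : ℤ) ≤ ((c1 * x ^ D : ℕ) : ℤ) := by exact_mod_cast h8
      have h12 : ((cf (F i) * n ^ (F i).natDegree : ℕ) : ℤ) = (cf (F i) : ℤ) * (n : ℤ) ^ (F i).natDegree := by push_cast; ring
      have h13 : ((v + univ.sup (fun i => cf (F i)) * x ^ D : ℕ) : ℤ) = (v : ℤ) + ((univ.sup (fun i => cf (F i)) * x ^ D : ℕ) : ℤ) := by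
        push_cast; ring
      linarith
    have h10 : (((v : ℤ) + (F i).eval (n : ℤ) : ℤ) : ℝ) ≤ (((c1 * x ^ D : ℕ) : ℤ) : ℝ) := by exact_mod_cast h9
    push_cast at h10 ⊢
    exact h10
  have hlogc : Real.log (c1 * (x : ℝ) ^ D) ≤ (D + 2) * L := by
    rw [Real.log_mul (by linarith) (by positivity), Real.log_pow]
    have : (D : ℝ) * Real.log x = D * L := rfl
    rw [this]
    linarith
  have h1c : (1 : ℝ) ≤ c1 * (x : ℝ) ^ D := by
    have h4 : (1 : ℝ) ≤ (x : ℝ) ^ D := one_le_pow₀ (by linarith)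
    nlinarith
  have key := teleF x A hA1 (fun i n v => lamI ((v : ℤ) + (F i).eval (n : ℤ))) (fun i n v => lamzI z ((v : ℤ) + (F i).eval (n : ℤ)))
    (nrm I y) ((D + 2) * L) (ν * x * 2 ^ U' / L ^ U') (by nlinarith) (by positivity) (nrm_zero I y) (nrm_add I y) (nrm_congr I x y hy) (by
      intro i n hn v hv
      rw [abs_of_nonneg (lamI_nonneg _)]
      exact (lamI_le _ _ h1c (hup i n hn v hv)).trans hlogc) (by
      intro i n hn v hv
      rw [abs_of_nonneg (lamzI_nonneg _ _)]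
      refine (lamzI_le z _).trans (hV.trans ?_)
      have h4 : L ≤ (D + 2) * L := by nlinarith
      exact h4) (by
      intro i K hK G hG
      have hlA0 : 0 < Real.log (A i) := by have := (hsz i).1; linarith
      have hzl : Real.log (A i) ^ B0 i ≤ z := by
        refine le_trans ?_ hz1
        calc Real.log (A i) ^ B0 i ≤ ((D + 1) * L) ^ B0 i := pow_le_pow_left₀ hlA0.le (hsz i).2.1 _
          _ ≤ ((D + 1) * L) ^ (univ.sup B0) := by
              apply pow_le_pow_right₀ _ (le_sup (f := B0) (mem_univ i))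
              nlinarith
          _ = (D + 1) ^ (univ.sup B0) * L ^ (univ.sup B0) := mul_pow _ _ _
          _ ≤ L * L ^ (univ.sup B0) := mul_le_mul_of_nonneg_right hLa (by positivity)
          _ = L ^ (univ.sup B0 + 1) := by ring
      have hQl : Q * Real.log (A i) ^ D0 i ≤ x := by
        refine le_trans ?_ hQD
        apply mul_le_mul_of_nonneg_left _ hQ0.le
        calc Real.log (A i) ^ D0 i ≤ ((D + 1) * L) ^ D0 i := pow_le_pow_left₀ hlA0.le (hsz i).2.1 _
          _ ≤ ((D + 1) * L) ^ (univ.sup D0) := by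
              apply pow_le_pow_right₀ _ (le_sup (f := D0) (mem_univ i))
              nlinarith
          _ = (D + 1) ^ (univ.sup D0) * L ^ (univ.sup D0) := mul_pow _ _ _
          _ ≤ L * L ^ (univ.sup D0) := mul_le_mul_of_nonneg_right hLa' (by positivity)
          _ = L ^ (univ.sup D0 + 1) := by ring
      have hzu : (z : ℝ) ≤ Real.log (A i) ^ (E + 1) := by
        refine hz2.trans ?_
        have h5 : L ≤ 2 * Real.log (A i) := by have := (hsz i).1; linarith
        calc L ^ E ≤ (2 * Real.log (A i)) ^ E := pow_le_pow_left₀ hL0.le h5 _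
          _ = 2 ^ E * Real.log (A i) ^ E := mul_pow _ _ _
          _ ≤ Real.log (A i) * Real.log (A i) ^ E := by
              apply mul_le_mul_of_nonneg_right _ (by positivity)
              linarith
          _ = _ := by ring
      have h4 := hN0 i (A i) (hAN i) x (hA i).1 (hA i).2 (A i) (Nat.le_mul_of_pos_left _ (by omega)) z hzl hzu Q ν y hQ hν hy hQl I hI
      have h5 := l1_fam (A i) x y hy I (fun v n => lamI ((v : ℤ) + (F i).eval (n : ℤ)) - lamzI z ((v : ℤ) + (F i).eval (n : ℤ)))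
        (ν * A i * x / Real.log (A i) ^ U') K hK h4 G hG
      refine h5.trans ?_
      apply mul_le_mul_of_nonneg_left _ hK.le
      have h6 : (L / 2) ^ U' ≤ Real.log (A i) ^ U' := pow_le_pow_left₀ (by positivity) (hsz i).1 _
      calc (ν : ℝ) * A i * x / Real.log (A i) ^ U' ≤ ν * A i * x / (L / 2) ^ U' := by
            apply div_le_div_of_nonneg_left (by positivity) (by positivity) h6
        _ = _ := by rw [div_pow]; field_simp)
    univ L hL0 (fun n _ => G n) (by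
      intro n hn m _
      exact hG n hn) (by
      intro n m v i _; rfl)
  refine key.trans ?_
  rw [card_univ, Fintype.card_fin]
  have hprod : 0 ≤ ∏ i, (A i : ℝ) := prod_nonneg fun _ _ => Nat.cast_nonneg _
  calc (k : ℝ) * (L * ((D + 2) * L) ^ k * (ν * x * 2 ^ U' / L ^ U')) * ∏ i, (A i : ℝ)
      = ((k : ℝ) * (D + 2) ^ k * 2 ^ U' / L) * (ν * x * (∏ i, (A i : ℝ)) / L ^ U) := by
        have e : L ^ U' = L ^ U * L ^ k * L * L := by rw [hU', pow_add, pow_add]; ring
        rw [mul_pow, e]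
        field_simp
    _ ≤ 1 * (ν * x * (∏ i, (A i : ℝ)) / L ^ U) := by
        apply mul_le_mul_of_nonneg_right _ (by positivity)
        rw [div_le_one hL0]
        exact hLd'
    _ = _ := one_mul _

end Pool.Agent.H544.LD
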