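import Mathlib
import Pool.Agent.H544.LD.Sys

/-!
From prime powers to primes, on average.
-/

set_option autoImplicit false

namespace Pool.Agent.H544.LD
open Finset Polynomial
open Pool.Agent.H373R2.T7 (avg_coord vl size_log cf abs_eval_le lamI lamzI lamP lamI_nonneg lamzI_nonneg lamI_le lamzI_le lamP_nonneg
  lamP_le ev_L' ev_log' Vz_inv_small cst vl_le' sum_coord pp_sum prod_sub_le)

variable {k : ℕ}

lemma va_eq (F : Fin k → ℤ[X]) (a : Fin k → ℕ) (i : Fin k) (n : ℕ) : va F a i n = vl F (fun _ => 1) a i n := by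
  unfold va vl
  ring

/-- a bound for the values -/
lemma lamI_va_le (F : Fin k → ℤ[X]) (B : ℕ) (hB : 1 ≤ B) :
    ∃ N0 : ℕ, ∀ x : ℕ, N0 ≤ x → ∀ A : Fin k → ℕ, (∀ i, A i ≤ B * x ^ (F i).natDegree) →
      ∀ a ∈ Fintype.piFinset (fun i => Icc 1 (A i)), ∀ n ∈ Icc 1 x, ∀ i,
        lamI (va F a i n) ≤ ((univ.sup (fun i => (F i).natDegree) : ℕ) + 2) * Real.log x := by
  set D : ℕ := univ.sup (fun i => (F i).natDegree) with hD
  set c1 : ℕ := cst F B with hc1
  obtain ⟨n2, h2⟩ := ev_L' (Real.log c1 + 1)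
  refine ⟨max n2 3, fun x hx A hA a ha n hn i => ?_⟩
  have b2 := le_trans (le_max_left _ _) hx
  have hx3 : 3 ≤ x := le_trans (le_max_right _ _) hx
  have hxr : (3 : ℝ) ≤ x := by exact_mod_cast hx3
  have hL := h2 x b2
  set L := Real.log x with hLd
  have hc1n : 1 ≤ c1 := by rw [hc1]; unfold cst; omega
  have hc1r : (1 : ℝ) ≤ c1 := by exact_mod_cast hc1n
  have hlc1 : 0 ≤ Real.log c1 := Real.log_nonneg hc1r
  have hL0 : 0 < L := by linarith
  have hdD : ∀ i, (F i).natDegree ≤ D := fun i => le_sup (f := fun i => (F i).natDegree) (mem_univ i)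
  have hXi1 : 1 ≤ c1 * x ^ (F i).natDegree := Nat.mul_pos (by omega) (Nat.one_le_pow _ _ (by omega))
  rw [Fintype.mem_piFinset] at ha
  have h3 := vl_le' F (fun _ => 1) (fun _ => Or.inl rfl) B x i (A i) (hA i) n (a i) hn (ha i)
  rw [va_eq]
  refine (lamI_le _ ((c1 * x ^ (F i).natDegree : ℕ) : ℝ) (by exact_mod_cast hXi1) ?_).trans ?_
  · unfold vl
    exact_mod_cast h3
  · push_cast
    rw [Real.log_mul (by linarith) (by positivity), Real.log_pow]
    have h3 : ((F i).natDegree : ℝ) * L ≤ D * L := mul_le_mul_of_nonneg_right (by exact_mod_cast hdD i) hL0.le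
    linarith

set_option maxHeartbeats 1000000 in
/-- prime powers at a fixed argument -/
theorem pt_swap (F : Fin k → ℤ[X]) (hd : ∀ i, 1 ≤ (F i).natDegree) (B : ℕ) (hB : 1 ≤ B) (U : ℕ) :
    ∃ N0 : ℕ, ∀ x : ℕ, N0 ≤ x → ∀ A : Fin k → ℕ,
      (∀ i, A i ≤ B * x ^ (F i).natDegree ∧ x ^ (F i).natDegree ≤ B * A i) → ∀ n ∈ Icc 1 x,
      ∑ a ∈ Fintype.piFinset (fun i => Icc 1 (A i)), (∏ i, lamI (va F a i n) - ∏ i, lamP (va F a i n)) ≤
        (∏ i, (A i : ℝ)) / Real.log x ^ U := by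
  classical
  set D : ℕ := univ.sup (fun i => (F i).natDegree) with hD
  set c1 : ℕ := cst F B with hc1
  obtain ⟨n1, h1⟩ := ev_log' (k + U + 2) (2 * √(c1 : ℝ) * (D + 2) ^ (k + 1) * k * B)
  obtain ⟨n2, h2⟩ := ev_L' (Real.log c1 + 1)
  obtain ⟨n3, h3'⟩ := lamI_va_le F B hB
  refine ⟨max (max n1 n2) (max n3 3), fun x hx A hA n hn => ?_⟩
  have b1 := le_trans (le_trans (le_max_left _ _) (le_max_left _ _)) hx
  have b2 := le_trans (le_trans (le_max_right _ _) (le_max_left _ _)) hx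
  have b3 := le_trans (le_trans (le_max_left _ _) (le_max_right _ _)) hx
  have hx3 : 3 ≤ x := le_trans (le_trans (le_max_right _ _) (le_max_right _ _)) hx
  have hxr : (3 : ℝ) ≤ x := by exact_mod_cast hx3
  have hx0 : (0 : ℝ) < x := by linarith
  have a1 := h1 x b1
  have hL := h2 x b2
  have hval := h3' x b3 A (fun i => (hA i).1)
  rw [← hD] at hval
  set L := Real.log x with hLd
  have hc1n : 1 ≤ c1 := by rw [hc1]; unfold cst; omega
  have hc1r : (1 : ℝ) ≤ c1 := by exact_mod_cast hc1n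
  have hlc1 : 0 ≤ Real.log c1 := Real.log_nonneg hc1r
  have hL1 : 1 ≤ L := by linarith
  have hL0 : 0 < L := by linarith
  have hDr : (0 : ℝ) ≤ D := Nat.cast_nonneg _
  have hBr : (1 : ℝ) ≤ B := by exact_mod_cast hB
  have hdD : ∀ i, (F i).natDegree ≤ D := fun i => le_sup (f := fun i => (F i).natDegree) (mem_univ i)
  have hA1 : ∀ i, 1 ≤ A i := by
    intro i
    rcases Nat.eq_zero_or_pos (A i) with h | h
    · have h3 := (hA i).2
      rw [h, mul_zero] at h3
      have : 1 ≤ x ^ (F i).natDegree := Nat.one_le_pow _ _ (by omega)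
      omega
    · exact h
  set M : ℝ := (D + 2) * L with hM
  have hM1 : 1 ≤ M := by rw [hM]; nlinarith
  have hlogX : ∀ i, Real.log ((c1 * x ^ (F i).natDegree : ℕ) : ℝ) ≤ M := by
    intro i
    push_cast
    rw [Real.log_mul (by linarith) (by positivity), Real.log_pow]
    have h3 : ((F i).natDegree : ℝ) * L ≤ D * L := mul_le_mul_of_nonneg_right (by exact_mod_cast hdD i) hL0.le
    rw [hM]
    linarith
  have hXi1 : ∀ i, 1 ≤ c1 * x ^ (F i).natDegree := fun i => Nat.mul_pos (by omega) (Nat.one_le_pow _ _ (by omega))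
  have hstep : ∀ a ∈ Fintype.piFinset (fun i => Icc 1 (A i)), ∏ i, lamI (va F a i n) - ∏ i, lamP (va F a i n) ≤
      M ^ k * ∑ i, (lamI (va F a i n) - lamP (va F a i n)) := by
    intro a ha
    obtain ⟨h3, h4⟩ := prod_sub_le univ (fun i => lamI (va F a i n)) (fun i => lamP (va F a i n)) M hM1
      (fun i _ => lamP_nonneg _) (fun i _ => lamP_le _) (fun i _ => hval a ha n hn i)
    rw [card_univ, Fintype.card_fin] at h4
    exact h4
  refine (sum_le_sum hstep).trans ?_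
  rw [← mul_sum, sum_comm]
  have hi : ∀ i ∈ (univ : Finset (Fin k)), ∑ a ∈ Fintype.piFinset (fun i => Icc 1 (A i)), (lamI (va F a i n) - lamP (va F a i n)) ≤
      (1 / (L * M ^ k * k * L ^ U)) * ∏ i, (A i : ℝ) := by
    intro i _
    have hk0 : (0 : ℝ) < k := by
      have : 0 < k := Fin.pos i
      exact_mod_cast this
    apply sum_coord A hA1 i (fun v => lamI ((v : ℤ) + (F i).eval (n : ℤ)) - lamP ((v : ℤ) + (F i).eval (n : ℤ)))
    have h3 := pp_sum (A i) (c1 * x ^ (F i).natDegree) ((F i).eval (n : ℤ)) (hXi1 i) (fun v hv => by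
      have := vl_le' F (fun _ => 1) (fun _ => Or.inl rfl) B x i (A i) (hA i).1 n v hn hv
      simpa using this)
    refine h3.trans ?_
    rw [one_div, ← div_eq_inv_mul, le_div_iff₀ (by positivity)]
    set t : ℝ := √((x : ℝ) ^ (F i).natDegree) with ht
    have ht0 : 0 ≤ t := Real.sqrt_nonneg _
    have e1 : √(((c1 * x ^ (F i).natDegree : ℕ) : ℝ)) = √(c1 : ℝ) * t := by
      push_cast
      rw [Real.sqrt_mul (by linarith)]
    have e2 : t * t ≤ B * A i := by
      rw [ht, Real.mul_self_sqrt (by positivity)]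
      exact_mod_cast (hA i).2
    have e3 : √(x : ℝ) ≤ t := by
      rw [ht]
      apply Real.sqrt_le_sqrt
      calc (x : ℝ) = x ^ 1 := (pow_one _).symm
        _ ≤ (x : ℝ) ^ (F i).natDegree := pow_le_pow_right₀ (by linarith) (hd i)
    rw [e1]
    have e4 : 2 * (√(c1 : ℝ) * t) * Real.log ((c1 * x ^ (F i).natDegree : ℕ) : ℝ) * (L * M ^ k * k * L ^ U) ≤
        2 * (√(c1 : ℝ) * t) * M * (L * M ^ k * k * L ^ U) := by
      apply mul_le_mul_of_nonneg_right _ (by positivity)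
      exact mul_le_mul_of_nonneg_left (hlogX i) (by positivity)
    refine e4.trans ?_
    have e5 : 2 * (√(c1 : ℝ) * t) * M * (L * M ^ k * k * L ^ U) = t * ((2 * √(c1 : ℝ) * (D + 2) ^ (k + 1) * k * B) * L ^ (k + U + 2)) / B := by
      rw [hM, mul_pow]
      field_simp
      ring
    rw [e5, div_le_iff₀ (by linarith)]
    calc t * ((2 * √(c1 : ℝ) * (D + 2) ^ (k + 1) * k * B) * L ^ (k + U + 2)) ≤ t * t :=
          mul_le_mul_of_nonneg_left (a1.trans e3) ht0
      _ ≤ _ := by linarith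
  have h3 := sum_le_sum hi
  rw [sum_const, card_univ, Fintype.card_fin, nsmul_eq_mul] at h3
  have hprod : 0 ≤ ∏ i, (A i : ℝ) := prod_nonneg fun _ _ => Nat.cast_nonneg _
  rcases Nat.eq_zero_or_pos k with hk | hk
  · subst hk
    simp only [univ_eq_empty, sum_empty, mul_zero]
    positivity
  · have hk0 : (0 : ℝ) < k := by exact_mod_cast hk
    calc M ^ k * ∑ i, ∑ a ∈ Fintype.piFinset (fun i => Icc 1 (A i)), (lamI (va F a i n) - lamP (va F a i n))
        ≤ M ^ k * (k * ((1 / (L * M ^ k * k * L ^ U)) * ∏ i, (A i : ℝ))) :=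
          mul_le_mul_of_nonneg_left h3 (by positivity)
      _ = (∏ i, (A i : ℝ)) / L ^ U / L := by field_simp
      _ ≤ _ := div_le_self (by positivity) hL1

/-- systems: the difference between primes and the model in families of classes -/
theorem fam_sysP (F : Fin k → ℤ[X]) (hd : ∀ i, 1 ≤ (F i).natDegree) (hl : ∀ i, 0 < (F i).leadingCoeff)
    (B : ℕ) (hB : 1 ≤ B) (U : ℕ) :
    ∃ B0 D0 : ℕ, ∀ E : ℕ, ∃ N0 : ℕ, ∀ x : ℕ, N0 ≤ x → ∀ A : Fin k → ℕ,
      (∀ i, A i ≤ B * x ^ (F i).natDegree ∧ x ^ (F i).natDegree ≤ B * A i) →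
      ∀ z : ℕ, Real.log x ^ B0 ≤ z → (z : ℝ) ≤ Real.log x ^ E →
      ∀ Q ν y : ℕ, 1 ≤ Q → 1 ≤ ν → y ≤ x → Q * Real.log x ^ D0 ≤ x → ∀ I : Finset (ℕ × ℕ), Fam Q ν I →
      ∑ a ∈ Fintype.piFinset (fun i => Icc 1 (A i)), nrm I y (fun n => ∏ i, lamP (va F a i n) - ∏ i, lamzI z (va F a i n)) ≤
        ν * x * (∏ i, (A i : ℝ)) / Real.log x ^ U := by
  obtain ⟨B0, D0, hB0⟩ := fam_sys F hd hl B hB (U + 1)
  refine ⟨B0, D0, fun E => ?_⟩
  obtain ⟨n1, h1⟩ := hB0 E
  obtain ⟨n2, h2⟩ := pt_swap F hd B hB (U + 1)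
  obtain ⟨n3, h3⟩ := ev_L' 3
  refine ⟨max (max n1 n2) (max n3 1), fun x hx A hA z hz1 hz2 Q ν y hQ hν hy hQD I hI => ?_⟩
  have b1 := le_trans (le_trans (le_max_left _ _) (le_max_left _ _)) hx
  have b2 := le_trans (le_trans (le_max_right _ _) (le_max_left _ _)) hx
  have b3 := le_trans (le_trans (le_max_left _ _) (le_max_right _ _)) hx
  have hx1 : 1 ≤ x := le_trans (le_trans (le_max_right _ _) (le_max_right _ _)) hx
  have hL := h3 x b3
  set L := Real.log x with hLd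
  have hL0 : 0 < L := by linarith
  have hL1 : 1 ≤ L := by linarith
  have hQ0 : (0 : ℝ) < Q := by exact_mod_cast hQ
  have hx0 : (0 : ℝ) < x := by exact_mod_cast hx1
  have hν0 : (0 : ℝ) < ν := by exact_mod_cast hν
  have hQx : Q ≤ x := by
    have h4 : (Q : ℝ) ≤ Q * L ^ D0 := le_mul_of_one_le_right hQ0.le (one_le_pow₀ hL1)
    exact_mod_cast h4.trans hQD
  have hprod : 0 ≤ ∏ i, (A i : ℝ) := prod_nonneg fun _ _ => Nat.cast_nonneg _
  have k1 := h1 x b1 A hA z hz1 hz2 Q ν y hQ hν hy hQD I hI (fun _ => 1) (fun n _ => by rw [abs_one]; exact hL1)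
  simp only [one_mul] at k1
  have hpt : ∀ a ∈ Fintype.piFinset (fun i => Icc 1 (A i)), nrm I y (fun n => ∏ i, lamP (va F a i n) - ∏ i, lamzI z (va F a i n)) ≤
      nrm I y (fun n => ∏ i, lamI (va F a i n) - ∏ i, lamzI z (va F a i n)) +
        ∑ i ∈ I, ∑ n ∈ cls y i.1 i.2, (∏ i, lamI (va F a i n) - ∏ i, lamP (va F a i n)) := by
    intro a _
    unfold nrm
    rw [← sum_add_distrib]
    apply sum_le_sum
    intro i _
    have hnn : ∀ n, 0 ≤ ∏ i, lamI (va F a i n) - ∏ i, lamP (va F a i n) := by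
      intro n
      rw [sub_nonneg]
      exact prod_le_prod (fun _ _ => lamP_nonneg _) (fun _ _ => lamP_le _)
    have h5 : 0 ≤ ∑ n ∈ cls y i.1 i.2, (∏ i, lamI (va F a i n) - ∏ i, lamP (va F a i n)) := sum_nonneg fun n _ => hnn n
    calc |∑ n ∈ cls y i.1 i.2, (∏ i, lamP (va F a i n) - ∏ i, lamzI z (va F a i n))|
        = |∑ n ∈ cls y i.1 i.2, (∏ i, lamI (va F a i n) - ∏ i, lamzI z (va F a i n)) -
            ∑ n ∈ cls y i.1 i.2, (∏ i, lamI (va F a i n) - ∏ i, lamP (va F a i n))| := by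
          rw [← sum_sub_distrib]
          congr 1
          apply sum_congr rfl
          intro n _
          ring
      _ ≤ _ := abs_sub _ _
      _ = _ := by rw [abs_of_nonneg h5]
  refine (sum_le_sum hpt).trans ?_
  rw [sum_add_distrib]
  have k2 : ∑ a ∈ Fintype.piFinset (fun i => Icc 1 (A i)), ∑ i ∈ I, ∑ n ∈ cls y i.1 i.2,
      (∏ i, lamI (va F a i n) - ∏ i, lamP (va F a i n)) ≤ 2 * (ν * x * (∏ i, (A i : ℝ)) / L ^ (U + 1)) := by
    rw [sum_comm]
    have h4 : ∀ i ∈ I, ∑ a ∈ Fintype.piFinset (fun i => Icc 1 (A i)), ∑ n ∈ cls y i.1 i.2,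
        (∏ i, lamI (va F a i n) - ∏ i, lamP (va F a i n)) ≤ (2 * x / Q) * ((∏ i, (A i : ℝ)) / L ^ (U + 1)) := by
      intro i hi
      rw [sum_comm]
      have h5 : ∀ n ∈ cls y i.1 i.2, ∑ a ∈ Fintype.piFinset (fun i => Icc 1 (A i)),
          (∏ i, lamI (va F a i n) - ∏ i, lamP (va F a i n)) ≤ (∏ i, (A i : ℝ)) / L ^ (U + 1) := by
        intro n hn
        apply h2 x b2 A hA n
        unfold cls at hn
        rw [mem_filter, mem_Icc] at hn
        rw [mem_Icc]
        omega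
      refine (sum_le_sum h5).trans ?_
      rw [sum_const, nsmul_eq_mul]
      obtain ⟨c1, _, c3⟩ := hI.1 i hi
      exact mul_le_mul_of_nonneg_right (card_cls x y i.1 i.2 Q hQ hQx hy c1 c3) (by positivity)
    refine (sum_le_sum h4).trans ?_
    rw [sum_const, nsmul_eq_mul]
    have hcardI : (#I : ℝ) ≤ ν * Q := by exact_mod_cast hI.card_le
    calc (#I : ℝ) * ((2 * x / Q) * ((∏ i, (A i : ℝ)) / L ^ (U + 1))) ≤ (ν * Q) * ((2 * x / Q) * ((∏ i, (A i : ℝ)) / L ^ (U + 1))) :=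
          mul_le_mul_of_nonneg_right hcardI (by positivity)
      _ = _ := by field_simp
  calc _ ≤ ν * x * (∏ i, (A i : ℝ)) / L ^ (U + 1) + 2 * (ν * x * (∏ i, (A i : ℝ)) / L ^ (U + 1)) := add_le_add k1 k2
    _ = (3 / L) * (ν * x * (∏ i, (A i : ℝ)) / L ^ U) := by rw [pow_succ]; field_simp; ring
    _ ≤ 1 * (ν * x * (∏ i, (A i : ℝ)) / L ^ U) := by
        apply mul_le_mul_of_nonneg_right _ (by positivity)
        rw [div_le_one hL0]
        exact hL
    _ = _ := one_mul _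

end Pool.Agent.H544.LD
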