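import Mathlib
import Pool.Agent.H544.LD.Swap
import Pool.Agent.H544.LD.Loc

/-!
The main term in residue classes.
-/

set_option autoImplicit false

namespace Pool.Agent.H544.LD
open Finset Polynomial
open Pool.Agent.H373R2.T7 (pz Vz mem_pz Vz_pos Vz_le_one lamI lamzI lamP lamI_nonneg lamzI_nonneg lamP_nonneg lamP_le ev_L' ev_log'
  Vz_inv_small lamz lamz_nonneg)

variable {k : ℕ}

/-- the product of the polynomials of the system -/
noncomputable def Hp (F : Fin k → ℤ[X]) (a : Fin k → ℕ) : ℤ[X] := ∏ i, (C (a i : ℤ) + F i)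

lemma Hp_eval (F : Fin k → ℤ[X]) (a : Fin k → ℕ) (n : ℤ) : (Hp F a).eval n = ∏ i, ((a i : ℤ) + (F i).eval n) := by
  unfold Hp
  rw [eval_prod]
  apply prod_congr rfl
  intro i _
  rw [eval_add, eval_C]

lemma Hp_va (F : Fin k → ℤ[X]) (a : Fin k → ℕ) (n : ℕ) : (Hp F a).eval (n : ℤ) = ∏ i, va F a i n := Hp_eval F a n

lemma Hp_deg (F : Fin k → ℤ[X]) (a : Fin k → ℕ) : (Hp F a).natDegree ≤ ∑ i, (F i).natDegree := by
  unfold Hp
  refine (natDegree_prod_le _ _).trans (sum_le_sum fun i _ => ?_)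
  refine (natDegree_add_le _ _).trans ?_
  simp

/-- the constant, cut at `z` -/
noncomputable def Cz (F : Fin k → ℤ[X]) (a : Fin k → ℕ) (z : ℕ) : ℝ :=
  ∏ p ∈ pz z, (1 - (om (Hp F a) p : ℝ) / p) / (1 - 1 / (p : ℝ)) ^ k

/-- the weighted number of prime tuples in a class -/
noncomputable def th (F : Fin k → ℤ[X]) (a : Fin k → ℕ) (y q r : ℕ) : ℝ := ∑ n ∈ cls y q r, ∏ i, lamP (va F a i n)

/-- the expected density in a class -/
noncomputable def mu (F : Fin k → ℤ[X]) (a : Fin k → ℕ) (z q r : ℕ) : ℝ :=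
  if Int.gcd ((Hp F a).eval (r : ℤ)) q = 1 then Cz F a z / rho (Hp F a) q else 0

lemma Cz_eq (F : Fin k → ℤ[X]) (a : Fin k → ℕ) (z : ℕ) :
    Cz F a z = (Vz z)⁻¹ ^ k * ∏ p ∈ pz z, (1 - (om (Hp F a) p : ℝ) / p) := by
  unfold Cz Vz
  rw [prod_div_distrib, prod_pow, inv_pow]
  field_simp

lemma pos_values (F : Fin k → ℤ[X]) (hl : ∀ i, 0 < (F i).leadingCoeff) : ∃ n0 : ℕ, ∀ n : ℕ, n0 ≤ n → ∀ i, 0 ≤ (F i).eval (n : ℤ) := by
  have h1 : ∀ i, ∃ n0 : ℕ, ∀ n : ℕ, n0 ≤ n → 0 ≤ (F i).eval (n : ℤ) := by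
    intro i
    by_cases hd : (F i).natDegree = 0
    · refine ⟨0, fun n _ => ?_⟩
      rw [eq_C_of_natDegree_eq_zero hd, eval_C]
      have := hl i
      rw [leadingCoeff, hd] at this
      exact this.le
    · set f : ℝ[X] := (F i).map (Int.castRingHom ℝ) with hf
      have hinj : Function.Injective (Int.castRingHom ℝ) := Int.cast_injective
      have hfd : 0 < f.degree := by
        rw [hf, degree_map_eq_of_injective hinj, ← natDegree_pos_iff_degree_pos]
        omega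
      have hfl : 0 ≤ f.leadingCoeff := by
        rw [hf, leadingCoeff_map_of_injective hinj]
        have := (hl i).le
        simpa using (by exact_mod_cast this : (0 : ℝ) ≤ ((F i).leadingCoeff : ℝ))
      have h2 := f.tendsto_atTop_of_leadingCoeff_nonneg hfd hfl
      have h3 := (h2.comp (tendsto_natCast_atTop_atTop (R := ℝ))).eventually_ge_atTop 0
      rw [Filter.eventually_atTop] at h3
      obtain ⟨n0, hn0⟩ := h3
      refine ⟨n0, fun n hn => ?_⟩
      have h4 := hn0 n hn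
      simp only [Function.comp] at h4
      have h5 : f.eval (n : ℝ) = (((F i).eval (n : ℤ) : ℤ) : ℝ) := by
        rw [hf]
        have := Polynomial.eval_intCast_map (Int.castRingHom ℝ) (F i) (n : ℤ)
        simpa using this
      rw [h5] at h4
      exact_mod_cast h4
  choose n0 hn0 using h1
  refine ⟨univ.sup n0, fun n hn i => hn0 i n ((le_sup (f := n0) (mem_univ i)).trans hn)⟩

lemma prod_lamz (F : Fin k → ℤ[X]) (a : Fin k → ℕ) (z n : ℕ) (h : ∀ i, 1 ≤ va F a i n) :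
    ∏ i, lamzI z (va F a i n) = if (∀ p ∈ pz z, ¬ (p : ℤ) ∣ (Hp F a).eval (n : ℤ)) then (Vz z)⁻¹ ^ k else 0 := by
  have h1 : ∀ i, lamzI z (va F a i n) = if (∀ p ∈ pz z, ¬ (p : ℤ) ∣ va F a i n) then (Vz z)⁻¹ else 0 := by
    intro i
    unfold lamzI lamz
    rw [if_pos (h i)]
    have h2 : (∀ p ∈ pz z, ¬ p ∣ (va F a i n).toNat) ↔ (∀ p ∈ pz z, ¬ (p : ℤ) ∣ va F a i n) := by
      apply forall₂_congr
      intro p _
      rw [← Int.natCast_dvd_natCast, Int.toNat_of_nonneg (by have := h i; omega)]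
    by_cases h3 : ∀ p ∈ pz z, ¬ (p : ℤ) ∣ va F a i n
    · rw [if_pos h3, if_pos (h2.2 h3)]
    · rw [if_neg h3, if_neg (fun h4 => h3 (h2.1 h4))]
  have h2 : (∀ p ∈ pz z, ¬ (p : ℤ) ∣ (Hp F a).eval (n : ℤ)) ↔ ∀ i, ∀ p ∈ pz z, ¬ (p : ℤ) ∣ va F a i n := by
    rw [Hp_va]
    constructor
    · intro h3 i p hp hd
      exact h3 p hp (hd.trans (dvd_prod_of_mem _ (mem_univ i)))
    · intro h3 p hp hd
      have hpp : Prime (p : ℤ) := Nat.prime_iff_prime_int.1 (mem_pz.1 hp).2
      obtain ⟨i, _, hi⟩ := (hpp.dvd_finsetProd_iff _).1 hd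
      exact h3 i p hp hi
  by_cases h3 : ∀ p ∈ pz z, ¬ (p : ℤ) ∣ (Hp F a).eval (n : ℤ)
  · rw [if_pos h3, prod_congr rfl (fun i _ => (h1 i).trans (if_pos (h2.1 h3 i))), prod_const, card_univ, Fintype.card_fin]
  · rw [if_neg h3]
    have h4 : ¬ ∀ i, ∀ p ∈ pz z, ¬ (p : ℤ) ∣ va F a i n := fun h5 => h3 (h2.2 h5)
    push Not at h4
    obtain ⟨i, p, hp, hpd⟩ := h4
    apply prod_eq_zero (mem_univ i)
    rw [h1 i, if_neg]
    intro h5
    exact h5 p hp hpd

/-- the number of prime factors -/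
lemma num_pf (q x : ℕ) (hq : 1 ≤ q) (hqx : q ≤ x) (hx : 3 ≤ x) : (#(q.primeFactors) : ℝ) ≤ 2 * Real.log x := by
  have h1 : 2 ^ #(q.primeFactors) ≤ q := by
    calc 2 ^ #(q.primeFactors) = ∏ _p ∈ q.primeFactors, 2 := by rw [prod_const]
      _ ≤ ∏ p ∈ q.primeFactors, p := prod_le_prod' fun p hp => (Nat.prime_of_mem_primeFactors hp).two_le
      _ ≤ q := Nat.le_of_dvd (by omega) (Nat.prod_primeFactors_dvd q)
  have h2 : (2 : ℝ) ^ #(q.primeFactors) ≤ x := by exact_mod_cast h1.trans hqx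
  have h3 := Real.log_le_log (by positivity) h2
  rw [Real.log_pow] at h3
  have := Real.log_two_gt_d9
  have h4 : (0 : ℝ) ≤ #(q.primeFactors) := Nat.cast_nonneg _
  nlinarith

lemma prod_ge (S : Finset ℕ) (f : ℕ → ℝ) (ε : ℝ) (hε1 : ε ≤ 1) (h : ∀ p ∈ S, 1 - ε ≤ f p) (h0 : ∀ p ∈ S, 0 ≤ f p)
    (hf1 : ∀ p ∈ S, f p ≤ 1) : 1 - #S * ε ≤ ∏ p ∈ S, f p := by
  induction S using Finset.induction_on with
  | empty => simp
  | insert a S ha ih =>
    rw [prod_insert ha, card_insert_of_notMem ha]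
    have h1 := ih (fun p hp => h p (mem_insert_of_mem hp)) (fun p hp => h0 p (mem_insert_of_mem hp)) (fun p hp => hf1 p (mem_insert_of_mem hp))
    have h2 := h a (mem_insert_self _ _)
    have h3 : ∏ p ∈ S, f p ≤ 1 := prod_le_one (fun p hp => h0 p (mem_insert_of_mem hp)) (fun p hp => hf1 p (mem_insert_of_mem hp))
    have h4 : 0 ≤ ∏ p ∈ S, f p := prod_nonneg (fun p hp => h0 p (mem_insert_of_mem hp))
    have h5 : (1 - ε) * ∏ p ∈ S, f p ≤ f a * ∏ p ∈ S, f p := mul_le_mul_of_nonneg_right h2 h4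
    have h6 := hf1 a (mem_insert_self _ _)
    rcases le_or_gt 0 ε with hε | hε
    · push_cast
      nlinarith
    · push_cast
      nlinarith

/-- the comparison of the two densities -/
lemma mu_cmp (F : Fin k → ℤ[X]) (a : Fin k → ℕ) (z q r x : ℕ) (hq : 1 ≤ q) (hqx : q ≤ x) (hx : 3 ≤ x) (hz : 1 ≤ z)
    (hg : Int.gcd ((Hp F a).eval (r : ℤ)) q = 1)
    (hzL : 4 * ((∑ i, (F i).natDegree : ℕ) : ℝ) * Real.log x ≤ z) :
    |mu F a z q r - (Vz z)⁻¹ ^ k * (Gz (Hp F a) z q / q)| ≤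
      (Vz z)⁻¹ ^ k * (4 * ((∑ i, (F i).natDegree : ℕ) : ℝ) * Real.log x / z) / q ∧ 0 ≤ mu F a z q r ∧
      mu F a z q r ≤ 2 * (Vz z)⁻¹ ^ k / q := by
  set H := Hp F a with hH
  set κ : ℕ := ∑ i, (F i).natDegree with hκ
  have hqr : (0 : ℝ) < q := by exact_mod_cast hq
  have hzr : (0 : ℝ) < z := by exact_mod_cast hz
  have hV : 0 < (Vz z)⁻¹ ^ k := by have := Vz_pos z; positivity
  have hgp := (gcd_iff q hq _).1 hg
  set S1 := q.primeFactors.filter (fun p => p ≤ z) with hS1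
  set S2 := q.primeFactors.filter (fun p => ¬ p ≤ z) with hS2
  set T1 := ∏ p ∈ S1, (1 - (om H p : ℝ) / p) with hT1
  set T2 := ∏ p ∈ S2, (1 - (om H p : ℝ) / p) with hT2
  have hrho : (rho H q : ℝ) = q * (T1 * T2) := by
    rw [rho_eq H q hq, hT1, hT2, prod_filter_mul_prod_filter_not]
  have hCz : Cz F a z = (Vz z)⁻¹ ^ k * (T1 * Gz H z q) := by
    rw [Cz_eq, ← hH]
    congr 1
    unfold Gz
    rw [← prod_filter_mul_prod_filter_not (pz z) (fun p => p ∣ q)]
    congr 1
    rw [hT1]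
    apply prod_congr _ fun _ _ => rfl
    ext p
    rw [hS1, mem_filter, mem_filter, mem_pz, Nat.mem_primeFactors]
    constructor
    · rintro ⟨⟨h1, h2⟩, h3⟩
      exact ⟨⟨h2, h3, by omega⟩, h1⟩
    · rintro ⟨⟨h2, h3, _⟩, h1⟩
      exact ⟨⟨h1, h2⟩, h3⟩
  have hfpos : ∀ p ∈ q.primeFactors, 0 < 1 - (om H p : ℝ) / p := by
    intro p hp
    have hpp := Nat.prime_of_mem_primeFactors hp
    rw [sub_pos, div_lt_one (by exact_mod_cast hpp.pos)]
    exact_mod_cast om_lt H p hpp _ (hgp p hp)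
  have hT1p : 0 < T1 := prod_pos fun p hp => hfpos p (mem_filter.1 hp).1
  have hT2p : 0 < T2 := prod_pos fun p hp => hfpos p (mem_filter.1 hp).1
  have hT21 : T2 ≤ 1 := prod_le_one (fun p _ => fac_nn H p) (fun p _ => fac_le_one H p)
  have hκr : (0 : ℝ) ≤ κ := Nat.cast_nonneg _
  have hL0 : 0 ≤ Real.log x := Real.log_natCast_nonneg x
  set η : ℝ := κ * (2 * Real.log x) / z with hη
  have hη2 : η ≤ 1 / 2 := by
    rw [hη, div_le_iff₀ hzr]
    linarith
  have hη0 : 0 ≤ η := by positivity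
  have hT2low : 1 - η ≤ T2 := by
    rcases S2.eq_empty_or_nonempty with hem | hne
    · rw [hT2, hem, prod_empty]; linarith
    have hκz : (κ : ℝ) / z ≤ 1 := by
      rw [div_le_one hzr]
      have h1 : (1 : ℝ) ≤ Real.log x := by
        rw [Real.le_log_iff_exp_le (by positivity)]
        have := Real.exp_one_lt_d9
        have h3 : (3 : ℝ) ≤ x := by exact_mod_cast hx
        linarith
      nlinarith
    have h1 := prod_ge S2 (fun p => 1 - (om H p : ℝ) / p) (κ / z) hκz (by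
      intro p hp
      rw [hS2, mem_filter] at hp
      have hpp := Nat.prime_of_mem_primeFactors hp.1
      have h2 : om H p ≤ κ := by
        rcases om_le H p hpp with h | h
        · exact absurd (h _) (hgp p hp.1)
        · exact h.trans (Hp_deg F a)
      have h3 : (om H p : ℝ) / p ≤ κ / z := by
        apply div_le_div₀ hκr (by exact_mod_cast h2) hzr
        exact_mod_cast (by omega : z ≤ p)
      linarith) (fun p _ => fac_nn H p) (fun p _ => fac_le_one H p)
    refine le_trans ?_ h1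
    have h2 : (#S2 : ℝ) ≤ 2 * Real.log x := by
      refine le_trans ?_ (num_pf q x hq hqx hx)
      exact_mod_cast card_le_card (filter_subset _ _)
    have h3 : (#S2 : ℝ) * (κ / z) ≤ (2 * Real.log x) * (κ / z) := mul_le_mul_of_nonneg_right h2 (by positivity)
    have h4 : (2 * Real.log x) * ((κ : ℝ) / z) = η := by rw [hη]; ring
    linarith
  have hT2h : 1 / 2 ≤ T2 := by linarith
  have hinv : 1 / T2 - 1 ≤ 2 * η := by
    rw [sub_le_iff_le_add, div_le_iff₀ hT2p]
    nlinarith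
  have hinv0 : 0 ≤ 1 / T2 - 1 := by
    rw [sub_nonneg, le_div_iff₀ hT2p]; linarith
  have hmu : mu F a z q r = (Vz z)⁻¹ ^ k * (Gz H z q / q) * (1 / T2) := by
    unfold mu
    rw [← hH, if_pos hg, hCz, hrho]
    field_simp
  have hG0 := Gz_nonneg H z q
  have hG1 := Gz_le_one H z q
  have hGq : Gz H z q / q ≤ 1 / q := div_le_div_of_nonneg_right hG1 hqr.le
  have hGq0 : 0 ≤ Gz H z q / q := by positivity
  rw [hmu]
  refine ⟨?_, by positivity, ?_⟩
  · have e1 : (Vz z)⁻¹ ^ k * (Gz H z q / q) * (1 / T2) - (Vz z)⁻¹ ^ k * (Gz H z q / q) =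
        (Vz z)⁻¹ ^ k * ((Gz H z q / q) * (1 / T2 - 1)) := by ring
    rw [e1, abs_of_nonneg (by positivity)]
    calc (Vz z)⁻¹ ^ k * ((Gz H z q / q) * (1 / T2 - 1)) ≤ (Vz z)⁻¹ ^ k * ((1 / q) * (2 * η)) := by gcongr
      _ = _ := by rw [hη]; ring
  · have h5 : 1 / T2 ≤ 2 := by
      rw [div_le_iff₀ hT2p]; linarith
    calc (Vz z)⁻¹ ^ k * (Gz H z q / q) * (1 / T2) ≤ (Vz z)⁻¹ ^ k * (1 / q) * 2 := by gcongr
      _ = _ := by ring

/-- the model in a class -/
theorem model_cls (F : Fin k → ℤ[X]) (hl : ∀ i, 0 < (F i).leadingCoeff) :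
    ∃ C1 z0 n0 : ℕ, 1 ≤ C1 ∧ 2 ≤ z0 ∧ ∀ b : ℕ, C1 ≤ b → ∀ z : ℕ, z0 ≤ z →
    ∀ (a : Fin k → ℕ) (q r y : ℕ), (∀ i, 1 ≤ a i) → 1 ≤ q → r < q → Int.gcd ((Hp F a).eval (r : ℤ)) q = 1 →
    |∑ n ∈ cls y q r, ∏ i, lamzI z (va F a i n) - (Vz z)⁻¹ ^ k * (Gz (Hp F a) z q / q) * y| ≤
      (Vz z)⁻¹ ^ k * ((1 / 2 : ℝ) ^ b * ((y : ℝ) / q) + (z : ℝ) ^ (C1 * b) + n0) := by
  obtain ⟨C1, z0, hC1, hz0, hfl⟩ := flcS (∑ i, (F i).natDegree)
  obtain ⟨n0, hn0⟩ := pos_values F hl
  refine ⟨C1, z0, n0, hC1, hz0, fun b hb z hz a q r y ha hq hr hg => ?_⟩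
  have h1 := hfl b hb z hz (Hp F a) q r y (Hp_deg F a) hq hr hg
  have hV : 0 < (Vz z)⁻¹ ^ k := by have := Vz_pos z; positivity
  set V := (Vz z)⁻¹ ^ k with hVd
  have h2 : |∑ n ∈ cls y q r, ∏ i, lamzI z (va F a i n) -
      V * #((cls y q r).filter (fun n : ℕ => ∀ p ∈ pz z, ¬ (p : ℤ) ∣ (Hp F a).eval (n : ℤ)))| ≤ V * n0 := by
    have e1 : V * (#((cls y q r).filter (fun n : ℕ => ∀ p ∈ pz z, ¬ (p : ℤ) ∣ (Hp F a).eval (n : ℤ))) : ℝ) =
        ∑ n ∈ cls y q r, if (∀ p ∈ pz z, ¬ (p : ℤ) ∣ (Hp F a).eval (n : ℤ)) then V else 0 := by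
      rw [← sum_filter, sum_const, nsmul_eq_mul, mul_comm]
    rw [e1, ← sum_sub_distrib]
    have h3 : ∀ n ∈ cls y q r, |∏ i, lamzI z (va F a i n) - (if (∀ p ∈ pz z, ¬ (p : ℤ) ∣ (Hp F a).eval (n : ℤ)) then V else 0)| ≤
        if n < n0 then V else 0 := by
      intro n _
      by_cases hn : n < n0
      · rw [if_pos hn]
        have h4 : 0 ≤ ∏ i, lamzI z (va F a i n) := prod_nonneg fun _ _ => lamzI_nonneg _ _
        have h5 : ∏ i, lamzI z (va F a i n) ≤ V := by
          rw [hVd]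
          calc ∏ i, lamzI z (va F a i n) ≤ ∏ _i : Fin k, (Vz z)⁻¹ := by
                apply prod_le_prod (fun _ _ => lamzI_nonneg _ _)
                intro i _
                have hV0 : 0 ≤ (Vz z)⁻¹ := by have := Vz_pos z; positivity
                unfold lamzI lamz
                split_ifs
                · exact le_rfl
                · exact hV0
                · exact hV0
            _ = _ := by rw [prod_const, card_univ, Fintype.card_fin]
        have h6 : 0 ≤ (if (∀ p ∈ pz z, ¬ (p : ℤ) ∣ (Hp F a).eval (n : ℤ)) then V else 0) := by split_ifs <;> linarith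
        have h7 : (if (∀ p ∈ pz z, ¬ (p : ℤ) ∣ (Hp F a).eval (n : ℤ)) then V else 0) ≤ V := by split_ifs <;> linarith
        rw [abs_le]
        constructor <;> linarith
      · rw [if_neg hn]
        have h4 : ∀ i, 1 ≤ va F a i n := by
          intro i
          unfold va
          have h5 := hn0 n (by omega) i
          have h6 := ha i
          omega
        rw [prod_lamz F a z n h4, sub_self, abs_zero]
    refine (abs_sum_le_sum_abs _ _).trans ((sum_le_sum h3).trans ?_)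
    rw [← sum_filter, sum_const, nsmul_eq_mul, mul_comm]
    apply mul_le_mul_of_nonneg_left _ hV.le
    have h4 : (cls y q r).filter (fun n => n < n0) ⊆ range n0 := by
      intro n hn
      rw [mem_filter] at hn
      exact mem_range.2 hn.2
    have h5 := card_le_card h4
    rw [card_range] at h5
    exact_mod_cast h5
  have e2 : ∑ n ∈ cls y q r, ∏ i, lamzI z (va F a i n) - V * (Gz (Hp F a) z q / q) * y =
      (∑ n ∈ cls y q r, ∏ i, lamzI z (va F a i n) -
        V * #((cls y q r).filter (fun n : ℕ => ∀ p ∈ pz z, ¬ (p : ℤ) ∣ (Hp F a).eval (n : ℤ)))) +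
      V * (#((cls y q r).filter (fun n : ℕ => ∀ p ∈ pz z, ¬ (p : ℤ) ∣ (Hp F a).eval (n : ℤ))) - (y : ℝ) / q * Gz (Hp F a) z q) := by ring
  rw [e2]
  refine (abs_add_le _ _).trans ?_
  rw [abs_mul, abs_of_pos hV]
  have h3 := mul_le_mul_of_nonneg_left h1 hV.le
  linarith

/-- classes which are not coprime to their modulus contain few prime tuples -/
lemma th_bad (F : Fin k → ℤ[X]) (hd : ∀ i, 1 ≤ (F i).natDegree) (a : Fin k → ℕ) (q r y : ℕ) (hq : 1 ≤ q) (Λ : ℝ) (hΛ : 1 ≤ Λ)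
    (hval : ∀ n ∈ Icc 1 y, ∀ i, lamP (va F a i n) ≤ Λ)
    (hg : ¬ Int.gcd ((Hp F a).eval (r : ℤ)) q = 1) :
    th F a y q r ≤ (univ.sup (fun i => (F i).natDegree) : ℕ) * Λ ^ k := by
  classical
  rw [gcd_iff q hq] at hg
  push Not at hg
  obtain ⟨p, hp, hpd⟩ := hg
  have hpp := Nat.prime_of_mem_primeFactors hp
  have hpq := Nat.dvd_of_mem_primeFactors hp
  rw [Hp_va] at hpd
  obtain ⟨i, _, hi⟩ := ((Nat.prime_iff_prime_int.1 hpp).dvd_finsetProd_iff _).1 hpd
  have hpn : ∀ n ∈ cls y q r, (p : ℤ) ∣ va F a i n := by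
    intro n hn
    unfold cls at hn
    rw [mem_filter] at hn
    have h1 : (p : ℤ) ∣ (C (a i : ℤ) + F i).eval (r : ℤ) := by
      rw [eval_add, eval_C]
      exact hi
    have h2 : (p : ℤ) ∣ (C (a i : ℤ) + F i).eval (n : ℤ) := by
      rw [dvd_eval_iff _ (p : ℤ) (n : ℤ) (r : ℤ)]
      · exact h1
      · have h7 : (q : ℤ) ∣ (n : ℤ) - (r : ℤ) := by
          rw [← hn.2]
          push_cast
          exact Int.dvd_self_sub_emod
        exact (by exact_mod_cast hpq : (p : ℤ) ∣ q).trans h7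
    rw [eval_add, eval_C] at h2
    exact h2
  set S := (cls y q r).filter (fun n : ℕ => va F a i n = p) with hS
  have h1 : th F a y q r ≤ ∑ n ∈ S, Λ ^ k := by
    unfold th
    rw [hS, sum_filter]
    apply sum_le_sum
    intro n hn
    have hn1 : n ∈ Icc 1 y := (mem_filter.1 hn).1
    split_ifs with h
    · calc ∏ i, lamP (va F a i n) ≤ ∏ _i : Fin k, Λ := prod_le_prod (fun _ _ => lamP_nonneg _) (fun i _ => hval n hn1 i)
        _ = Λ ^ k := by rw [prod_const, card_univ, Fintype.card_fin]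
    · apply le_of_eq
      apply prod_eq_zero (mem_univ i)
      unfold lamP
      rw [if_neg]
      intro hprime
      apply h
      have h2 : p ∣ (va F a i n).toNat := by
        have h3 := hpn n hn
        have h4 : 0 ≤ va F a i n := by
          have := hprime.pos
          omega
        rw [← Int.natCast_dvd_natCast, Int.toNat_of_nonneg h4]
        exact h3
      have h3 := (Nat.prime_dvd_prime_iff_eq hpp hprime).1 h2
      have h4 : 0 < (va F a i n).toNat := hprime.pos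
      omega
  have h2 : #S ≤ (F i).natDegree := by
    set g : ℤ[X] := C (a i : ℤ) + F i - C (p : ℤ) with hg
    have hgd : g.natDegree = (F i).natDegree := by
      have : g = F i + C ((a i : ℤ) - p) := by
        rw [hg, C_sub]; ring
      rw [this, natDegree_add_C]
    have hg0 : g ≠ 0 := by
      intro h
      rw [h, natDegree_zero] at hgd
      have := hd i
      omega
    have h3 : #S ≤ #(g.roots.toFinset) := by
      refine card_le_card_of_injOn (fun n : ℕ => (n : ℤ)) ?_ ?_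
      · intro n hn
        rw [mem_coe, hS, mem_filter] at hn
        rw [mem_coe, Multiset.mem_toFinset, mem_roots hg0, IsRoot.def, hg, eval_sub, eval_add, eval_C, eval_C]
        have := hn.2
        unfold va at this
        linarith
      · intro n _ n' _ h
        exact Int.ofNat.inj h
    refine h3.trans ((Multiset.toFinset_card_le _).trans ((card_roots' g).trans ?_))
    rw [hgd]
  refine h1.trans ?_
  rw [sum_const, nsmul_eq_mul]
  apply mul_le_mul_of_nonneg_right _ (by positivity)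
  exact_mod_cast h2.trans (le_sup (f := fun i => (F i).natDegree) (mem_univ i))

lemma th_mono (F : Fin k → ℤ[X]) (a : Fin k → ℕ) (y y' q r : ℕ) (h : y ≤ y') : th F a y q r ≤ th F a y' q r := by
  unfold th
  apply sum_le_sum_of_subset_of_nonneg
  · unfold cls
    apply filter_subset_filter
    exact Icc_subset_Icc le_rfl h
  · intro _ _ _
    exact prod_nonneg fun _ _ => lamP_nonneg _

lemma th_nonneg (F : Fin k → ℤ[X]) (a : Fin k → ℕ) (y q r : ℕ) : 0 ≤ th F a y q r := by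
  unfold th
  exact sum_nonneg fun _ _ => prod_nonneg fun _ _ => lamP_nonneg _

/-- from the points of a grid to all points -/
lemma grid (θ : ℕ → ℝ) (hθ : ∀ y y', y ≤ y' → θ y ≤ θ y') (M G y : ℕ) (μ : ℝ) (hM : 1 ≤ M) (hG : 1 ≤ G) (hμ : 0 ≤ μ)
    (hy : y ≤ M) : ∃ j ∈ range (G + 1), |θ y - μ * y| ≤ |θ (j * M / G) - μ * ((j * M / G : ℕ) : ℝ)| + μ * ((M : ℝ) / G + 1) := by
  have hM0 : (0 : ℝ) < M := by exact_mod_cast hM
  have hG0 : (0 : ℝ) < G := by exact_mod_cast hG
  obtain ⟨j0, hj0⟩ : ∃ j0 : ℕ, j0 = y * G / M := ⟨_, rfl⟩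
  have a1 : j0 * M ≤ y * G := by rw [hj0]; exact Nat.div_mul_le_self _ _
  have a2 : y * G < (j0 + 1) * M := by
    rw [hj0]
    have := Nat.lt_div_mul_add (a := y * G) (b := M) (by omega)
    have h7 : (y * G / M + 1) * M = y * G / M * M + M := by ring
    omega
  have hj0G : j0 ≤ G := by
    by_contra hc
    have h1 : (G + 1) * M ≤ j0 * M := Nat.mul_le_mul_right M (by omega)
    have h2 : y * G ≤ M * G := Nat.mul_le_mul_right G hy
    have h3 : (G + 1) * M = M * G + M := by ring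
    omega
  have a1r : (j0 : ℝ) * M ≤ y * G := by exact_mod_cast a1
  have a2r : (y : ℝ) * G < (j0 + 1) * M := by exact_mod_cast a2
  -- lower grid point
  obtain ⟨y0, hy0⟩ : ∃ y0 : ℕ, y0 = j0 * M / G := ⟨_, rfl⟩
  have b1 : y0 ≤ y := by
    rw [hy0]
    apply Nat.div_le_of_le_mul
    calc j0 * M ≤ y * G := a1
      _ = G * y := mul_comm _ _
  have b2 : (y : ℝ) - y0 ≤ M / G + 1 := by
    have h1 : j0 * M < (y0 + 1) * G := by
      rw [hy0]
      have := Nat.lt_div_mul_add (a := j0 * M) (b := G) (by omega)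
      have h7 : (j0 * M / G + 1) * G = j0 * M / G * G + G := by ring
      omega
    have h2 : (j0 : ℝ) * M < (y0 + 1) * G := by exact_mod_cast h1
    have h3 : (y : ℝ) - y0 - 1 ≤ M / G := by
      rw [le_div_iff₀ hG0]
      nlinarith
    linarith
  rcases le_total 0 (θ y - μ * y) with hs | hs
  · -- use the upper grid point
    obtain ⟨j1, hj1G, c1, c2⟩ : ∃ j1 : ℕ, j1 ≤ G ∧ y ≤ j1 * M / G ∧ ((j1 * M / G : ℕ) : ℝ) - y ≤ M / G + 1 := by
      rcases Nat.lt_or_ge j0 G with h | h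
      · refine ⟨j0 + 1, h, ?_, ?_⟩
        · rw [Nat.le_div_iff_mul_le (by omega)]
          exact a2.le
        · have h1 : (((j0 + 1) * M / G : ℕ) : ℝ) ≤ ((j0 : ℝ) + 1) * M / G := by
            have := Nat.cast_div_le (α := ℝ) (m := (j0 + 1) * M) (n := G)
            push_cast at this
            exact this
          have h2 : ((j0 : ℝ) + 1) * M / G ≤ y + M / G := by
            rw [div_le_iff₀ hG0, add_mul (y : ℝ), div_mul_cancel₀ _ hG0.ne']
            linarith
          linarith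
      · have h1 : j0 = G := by omega
        have h2 : M ≤ y := by
          rw [h1] at a1
          have h3 : M * G ≤ y * G := by rw [mul_comm M G]; exact a1
          exact Nat.le_of_mul_le_mul_right h3 (by omega)
        have h3 : y = M := by omega
        refine ⟨G, le_rfl, ?_, ?_⟩
        · rw [Nat.mul_div_cancel_left _ (by omega)]
          omega
        · rw [Nat.mul_div_cancel_left _ (by omega), h3, sub_self]
          positivity
    refine ⟨j1, mem_range.2 (by omega), ?_⟩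
    rw [abs_of_nonneg hs]
    have d1 := hθ y (j1 * M / G) c1
    have d5 := le_abs_self (θ (j1 * M / G) - μ * ((j1 * M / G : ℕ) : ℝ))
    have d6 : μ * (((j1 * M / G : ℕ) : ℝ) - y) ≤ μ * (M / G + 1) := mul_le_mul_of_nonneg_left c2 hμ
    linarith
  · refine ⟨j0, mem_range.2 (by omega), ?_⟩
    rw [abs_of_nonpos hs]
    have d1 := hθ y0 y b1
    rw [← hy0]
    have d5 := neg_abs_le (θ y0 - μ * (y0 : ℝ))
    have d6 : μ * ((y : ℝ) - y0) ≤ μ * (M / G + 1) := mul_le_mul_of_nonneg_left b2 hμ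
    linarith

end Pool.Agent.H544.LD
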