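import Mathlib
import Pool.Agent.H544.LD.Main

/-!
One dyadic block of moduli.
-/

set_option autoImplicit false

namespace Pool.Agent.H544.LD
open Finset Polynomial
open Pool.Agent.H373R2.T7 (pz Vz mem_pz Vz_pos Vz_le_one lamI lamzI lamP lamI_nonneg lamzI_nonneg lamP_nonneg lamP_le ev_L' ev_log'
  Vz_inv_small lamz lamz_nonneg)

variable {k : ℕ}

/-- the box of the constant terms -/
def Bx (A : Fin k → ℕ) : Finset (Fin k → ℕ) := Fintype.piFinset (fun i => Icc 1 (A i))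

/-- the accumulated errors at the points of a grid -/
noncomputable def TT (F : Fin k → ℤ[X]) (z x G : ℕ) (I : Finset (ℕ × ℕ)) (a : Fin k → ℕ) : ℝ :=
  ∑ j ∈ range (G + 1), nrm I (j * x / G) (fun n => ∏ i, lamP (va F a i n) - ∏ i, lamzI z (va F a i n))

lemma nrm_nonneg (I : Finset (ℕ × ℕ)) (y : ℕ) (h : ℕ → ℝ) : 0 ≤ nrm I y h := sum_nonneg fun _ _ => abs_nonneg _

lemma TT_nonneg (F : Fin k → ℤ[X]) (z x G : ℕ) (I : Finset (ℕ × ℕ)) (a : Fin k → ℕ) : 0 ≤ TT F z x G I a :=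
  sum_nonneg fun _ _ => nrm_nonneg _ _ _

set_option maxHeartbeats 2000000 in
theorem block (F : Fin k → ℤ[X]) (hd : ∀ i, 1 ≤ (F i).natDegree) (hl : ∀ i, 0 < (F i).leadingCoeff)
    (B : ℕ) (hB : 1 ≤ B) (U : ℕ) :
    ∃ E0 : ℕ, ∀ E : ℕ, ∃ D N0 : ℕ, ∀ x : ℕ, N0 ≤ x → ∀ A : Fin k → ℕ,
      (∀ i, A i ≤ B * x ^ (F i).natDegree ∧ x ^ (F i).natDegree ≤ B * A i) →
      ∀ z : ℕ, Real.log x ^ E0 ≤ z → (z : ℝ) ≤ Real.log x ^ E →
      ∀ Q ν : ℕ, 1 ≤ Q → 1 ≤ ν → Q * Real.exp (D * Real.log (Real.log x) ^ 2) ≤ x → ∀ I : Finset (ℕ × ℕ), Fam Q ν I →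
      ∃ T : (Fin k → ℕ) → ℝ, (∀ a, 0 ≤ T a) ∧ ∑ a ∈ Bx A, T a ≤ ν * x * (∏ i, (A i : ℝ)) / Real.log x ^ U ∧
        ∀ a ∈ Bx A, ∀ y : ℕ × ℕ → ℕ, (∀ i ∈ I, y i ≤ x) →
          ∑ i ∈ I, |th F a (y i) i.1 i.2 - mu F a z i.1 i.2 * y i| ≤ T a + ν * x / Real.log x ^ U ∧
          ∀ i ∈ I, |th F a (y i) i.1 i.2 - mu F a z i.1 i.2 * y i| ≤ x / Q * Real.log x ^ (k + 1) := by
  classical
  set W : ℕ := U + k + 5 with hW
  set DD : ℕ := univ.sup (fun i => (F i).natDegree) with hDD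
  set κ : ℕ := ∑ i, (F i).natDegree with hκ
  obtain ⟨B0, D0, hB0⟩ := fam_sysP F hd hl B hB (U + W + 1)
  obtain ⟨C1, z0, n0, hC1, hz0, hmod⟩ := model_cls F hl
  refine ⟨B0 + W + 2, fun E => ?_⟩
  obtain ⟨n1, h1⟩ := hB0 E
  obtain ⟨n2, h2⟩ := Vz_inv_small E
  obtain ⟨n3, h3⟩ := lamI_va_le F B hB
  set Cst : ℝ := 100 + z0 + 4 * κ + n0 + (DD : ℝ) * (DD + 2) ^ k + (2 * (DD + 2) ^ k + 2) with hCst
  obtain ⟨n4, h4⟩ := ev_L' Cst
  obtain ⟨n5, h5⟩ := ev_log' W 2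
  refine ⟨E * C1 * (C1 + 2 * W + 1) + W + D0 + k + 2, n1 + n2 + n3 + n4 + n5 + 3, fun x hx A hA z hz1 hz2 Q ν hQ hν hQD I hI => ?_⟩
  have hx3 : 3 ≤ x := by omega
  have hxr : (3 : ℝ) ≤ x := by exact_mod_cast hx3
  have hx0 : (0 : ℝ) < x := by linarith
  have hL := h4 x (by omega)
  have h5' := h5 x (by omega)
  have hval := h3 x (by omega) A (fun i => (hA i).1)
  rw [← hDD] at hval
  set L := Real.log x with hLd
  have hQ0 : (0 : ℝ) < Q := by exact_mod_cast hQ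
  have hν0 : (0 : ℝ) < ν := by exact_mod_cast hν
  have p1 : (0 : ℝ) ≤ z0 := Nat.cast_nonneg _
  have p2 : (0 : ℝ) ≤ κ := Nat.cast_nonneg _
  have p3 : (0 : ℝ) ≤ n0 := Nat.cast_nonneg _
  have p4 : (0 : ℝ) ≤ DD := Nat.cast_nonneg _
  have p5 : 0 ≤ (DD : ℝ) * (DD + 2) ^ k := by positivity
  have p6 : 0 ≤ 2 * ((DD : ℝ) + 2) ^ k + 2 := by positivity
  have hL100 : 100 ≤ L := by rw [hCst] at hL; linarith
  have hLz0 : (z0 : ℝ) ≤ L := by rw [hCst] at hL; linarith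
  have hLκ : 4 * (κ : ℝ) ≤ L := by rw [hCst] at hL; linarith
  have hLn0 : (n0 : ℝ) ≤ L := by rw [hCst] at hL; linarith
  have hLDD : (DD : ℝ) * (DD + 2) ^ k ≤ L := by rw [hCst] at hL; linarith
  have hLp : 2 * ((DD : ℝ) + 2) ^ k + 2 ≤ L := by rw [hCst] at hL; linarith
  have hL1 : 1 ≤ L := by linarith
  have hL0 : 0 < L := by linarith
  set ℓ := Real.log L with hℓ
  have hℓ1 : 1 ≤ ℓ := by
    rw [hℓ, Real.le_log_iff_exp_le hL0]
    have := Real.exp_one_lt_d9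
    linarith
  have hℓ0 : 0 < ℓ := by linarith
  have hℓ2 : ℓ ≤ ℓ ^ 2 := by nlinarith
  have hLe : ∀ n : ℕ, L ^ n = Real.exp (n * ℓ) := by
    intro n
    rw [hℓ, mul_comm, Real.exp_mul, Real.exp_log hL0, Real.rpow_natCast]
  have hLe2 : ∀ n : ℕ, L ^ n ≤ Real.exp (n * ℓ ^ 2) := by
    intro n
    rw [hLe]
    apply Real.exp_le_exp.2
    exact mul_le_mul_of_nonneg_left hℓ2 (Nat.cast_nonneg _)
  -- the range of Q
  set D : ℕ := E * C1 * (C1 + 2 * W + 1) + W + D0 + k + 2 with hD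
  have hQexp : ∀ D' : ℕ, D' ≤ D → Real.exp (D' * ℓ ^ 2) ≤ x / Q := by
    intro D' hD'
    rw [le_div_iff₀ hQ0]
    have h6 : Real.exp (D' * ℓ ^ 2) ≤ Real.exp (D * ℓ ^ 2) := by
      apply Real.exp_le_exp.2
      exact mul_le_mul_of_nonneg_right (by exact_mod_cast hD') (by positivity)
    calc Real.exp (D' * ℓ ^ 2) * Q ≤ Real.exp (D * ℓ ^ 2) * Q := mul_le_mul_of_nonneg_right h6 hQ0.le
      _ = Q * Real.exp (D * ℓ ^ 2) := mul_comm _ _
      _ ≤ x := hQD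
  have hQD0 : Q * L ^ D0 ≤ x := by
    have h6 := (hLe2 D0).trans (hQexp D0 (by omega))
    rw [le_div_iff₀ hQ0] at h6
    linarith
  have hQx : Q ≤ x := by
    have h6 : (Q : ℝ) ≤ Q * L ^ D0 := le_mul_of_one_le_right hQ0.le (one_le_pow₀ hL1)
    exact_mod_cast h6.trans hQD0
  have hxQ0 : 0 < (x : ℝ) / Q := by positivity
  -- z
  have hz1' : L ^ B0 ≤ z := le_trans (pow_le_pow_right₀ hL1 (by omega)) hz1
  have hzW : L ^ (W + 2) ≤ z := le_trans (pow_le_pow_right₀ hL1 (by omega)) hz1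
  have hzL : L ≤ z := by
    refine le_trans ?_ hzW
    calc L = L ^ 1 := (pow_one L).symm
      _ ≤ L ^ (W + 2) := pow_le_pow_right₀ hL1 (by omega)
  have hz : 1 ≤ z := by exact_mod_cast (by linarith : (1 : ℝ) ≤ z)
  have hzz0 : z0 ≤ z := by exact_mod_cast hLz0.trans hzL
  have hzr : (0 : ℝ) < z := by exact_mod_cast hz
  have hV := h2 x (by omega) z hz hz2
  have hVp : 0 < (Vz z)⁻¹ := by have := Vz_pos z; positivity
  have hVk : (Vz z)⁻¹ ^ k ≤ L ^ k := pow_le_pow_left₀ hVp.le hV k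
  have hVk0 : 0 < (Vz z)⁻¹ ^ k := by positivity
  -- the grid
  obtain ⟨G, hG⟩ : ∃ G : ℕ, G = ⌈L ^ W⌉₊ := ⟨_, rfl⟩
  have hLW1 : 1 ≤ L ^ W := one_le_pow₀ hL1
  have hG1 : L ^ W ≤ G := by rw [hG]; exact Nat.le_ceil _
  have hG2 : (G : ℝ) ≤ 2 * L ^ W := by
    rw [hG]
    have := Nat.ceil_lt_add_one (by positivity : 0 ≤ L ^ W)
    linarith
  have hG0 : (0 : ℝ) < G := by linarith
  have hGn : 1 ≤ G := by exact_mod_cast (by linarith : (0 : ℝ) < G)
  have hGx : (G : ℝ) ≤ x := by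
    refine hG2.trans (h5'.trans ?_)
    rw [Real.sqrt_le_left hx0.le]
    nlinarith
  have hAp : 0 ≤ ∏ i, (A i : ℝ) := prod_nonneg fun _ _ => Nat.cast_nonneg _
  refine ⟨TT F z x G I, TT_nonneg F z x G I, ?_, ?_⟩
  · -- the average
    unfold TT Bx
    rw [sum_comm]
    have h6 : ∀ j ∈ range (G + 1), ∑ a ∈ Fintype.piFinset (fun i => Icc 1 (A i)), nrm I (j * x / G)
        (fun n => ∏ i, lamP (va F a i n) - ∏ i, lamzI z (va F a i n)) ≤ ν * x * (∏ i, (A i : ℝ)) / L ^ (U + W + 1) := by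
      intro j hj
      rw [mem_range] at hj
      apply h1 x (by omega) A hA z hz1' hz2 Q ν (j * x / G) hQ hν _ hQD0 I hI
      apply Nat.div_le_of_le_mul
      exact Nat.mul_le_mul_right x (by omega)
    refine (sum_le_sum h6).trans ?_
    rw [sum_const, card_range, nsmul_eq_mul]
    push_cast
    calc ((G : ℝ) + 1) * (ν * x * (∏ i, (A i : ℝ)) / L ^ (U + W + 1)) ≤ (3 * L ^ W) * (ν * x * (∏ i, (A i : ℝ)) / L ^ (U + W + 1)) := by
          apply mul_le_mul_of_nonneg_right _ (by positivity)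
          linarith
      _ = (3 / L) * (ν * x * (∏ i, (A i : ℝ)) / L ^ U) := by
          rw [pow_succ L (U + W), pow_add L U W]; field_simp
      _ ≤ 1 * (ν * x * (∏ i, (A i : ℝ)) / L ^ U) := by
          apply mul_le_mul_of_nonneg_right _ (by positivity)
          rw [div_le_one hL0]; linarith
      _ = _ := one_mul _
  intro a ha y hy
  have ha1 : ∀ i, 1 ≤ a i := by
    intro i
    unfold Bx at ha
    rw [Fintype.mem_piFinset] at ha
    exact (mem_Icc.1 (ha i)).1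
  have hvalP : ∀ n ∈ Icc 1 x, ∀ i, lamP (va F a i n) ≤ (DD + 2) * L := fun n hn i => (lamP_le _).trans (hval a ha n hn i)
  have hΛ1 : 1 ≤ ((DD : ℝ) + 2) * L := by nlinarith
  -- facts for each class
  have hcls : ∀ i ∈ I, 0 ≤ mu F a z i.1 i.2 ∧ mu F a z i.1 i.2 ≤ 2 * L ^ k / Q := by
    intro i hi
    obtain ⟨hi1, hi2, hi3⟩ := hI.1 i hi
    by_cases hg : Int.gcd ((Hp F a).eval (i.2 : ℤ)) i.1 = 1
    · have hix : i.1 ≤ x ∨ x < i.1 := le_or_gt _ _
      have hqr : (0 : ℝ) < i.1 := by exact_mod_cast (by omega : 0 < i.1)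
      have hix' : i.1 ≤ x := by
        have h6 : 2 * (Q : ℝ) ≤ x := by
          have h7 : (2 : ℝ) ≤ x / Q := by
            refine le_trans ?_ (hQexp 1 (by omega))
            have := Real.add_one_le_exp ((1 : ℕ) * ℓ ^ 2)
            push_cast at this ⊢
            nlinarith
          rw [le_div_iff₀ hQ0] at h7
          exact h7
        have h7 : 2 * Q ≤ x := by exact_mod_cast h6
        omega
      obtain ⟨_, c2, c3⟩ := mu_cmp F a z i.1 i.2 x (by omega) hix' hx3 hz hg (by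
        rw [← hκ]
        calc 4 * (κ : ℝ) * L ≤ L * L := mul_le_mul_of_nonneg_right hLκ hL0.le
          _ = L ^ 2 := by ring
          _ ≤ L ^ (W + 2) := pow_le_pow_right₀ hL1 (by omega)
          _ ≤ z := hzW)
      refine ⟨c2, c3.trans ?_⟩
      apply div_le_div₀ (by positivity) (by linarith) hQ0
      exact_mod_cast hi1
    · unfold mu
      rw [if_neg hg]
      exact ⟨le_rfl, by positivity⟩
  have hix : ∀ i ∈ I, i.1 ≤ x := by
    intro i hi
    obtain ⟨hi1, hi2, hi3⟩ := hI.1 i hi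
    have h6 : 2 * (Q : ℝ) ≤ x := by
      have h7 : (2 : ℝ) ≤ x / Q := by
        refine le_trans ?_ (hQexp 1 (by omega))
        have := Real.add_one_le_exp ((1 : ℕ) * ℓ ^ 2)
        push_cast at this ⊢
        nlinarith
      rw [le_div_iff₀ hQ0] at h7
      exact h7
    have h7 : 2 * Q ≤ x := by exact_mod_cast h6
    omega
  have hpart2 : ∀ i ∈ I, ∀ y' ≤ x, |th F a y' i.1 i.2 - mu F a z i.1 i.2 * y'| ≤ x / Q * L ^ (k + 1) := by
    intro i hi y' hy'
    obtain ⟨hi1, hi2, hi3⟩ := hI.1 i hi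
    have hmu := hcls i hi
    have hth : th F a y' i.1 i.2 ≤ (2 * x / Q) * ((DD + 2) * L) ^ k := by
      unfold th
      calc ∑ n ∈ cls y' i.1 i.2, ∏ j, lamP (va F a j n) ≤ ∑ n ∈ cls y' i.1 i.2, ((DD + 2) * L) ^ k := by
            apply sum_le_sum
            intro n hn
            have hn1 : n ∈ Icc 1 x := by
              unfold cls at hn
              rw [mem_filter, mem_Icc] at hn
              rw [mem_Icc]; omega
            calc ∏ j, lamP (va F a j n) ≤ ∏ _j : Fin k, ((DD : ℝ) + 2) * L := prod_le_prod (fun _ _ => lamP_nonneg _) (fun j _ => hvalP n hn1 j)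
              _ = _ := by rw [prod_const, card_univ, Fintype.card_fin]
        _ = (#(cls y' i.1 i.2) : ℝ) * ((DD + 2) * L) ^ k := by rw [sum_const, nsmul_eq_mul]
        _ ≤ _ := mul_le_mul_of_nonneg_right (card_cls x y' i.1 i.2 Q hQ hQx hy' hi1 hi3) (by positivity)
    have hth0 := th_nonneg F a y' i.1 i.2
    have hmy : mu F a z i.1 i.2 * y' ≤ (2 * L ^ k / Q) * x :=
      mul_le_mul hmu.2 (by exact_mod_cast hy') (Nat.cast_nonneg _) (by positivity)
    have hmy0 : 0 ≤ mu F a z i.1 i.2 * y' := mul_nonneg hmu.1 (Nat.cast_nonneg _)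
    have htot : (2 * x / Q) * ((DD + 2) * L) ^ k + (2 * L ^ k / Q) * x ≤ x / Q * L ^ (k + 1) := by
      rw [mul_pow]
      calc (2 * x / Q) * ((DD + 2) ^ k * L ^ k) + (2 * L ^ k / Q) * x = x / Q * (L ^ k * (2 * (DD + 2) ^ k + 2)) := by ring
        _ ≤ x / Q * (L ^ k * L) := by gcongr
        _ = _ := by rw [pow_succ]
    rw [abs_le]
    constructor <;> linarith
  refine ⟨?_, fun i hi => hpart2 i hi (y i) (hy i hi)⟩
  -- the main estimate for each class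
  have hLUp : 0 < L ^ (U + 3) := by positivity
  have hz1b : ∀ b : ℕ, (b : ℝ) ≤ (C1 + 2 * W + 1) * ℓ → (z : ℝ) ^ (C1 * b) ≤ x / Q / L ^ W := by
    intro b hb
    rw [le_div_iff₀ (by positivity)]
    have hEC : (0 : ℝ) ≤ (E : ℝ) * C1 := by positivity
    calc (z : ℝ) ^ (C1 * b) * L ^ W ≤ (L ^ E) ^ (C1 * b) * L ^ W := by gcongr
      _ = Real.exp ((E * (C1 * b) + W : ℕ) * ℓ) := by rw [← pow_mul, ← pow_add, hLe]
      _ ≤ Real.exp ((E * C1 * (C1 + 2 * W + 1) + W : ℕ) * ℓ ^ 2) := by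
          apply Real.exp_le_exp.2
          push_cast
          have h6 : (E : ℝ) * (C1 * b) * ℓ ≤ E * C1 * (C1 + 2 * W + 1) * ℓ ^ 2 := by
            have h7 : (E : ℝ) * C1 * ℓ * b ≤ E * C1 * ℓ * ((C1 + 2 * W + 1) * ℓ) := mul_le_mul_of_nonneg_left hb (by positivity)
            calc (E : ℝ) * (C1 * b) * ℓ = E * C1 * ℓ * b := by ring
              _ ≤ _ := h7
              _ = _ := by ring
          have h8 : (W : ℝ) * ℓ ≤ W * ℓ ^ 2 := mul_le_mul_of_nonneg_left hℓ2 (Nat.cast_nonneg _)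
          rw [add_mul, add_mul]
          linarith
      _ ≤ _ := hQexp _ (by rw [hD]; omega)
  obtain ⟨b, hb⟩ : ∃ b : ℕ, b = C1 + ⌈2 * W * ℓ⌉₊ := ⟨_, rfl⟩
  have hbC : C1 ≤ b := by omega
  have hceil := Nat.ceil_lt_add_one (by positivity : 0 ≤ 2 * (W : ℝ) * ℓ)
  have hbup : (b : ℝ) ≤ (C1 + 2 * W + 1) * ℓ := by
    rw [hb]
    push_cast
    have h6 : (C1 : ℝ) ≤ C1 * ℓ := le_mul_of_one_le_right (Nat.cast_nonneg _) hℓ1
    nlinarith
  have hblow : 2 * (W : ℝ) * ℓ ≤ b := by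
    rw [hb]
    push_cast
    have := Nat.le_ceil (2 * (W : ℝ) * ℓ)
    have h6 : (0 : ℝ) ≤ C1 := Nat.cast_nonneg _
    linarith
  have hhalf : (1 / 2 : ℝ) ^ b ≤ 1 / L ^ W := by
    rw [one_div_pow]
    apply one_div_le_one_div_of_le (by positivity)
    rw [hLe, show (2 : ℝ) ^ b = Real.exp (b * Real.log 2) by
      rw [mul_comm, Real.exp_mul, Real.exp_log (by norm_num), Real.rpow_natCast]]
    apply Real.exp_le_exp.2
    have h6 := Real.log_two_gt_d9
    have h7 : (0 : ℝ) ≤ b := Nat.cast_nonneg _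
    nlinarith
  have hmain : ∀ i ∈ I, Int.gcd ((Hp F a).eval (i.2 : ℤ)) i.1 = 1 → ∀ y' ≤ x,
      |∑ n ∈ cls y' i.1 i.2, ∏ j, lamzI z (va F a j n) - mu F a z i.1 i.2 * y'| ≤ x / Q / L ^ (U + 4) := by
    intro i hi hg y' hy'
    obtain ⟨hi1, hi2, hi3⟩ := hI.1 i hi
    have hqr : (0 : ℝ) < i.1 := by exact_mod_cast (by omega : 0 < i.1)
    have hQq : (Q : ℝ) ≤ i.1 := by exact_mod_cast hi1
    have k1 := hmod b hbC z hzz0 a i.1 i.2 y' ha1 (by omega) hi3 hg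
    obtain ⟨c1, _, _⟩ := mu_cmp F a z i.1 i.2 x (by omega) (hix i hi) hx3 hz hg (by
      rw [← hκ]
      calc 4 * (κ : ℝ) * L ≤ L * L := mul_le_mul_of_nonneg_right hLκ hL0.le
        _ = L ^ 2 := by ring
        _ ≤ L ^ (W + 2) := pow_le_pow_right₀ hL1 (by omega)
        _ ≤ z := hzW)
    have hyq : (y' : ℝ) / i.1 ≤ x / Q := div_le_div₀ hx0.le (by exact_mod_cast hy') hQ0 hQq
    have hyq0 : 0 ≤ (y' : ℝ) / i.1 := by positivity
    have k2 : |∑ n ∈ cls y' i.1 i.2, ∏ j, lamzI z (va F a j n) - mu F a z i.1 i.2 * y'| ≤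
        (Vz z)⁻¹ ^ k * ((1 / 2 : ℝ) ^ b * ((y' : ℝ) / i.1) + (z : ℝ) ^ (C1 * b) + n0) +
          (Vz z)⁻¹ ^ k * (4 * (κ : ℝ) * L / z) * (y' / i.1) := by
      have e1 : ∑ n ∈ cls y' i.1 i.2, ∏ j, lamzI z (va F a j n) - mu F a z i.1 i.2 * y' =
          (∑ n ∈ cls y' i.1 i.2, ∏ j, lamzI z (va F a j n) - (Vz z)⁻¹ ^ k * (Gz (Hp F a) z i.1 / i.1) * y') -
          (mu F a z i.1 i.2 - (Vz z)⁻¹ ^ k * (Gz (Hp F a) z i.1 / i.1)) * y' := by ring
      rw [e1]
      refine (abs_sub _ _).trans (add_le_add k1 ?_)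
      rw [abs_mul, Nat.abs_cast]
      calc _ ≤ ((Vz z)⁻¹ ^ k * (4 * (κ : ℝ) * L / z) / i.1) * y' := mul_le_mul_of_nonneg_right c1 (Nat.cast_nonneg _)
        _ = _ := by ring
    refine k2.trans ?_
    have e2 : 4 * (κ : ℝ) * L / z ≤ 1 / L ^ W := by
      rw [div_le_div_iff₀ hzr (by positivity), one_mul]
      calc 4 * (κ : ℝ) * L * L ^ W ≤ L * L * L ^ W := by gcongr
        _ = L ^ (W + 2) := by rw [pow_add]; ring
        _ ≤ z := hzW
    have e3 : (n0 : ℝ) ≤ x / Q / L ^ W := by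
      rw [le_div_iff₀ (by positivity)]
      calc (n0 : ℝ) * L ^ W ≤ L * L ^ W := by gcongr
        _ = L ^ (W + 1) := by rw [pow_succ]; ring
        _ ≤ _ := (hLe2 (W + 1)).trans (hQexp (W + 1) (by rw [hD]; omega))
    have e4 := hz1b b hbup
    have hP : 0 < (x : ℝ) / Q / L ^ W := by positivity
    have e5 : (1 / 2 : ℝ) ^ b * ((y' : ℝ) / i.1) ≤ x / Q / L ^ W := by
      calc (1 / 2 : ℝ) ^ b * ((y' : ℝ) / i.1) ≤ (1 / L ^ W) * (x / Q) := by gcongr
        _ = _ := by ring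
    have e6 : (4 * (κ : ℝ) * L / z) * ((y' : ℝ) / i.1) ≤ x / Q / L ^ W := by
      calc (4 * (κ : ℝ) * L / z) * ((y' : ℝ) / i.1) ≤ (1 / L ^ W) * (x / Q) := by gcongr
        _ = _ := by ring
    calc (Vz z)⁻¹ ^ k * ((1 / 2 : ℝ) ^ b * ((y' : ℝ) / i.1) + (z : ℝ) ^ (C1 * b) + n0) +
          (Vz z)⁻¹ ^ k * (4 * (κ : ℝ) * L / z) * (y' / i.1)
        = (Vz z)⁻¹ ^ k * (((1 / 2 : ℝ) ^ b * ((y' : ℝ) / i.1) + (z : ℝ) ^ (C1 * b) + n0) + (4 * (κ : ℝ) * L / z) * (y' / i.1)) := by ring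
      _ ≤ L ^ k * (4 * (x / Q / L ^ W)) := by
          apply mul_le_mul hVk _ (by positivity) (by positivity)
          linarith
      _ = (4 / L) * (x / Q / L ^ (U + 4)) := by
          rw [hW, show U + k + 5 = (U + 4) + k + 1 by ring, pow_succ, pow_add L (U + 4) k]; field_simp
      _ ≤ 1 * (x / Q / L ^ (U + 4)) := by
          apply mul_le_mul_of_nonneg_right _ (by positivity)
          rw [div_le_one hL0]; linarith
      _ = _ := one_mul _
  have hall : ∀ i ∈ I, |th F a (y i) i.1 i.2 - mu F a z i.1 i.2 * y i| ≤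
      ∑ j ∈ range (G + 1), |∑ n ∈ cls (j * x / G) i.1 i.2, (∏ i, lamP (va F a i n) - ∏ i, lamzI z (va F a i n))| + x / Q / L ^ (U + 1) := by
    intro i hi
    obtain ⟨hi1, hi2, hi3⟩ := hI.1 i hi
    have hmu := hcls i hi
    by_cases hg : Int.gcd ((Hp F a).eval (i.2 : ℤ)) i.1 = 1
    · obtain ⟨j, hj, hjj⟩ := grid (fun y => th F a y i.1 i.2) (fun y y' h => th_mono F a y y' i.1 i.2 h) x G (y i) (mu F a z i.1 i.2)
        (by omega) hGn hmu.1 (hy i hi)
      have hjx : j * x / G ≤ x := by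
        rw [mem_range] at hj
        apply Nat.div_le_of_le_mul
        exact Nat.mul_le_mul_right x (by omega)
      have k1 := hmain i hi hg (j * x / G) hjx
      have k2 : |th F a (j * x / G) i.1 i.2 - mu F a z i.1 i.2 * ((j * x / G : ℕ) : ℝ)| ≤
          |∑ n ∈ cls (j * x / G) i.1 i.2, (∏ i, lamP (va F a i n) - ∏ i, lamzI z (va F a i n))| + x / Q / L ^ (U + 4) := by
        have e1 : th F a (j * x / G) i.1 i.2 - mu F a z i.1 i.2 * ((j * x / G : ℕ) : ℝ) =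
            ∑ n ∈ cls (j * x / G) i.1 i.2, (∏ i, lamP (va F a i n) - ∏ i, lamzI z (va F a i n)) +
            (∑ n ∈ cls (j * x / G) i.1 i.2, ∏ j, lamzI z (va F a j n) - mu F a z i.1 i.2 * ((j * x / G : ℕ) : ℝ)) := by
          rw [sum_sub_distrib]
          unfold th
          ring
        rw [e1]
        exact (abs_add_le _ _).trans (add_le_add le_rfl k1)
      have k3 : mu F a z i.1 i.2 * ((x : ℝ) / G + 1) ≤ x / Q / L ^ (U + 4) := by
        have e2 : (x : ℝ) / G + 1 ≤ 2 * x / L ^ W := by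
          have e3 : (x : ℝ) / G ≤ x / L ^ W := div_le_div_of_nonneg_left hx0.le (by positivity) hG1
          have e4 : (1 : ℝ) ≤ x / L ^ W := by
            rw [le_div_iff₀ (by positivity), one_mul]
            exact hG1.trans hGx
          have e5 : 2 * (x : ℝ) / L ^ W = x / L ^ W + x / L ^ W := by ring
          linarith
        calc mu F a z i.1 i.2 * ((x : ℝ) / G + 1) ≤ (2 * L ^ k / Q) * (2 * x / L ^ W) :=
              mul_le_mul hmu.2 e2 (by positivity) (by positivity)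
          _ = (4 / L) * (x / Q / L ^ (U + 4)) := by
              rw [hW, show U + k + 5 = (U + 4) + k + 1 by ring, pow_succ, pow_add L (U + 4) k]; field_simp; ring
          _ ≤ 1 * (x / Q / L ^ (U + 4)) := by
              apply mul_le_mul_of_nonneg_right _ (by positivity)
              rw [div_le_one hL0]; linarith
          _ = _ := one_mul _
      have k4 : |∑ n ∈ cls (j * x / G) i.1 i.2, (∏ i, lamP (va F a i n) - ∏ i, lamzI z (va F a i n))| ≤
          ∑ j ∈ range (G + 1), |∑ n ∈ cls (j * x / G) i.1 i.2, (∏ i, lamP (va F a i n) - ∏ i, lamzI z (va F a i n))| :=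
        single_le_sum (f := fun j => |∑ n ∈ cls (j * x / G) i.1 i.2, (∏ i, lamP (va F a i n) - ∏ i, lamzI z (va F a i n))|)
          (fun _ _ => abs_nonneg _) hj
      have k5 : x / Q / L ^ (U + 4) + x / Q / L ^ (U + 4) ≤ x / Q / L ^ (U + 1) := by
        have e3 : (x : ℝ) / Q / L ^ (U + 4) ≤ x / Q / L ^ (U + 1) / 2 := by
          rw [show U + 4 = (U + 1) + 3 by ring, pow_add, ← div_div]
          apply div_le_div_of_nonneg_left (by positivity) (by norm_num)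
          calc (2 : ℝ) ≤ L := by linarith
            _ = L ^ 1 := (pow_one L).symm
            _ ≤ L ^ 3 := pow_le_pow_right₀ hL1 (by omega)
        linarith
      have hjj' : |th F a (y i) i.1 i.2 - mu F a z i.1 i.2 * y i| ≤
          |th F a (j * x / G) i.1 i.2 - mu F a z i.1 i.2 * ((j * x / G : ℕ) : ℝ)| + mu F a z i.1 i.2 * ((x : ℝ) / G + 1) := hjj
      linarith
    · have hmu0 : mu F a z i.1 i.2 = 0 := by
        unfold mu
        rw [if_neg hg]
      have k1 := th_bad F hd a i.1 i.2 (y i) (by omega) ((DD + 2) * L) hΛ1 (fun n hn j => by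
        apply hvalP
        rw [mem_Icc] at hn ⊢
        have := hy i hi
        omega) hg
      rw [← hDD] at k1
      have hth0 := th_nonneg F a (y i) i.1 i.2
      rw [hmu0, zero_mul, sub_zero, abs_of_nonneg hth0]
      have k2 : 0 ≤ ∑ j ∈ range (G + 1), |∑ n ∈ cls (j * x / G) i.1 i.2, (∏ i, lamP (va F a i n) - ∏ i, lamzI z (va F a i n))| :=
        sum_nonneg fun _ _ => abs_nonneg _
      have k3 : (DD : ℝ) * ((DD + 2) * L) ^ k ≤ x / Q / L ^ (U + 1) := by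
        rw [le_div_iff₀ (by positivity), mul_pow]
        calc (DD : ℝ) * ((DD + 2) ^ k * L ^ k) * L ^ (U + 1) = (DD * (DD + 2) ^ k) * L ^ (k + (U + 1)) := by rw [pow_add L k]; ring
          _ ≤ L * L ^ (k + (U + 1)) := by gcongr
          _ = L ^ (k + (U + 1) + 1) := by rw [pow_succ L (k + (U + 1))]; ring
          _ ≤ _ := (hLe2 _).trans (hQexp _ (by rw [hD, hW]; omega))
      linarith
  refine (sum_le_sum hall).trans ?_
  rw [sum_add_distrib, sum_comm, sum_const, nsmul_eq_mul]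
  have hcardI : (#I : ℝ) ≤ ν * Q := by exact_mod_cast hI.card_le
  apply add_le_add
  · unfold TT nrm
    exact le_rfl
  · calc (#I : ℝ) * (x / Q / L ^ (U + 1)) ≤ (ν * Q) * (x / Q / L ^ (U + 1)) := mul_le_mul_of_nonneg_right hcardI (by positivity)
      _ = ν * x / L ^ U / L := by rw [pow_succ]; field_simp
      _ ≤ ν * x / L ^ U := div_le_self (by positivity) hL1

end Pool.Agent.H544.LD
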