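import Mathlib
import Pool.Agent.H544.LD.Block

/-!
All dyadic blocks of moduli.
-/

set_option autoImplicit false

namespace Pool.Agent.H544.LD
open Finset Polynomial
open Pool.Agent.H373R2.T7 (ev_L' ev_log')

variable {k : ℕ}

open Classical in
lemma markov {ι : Type*} (S : Finset ι) (T : ι → ℝ) (hT : ∀ a, 0 ≤ T a) (M t : ℝ) (ht : 0 < t) (h : ∑ a ∈ S, T a ≤ M) :
    (#(S.filter (fun a => t < T a)) : ℝ) ≤ M / t := by
  rw [le_div_iff₀ ht]
  calc (#(S.filter (fun a => t < T a)) : ℝ) * t = ∑ a ∈ S.filter (fun a => t < T a), t := by rw [sum_const, nsmul_eq_mul]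
    _ ≤ ∑ a ∈ S.filter (fun a => t < T a), T a := sum_le_sum fun a ha => (mem_filter.1 ha).2.le
    _ ≤ ∑ a ∈ S, T a := sum_le_sum_of_subset_of_nonneg (filter_subset _ _) (fun a _ _ => hT a)
    _ ≤ M := h

open Classical in
theorem blocks (F : Fin k → ℤ[X]) (hd : ∀ i, 1 ≤ (F i).natDegree) (hl : ∀ i, 0 < (F i).leadingCoeff)
    (B : ℕ) (hB : 1 ≤ B) (U V : ℕ) :
    ∃ E0 : ℕ, ∀ E : ℕ, ∃ D N0 : ℕ, ∀ x : ℕ, N0 ≤ x → ∀ A : Fin k → ℕ,
      (∀ i, A i ≤ B * x ^ (F i).natDegree ∧ x ^ (F i).natDegree ≤ B * A i) →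
      ∀ z : ℕ, Real.log x ^ E0 ≤ z → (z : ℝ) ≤ Real.log x ^ E →
      ∀ (ν : ℕ × ℕ → ℕ) (I : ℕ × ℕ → Finset (ℕ × ℕ)), (∀ j, 1 ≤ ν j ∧ Fam (2 ^ j.1) (ν j) (I j)) →
      ∃ Bad ⊆ Bx A, (#Bad : ℝ) ≤ (∏ i, (A i : ℝ)) / Real.log x ^ U ∧ ∀ a ∈ Bx A, a ∉ Bad →
        ∀ y : ℕ × ℕ → ℕ, (∀ i, y i ≤ x) → ∀ j : ℕ × ℕ, j.2 ≤ j.1 →
          (2 : ℝ) ^ j.1 * Real.exp (D * Real.log (Real.log x) ^ 2) ≤ x →
          ∑ i ∈ I j, |th F a (y i) i.1 i.2 - mu F a z i.1 i.2 * y i| ≤ ν j * x / Real.log x ^ V := by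
  obtain ⟨E0, h0⟩ := block F hd hl B hB (U + V + 4)
  refine ⟨E0, fun E => ?_⟩
  obtain ⟨D, n1, h1⟩ := h0 E
  obtain ⟨n2, h2⟩ := ev_L' 10
  refine ⟨D, n1 + n2 + 3, fun x hx A hA z hz1 hz2 ν I hI => ?_⟩
  have hx0 : (0 : ℝ) < x := by exact_mod_cast (by omega : 0 < x)
  have hL := h2 x (by omega)
  set L := Real.log x with hLd
  have hL0 : 0 < L := by linarith
  have hL1 : 1 ≤ L := by linarith
  set Y := Real.exp (D * Real.log L ^ 2) with hY
  have hY1 : 1 ≤ Y := by
    rw [hY]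
    apply Real.one_le_exp
    positivity
  -- choose the error functions
  have hch : ∀ j : ℕ × ℕ, ∃ T : (Fin k → ℕ) → ℝ, (∀ a, 0 ≤ T a) ∧ ∑ a ∈ Bx A, T a ≤ ν j * x * (∏ i, (A i : ℝ)) / L ^ (U + V + 4) ∧
      ((2 : ℝ) ^ j.1 * Y ≤ x → ∀ a ∈ Bx A, ∀ y : ℕ × ℕ → ℕ, (∀ i ∈ I j, y i ≤ x) →
          ∑ i ∈ I j, |th F a (y i) i.1 i.2 - mu F a z i.1 i.2 * y i| ≤ T a + ν j * x / L ^ (U + V + 4)) := by
    intro j
    by_cases hj : (2 : ℝ) ^ j.1 * Y ≤ x
    · obtain ⟨T, t1, t2, t3⟩ := h1 x (by omega) A hA z hz1 hz2 (2 ^ j.1) (ν j) (Nat.one_le_two_pow) (hI j).1 (by push_cast; exact hj) (I j) (hI j).2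
      exact ⟨T, t1, t2, fun _ a ha y hy => (t3 a ha y hy).1⟩
    · refine ⟨fun _ => 0, fun _ => le_rfl, ?_, fun h => absurd h hj⟩
      rw [sum_const_zero]
      have : 0 ≤ ∏ i, (A i : ℝ) := prod_nonneg fun _ _ => Nat.cast_nonneg _
      positivity
  choose T hT using hch
  obtain ⟨J, hJ⟩ : ∃ J : ℕ, J = ⌊2 * L⌋₊ + 1 := ⟨_, rfl⟩
  have hJ1 : (J : ℝ) ≤ 3 * L := by
    rw [hJ]
    push_cast
    have := Nat.floor_le (by positivity : 0 ≤ 2 * L)
    linarith
  set Bad := (Bx A).filter (fun a => ∃ j ∈ range J ×ˢ range J, ν j * x / L ^ (V + 1) < T j a) with hBad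
  refine ⟨Bad, filter_subset _ _, ?_, ?_⟩
  · have hAp : 0 ≤ ∏ i, (A i : ℝ) := prod_nonneg fun _ _ => Nat.cast_nonneg _
    have hsub : Bad ⊆ (range J ×ˢ range J).biUnion (fun j => (Bx A).filter (fun a => ν j * x / L ^ (V + 1) < T j a)) := by
      intro a ha
      rw [hBad, mem_filter] at ha
      obtain ⟨ha1, j, hj, hja⟩ := ha
      rw [mem_biUnion]
      exact ⟨j, hj, mem_filter.2 ⟨ha1, hja⟩⟩
    have h3 : (#Bad : ℝ) ≤ ∑ j ∈ range J ×ˢ range J, (#((Bx A).filter (fun a => ν j * x / L ^ (V + 1) < T j a)) : ℝ) := by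
      exact_mod_cast (card_le_card hsub).trans card_biUnion_le
    refine h3.trans ?_
    have h4 : ∀ j ∈ range J ×ˢ range J, (#((Bx A).filter (fun a => ν j * x / L ^ (V + 1) < T j a)) : ℝ) ≤ (∏ i, (A i : ℝ)) / L ^ (U + 3) := by
      intro j _
      have hνj : (0 : ℝ) < ν j := by exact_mod_cast (hI j).1
      refine (markov (Bx A) (T j) (hT j).1 _ _ (by positivity) (hT j).2.1).trans (le_of_eq ?_)
      rw [show U + V + 4 = (U + 3) + (V + 1) by ring, pow_add]
      field_simp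
    refine (sum_le_sum h4).trans ?_
    rw [sum_const, card_product, card_range, nsmul_eq_mul]
    push_cast
    calc (J : ℝ) * J * ((∏ i, (A i : ℝ)) / L ^ (U + 3)) ≤ (3 * L) * (3 * L) * ((∏ i, (A i : ℝ)) / L ^ (U + 3)) := by gcongr
      _ = (9 / L) * ((∏ i, (A i : ℝ)) / L ^ U) := by rw [pow_add]; field_simp; ring
      _ ≤ 1 * ((∏ i, (A i : ℝ)) / L ^ U) := by
          apply mul_le_mul_of_nonneg_right _ (by positivity)
          rw [div_le_one hL0]; linarith
      _ = _ := one_mul _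
  · intro a ha hab y hy j hj2 hj
    have q1 := (hT j).2.2 hj a ha y (fun i _ => hy i)
    have hνj : (0 : ℝ) < ν j := by exact_mod_cast (hI j).1
    have hjJ : j.1 < J := by
      rw [hJ, Nat.lt_add_one_iff]
      apply Nat.le_floor
      have h5 : (2 : ℝ) ^ j.1 ≤ x := by
        have : (2 : ℝ) ^ j.1 ≤ 2 ^ j.1 * Y := le_mul_of_one_le_right (by positivity) hY1
        linarith
      have h6 := Real.log_le_log (by positivity) h5
      rw [Real.log_pow] at h6
      have := Real.log_two_gt_d9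
      have h7 : (0 : ℝ) ≤ j.1 := Nat.cast_nonneg _
      nlinarith
    have h3 : T j a ≤ ν j * x / L ^ (V + 1) := by
      by_contra h
      push Not at h
      apply hab
      rw [hBad, mem_filter]
      exact ⟨ha, j, mem_product.2 ⟨mem_range.2 hjJ, mem_range.2 (by omega)⟩, h⟩
    have h4 : (ν j : ℝ) * x / L ^ (U + V + 4) ≤ ν j * x / L ^ (V + 1) := by
      apply div_le_div_of_nonneg_left (by positivity) (by positivity)
      exact pow_le_pow_right₀ hL1 (by omega)
    have h5 : (ν j : ℝ) * x / L ^ (V + 1) + ν j * x / L ^ (V + 1) ≤ ν j * x / L ^ V := by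
      have e : (ν j : ℝ) * x / L ^ (V + 1) + ν j * x / L ^ (V + 1) = (2 / L) * (ν j * x / L ^ V) := by
        rw [pow_succ]; field_simp; ring
      rw [e]
      calc (2 / L) * (ν j * x / L ^ V) ≤ 1 * (ν j * x / L ^ V) := by
            apply mul_le_mul_of_nonneg_right _ (by positivity)
            rw [div_le_one hL0]; linarith
        _ = _ := one_mul _
    linarith

/-- the family of classes in a dyadic block -/
def Ifam (R : ℕ → Finset ℕ) (j : ℕ) : Finset (ℕ × ℕ) :=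
  ((Ico (2 ^ j) (2 * 2 ^ j)) ×ˢ (range (2 * 2 ^ j))).filter (fun i => i.2 ∈ R i.1)

lemma Ifam_fam (R : ℕ → Finset ℕ) (j ν : ℕ) (hR : ∀ q, R q ⊆ range q) (hν : ∀ q, q < 2 * 2 ^ j → #(R q) ≤ ν) : Fam (2 ^ j) ν (Ifam R j) := by
  constructor
  · intro i hi
    unfold Ifam at hi
    rw [mem_filter, mem_product, mem_Ico] at hi
    exact ⟨hi.1.1.1, hi.1.1.2, mem_range.1 (hR _ hi.2)⟩
  · intro q
    rcases Nat.lt_or_ge q (2 * 2 ^ j) with h | h
    · refine le_trans ?_ (hν q h)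
      refine card_le_card_of_injOn (fun i => i.2) ?_ ?_
      · intro i hi
        rw [mem_coe, mem_filter] at hi
        unfold Ifam at hi
        rw [mem_filter] at hi
        rw [mem_coe, ← hi.2]
        exact hi.1.2
      · intro i hi i' hi' h
        rw [mem_coe, mem_filter] at hi hi'
        exact Prod.ext (hi.2.trans hi'.2.symm) h
    · have : (Ifam R j).filter (fun i => i.1 = q) = ∅ := by
        rw [filter_eq_empty_iff]
        intro i hi h2
        unfold Ifam at hi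
        rw [mem_filter, mem_product, mem_Ico] at hi
        omega
      rw [this, card_empty]
      exact Nat.zero_le _

lemma Ifam_sum (R : ℕ → Finset ℕ) (hR : ∀ q, R q ⊆ range q) (Q J : ℕ) (hQJ : Q < 2 ^ J) (f : ℕ × ℕ → ℝ) (hf : ∀ i, 0 ≤ f i) :
    ∑ q ∈ Icc 1 Q, ∑ r ∈ R q, f (q, r) ≤ ∑ j ∈ (range J).filter (fun j => 2 ^ j ≤ Q), ∑ i ∈ Ifam R j, f i := by
  have h1 : ∀ j, ∑ i ∈ Ifam R j, f i = ∑ q ∈ Ico (2 ^ j) (2 * 2 ^ j), ∑ r ∈ R q, f (q, r) := by
    intro j
    unfold Ifam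
    rw [sum_filter, sum_product]
    apply sum_congr rfl
    intro q hq
    rw [mem_Ico] at hq
    rw [← sum_filter]
    apply sum_congr _ fun _ _ => rfl
    ext r
    rw [mem_filter]
    constructor
    · exact fun h => h.2
    · intro h
      have := mem_range.1 (hR q h)
      exact ⟨mem_range.2 (by omega), h⟩
  rw [← sum_fiberwise_of_maps_to (s := Icc 1 Q) (t := (range J).filter (fun j => 2 ^ j ≤ Q)) (g := fun q => Nat.log 2 q)]
  · apply sum_le_sum
    intro j _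
    rw [h1]
    apply sum_le_sum_of_subset_of_nonneg
    · intro q hq
      rw [mem_filter, mem_Icc] at hq
      have h2 := Nat.pow_log_le_self 2 (by omega : q ≠ 0)
      have h3 := Nat.lt_pow_succ_log_self (by norm_num : 1 < 2) q
      rw [hq.2] at h2 h3
      rw [mem_Ico]
      rw [pow_succ] at h3
      omega
    · intro _ _ _
      exact sum_nonneg fun _ _ => hf _
  · intro q hq
    rw [mem_Icc] at hq
    have h2 := Nat.pow_log_le_self 2 (by omega : q ≠ 0)
    rw [mem_filter, mem_range]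
    refine ⟨?_, h2.trans hq.2⟩
    by_contra h
    push Not at h
    have h3 : 2 ^ J ≤ 2 ^ Nat.log 2 q := Nat.pow_le_pow_right (by norm_num) h
    omega

open Classical in
/-- the main theorem: arbitrary sets of residue classes, with the mean over the classes to each modulus -/
theorem fin_all (F : Fin k → ℤ[X]) (hd : ∀ i, 1 ≤ (F i).natDegree) (hl : ∀ i, 0 < (F i).leadingCoeff)
    (B : ℕ) (hB : 1 ≤ B) (U : ℕ) :
    ∃ E0 : ℕ, ∀ E : ℕ, ∃ D N0 : ℕ, ∀ x : ℕ, N0 ≤ x → ∀ A : Fin k → ℕ,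
      (∀ i, A i ≤ B * x ^ (F i).natDegree ∧ x ^ (F i).natDegree ≤ B * A i) →
      ∀ z : ℕ, Real.log x ^ E0 ≤ z → (z : ℝ) ≤ Real.log x ^ E →
      ∀ (R : ℕ → Finset ℕ), (∀ q, R q ⊆ range q) →
        (#((Bx A).filter (fun a => ¬ ∀ Q : ℕ, (Q : ℝ) ≤ x * Real.exp (-(D * Real.log (Real.log x) ^ 2)) →
          ∀ y : ℕ → ℕ → ℕ, (∀ q r, y q r ≤ x) →
          ∑ q ∈ Icc 1 Q, (∑ r ∈ R q, |th F a (y q r) q r - mu F a z q r * y q r|) / #(R q) ≤ x / Real.log x ^ U)) : ℝ) ≤
          (∏ i, (A i : ℝ)) / Real.log x ^ U := by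
  obtain ⟨E0, h0⟩ := blocks F hd hl B hB U (U + 3)
  refine ⟨E0, fun E => ?_⟩
  obtain ⟨D, n1, h1⟩ := h0 E
  obtain ⟨n2, h2⟩ := ev_L' 20
  refine ⟨D, n1 + n2 + 3, fun x hx A hA z hz1 hz2 R hR => ?_⟩
  have hx0 : (0 : ℝ) < x := by exact_mod_cast (by omega : 0 < x)
  have hL := h2 x (by omega)
  set L := Real.log x with hLd
  have hL0 : 0 < L := by linarith
  have hL1 : 1 ≤ L := by linarith
  set Y := Real.exp (D * Real.log L ^ 2) with hY
  have hY0 : 0 < Y := Real.exp_pos _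
  have hY1 : 1 ≤ Y := by
    rw [hY]
    apply Real.one_le_exp
    positivity
  have hQj : ∀ Q : ℕ, (Q : ℝ) ≤ x * Real.exp (-(D * Real.log L ^ 2)) → ∀ j, 2 ^ j ≤ Q → (2 : ℝ) ^ j * Y ≤ x := by
    intro Q hQ j hj
    have h3 : (2 : ℝ) ^ j ≤ Q := by exact_mod_cast hj
    have h4 : (Q : ℝ) * Y ≤ x := by
      rw [Real.exp_neg, ← hY, ← div_eq_mul_inv, le_div_iff₀ hY0] at hQ
      exact hQ
    calc (2 : ℝ) ^ j * Y ≤ Q * Y := mul_le_mul_of_nonneg_right h3 hY0.le
      _ ≤ x := h4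
  obtain ⟨J, hJ⟩ : ∃ J : ℕ, J = ⌊2 * L⌋₊ + 1 := ⟨_, rfl⟩
  have hJ1 : (J : ℝ) ≤ 3 * L := by
    rw [hJ]
    push_cast
    have := Nat.floor_le (by positivity : 0 ≤ 2 * L)
    linarith
  have hQJ : ∀ Q : ℕ, (Q : ℝ) ≤ x * Real.exp (-(D * Real.log L ^ 2)) → Q < 2 ^ J := by
    intro Q hQ
    have h3 : (Q : ℝ) ≤ x := by
      refine hQ.trans (mul_le_of_le_one_right hx0.le ?_)
      apply Real.exp_le_one_iff.2
      have : 0 ≤ D * Real.log L ^ 2 := by positivity
      linarith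
    have h4 : (x : ℝ) < 2 ^ J := by
      rw [← Real.exp_log hx0, ← hLd]
      have h5 : (2 : ℝ) ^ J = Real.exp (J * Real.log 2) := by
        rw [mul_comm, Real.exp_mul, Real.exp_log (by norm_num), Real.rpow_natCast]
      rw [h5]
      apply Real.exp_lt_exp.2
      have h6 := Real.log_two_gt_d9
      have h7 : 2 * L < J := by
        rw [hJ]
        push_cast
        exact Nat.lt_floor_add_one _
      nlinarith
    exact_mod_cast h3.trans_lt h4
  -- the families: moduli in a dyadic block, with the number of classes in a dyadic block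
  set RR : ℕ → ℕ → Finset ℕ := fun s q => if 2 ^ s ≤ #(R q) ∧ #(R q) < 2 * 2 ^ s then R q else ∅ with hRR
  have hRR1 : ∀ s q, RR s q ⊆ range q := by
    intro s q
    simp only [hRR]
    split_ifs
    · exact hR q
    · exact empty_subset _
  have hRR2 : ∀ s q, #(RR s q) ≤ 2 * 2 ^ s := by
    intro s q
    simp only [hRR]
    split_ifs with h
    · omega
    · simp
  obtain ⟨Bad, b1, b2, b3⟩ := h1 x (by omega) A hA z hz1 hz2 (fun j => 2 * 2 ^ j.2) (fun j => Ifam (RR j.2) j.1)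
    (fun j => ⟨by have := Nat.one_le_two_pow (n := j.2); omega, Ifam_fam (RR j.2) j.1 _ (hRR1 j.2) (fun q _ => hRR2 j.2 q)⟩)
  refine le_trans ?_ b2
  have hsub : (Bx A).filter (fun a => ¬ ∀ Q : ℕ, (Q : ℝ) ≤ x * Real.exp (-(D * Real.log L ^ 2)) →
        ∀ y : ℕ → ℕ → ℕ, (∀ q r, y q r ≤ x) →
        ∑ q ∈ Icc 1 Q, (∑ r ∈ R q, |th F a (y q r) q r - mu F a z q r * y q r|) / #(R q) ≤ x / L ^ U) ⊆ Bad := by
    intro a ha
    rw [mem_filter] at ha
    by_contra hab
    apply ha.2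
    intro Q hQ y hy
    have h3 := b3 a ha.1 hab (fun i => y i.1 i.2) (fun i => hy _ _)
    set f : ℕ × ℕ → ℝ := fun i => |th F a (y i.1 i.2) i.1 i.2 - mu F a z i.1 i.2 * y i.1 i.2| with hf
    have hf0 : ∀ i, 0 ≤ f i := fun _ => abs_nonneg _
    have h4 : ∀ q ∈ Icc 1 Q, (∑ r ∈ R q, f (q, r)) / #(R q) ≤
        ∑ s ∈ (range J).filter (fun s => 2 ^ s ≤ q), (1 / 2 ^ s : ℝ) * ∑ r ∈ RR s q, f (q, r) := by
      intro q hq
      rw [mem_Icc] at hq
      rcases Nat.eq_zero_or_pos #(R q) with h0 | h0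
      · rw [h0, Nat.cast_zero, div_zero]
        apply sum_nonneg
        intro s _
        have : 0 ≤ ∑ r ∈ RR s q, f (q, r) := sum_nonneg fun _ _ => hf0 _
        positivity
      · obtain ⟨s, hs⟩ : ∃ s, s = Nat.log 2 #(R q) := ⟨_, rfl⟩
        have g1 : 2 ^ s ≤ #(R q) := by rw [hs]; exact Nat.pow_log_le_self 2 (by omega)
        have g2 : #(R q) < 2 * 2 ^ s := by
          rw [hs]
          have := Nat.lt_pow_succ_log_self (by norm_num : 1 < 2) #(R q)
          rw [pow_succ] at this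
          omega
        have g3 : #(R q) ≤ q := by
          have := card_le_card (hR q)
          rwa [card_range] at this
        have g4 : s ∈ (range J).filter (fun s => 2 ^ s ≤ q) := by
          rw [mem_filter, mem_range]
          refine ⟨?_, g1.trans g3⟩
          by_contra h
          push Not at h
          have g5 : 2 ^ J ≤ 2 ^ s := Nat.pow_le_pow_right (by norm_num) h
          have g6 := hQJ Q hQ
          omega
        refine le_trans ?_ (single_le_sum (f := fun s => (1 / 2 ^ s : ℝ) * ∑ r ∈ RR s q, f (q, r)) (fun s _ => by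
          have : 0 ≤ ∑ r ∈ RR s q, f (q, r) := sum_nonneg fun _ _ => hf0 _
          positivity) g4)
        simp only [hRR]
        rw [if_pos ⟨g1, g2⟩, div_eq_inv_mul, one_div]
        apply mul_le_mul_of_nonneg_right _ (sum_nonneg fun _ _ => hf0 _)
        apply inv_anti₀ (by positivity)
        exact_mod_cast g1
    refine (sum_le_sum h4).trans ?_
    have h5 : ∑ q ∈ Icc 1 Q, ∑ s ∈ (range J).filter (fun s => 2 ^ s ≤ q), (1 / 2 ^ s : ℝ) * ∑ r ∈ RR s q, f (q, r) =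
        ∑ s ∈ range J, (1 / 2 ^ s : ℝ) * ∑ q ∈ Icc 1 Q, ∑ r ∈ (if 2 ^ s ≤ q then RR s q else ∅), f (q, r) := by
      have e1 : ∀ q ∈ Icc 1 Q, ∑ s ∈ (range J).filter (fun s => 2 ^ s ≤ q), (1 / 2 ^ s : ℝ) * ∑ r ∈ RR s q, f (q, r) =
          ∑ s ∈ range J, (1 / 2 ^ s : ℝ) * ∑ r ∈ (if 2 ^ s ≤ q then RR s q else ∅), f (q, r) := by
        intro q _
        rw [sum_filter]
        apply sum_congr rfl
        intro s _
        split_ifs <;> simp
      rw [sum_congr rfl e1, sum_comm]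
      apply sum_congr rfl
      intro s _
      rw [mul_sum]
    rw [h5]
    have h6 : ∀ s ∈ range J, (1 / 2 ^ s : ℝ) * ∑ q ∈ Icc 1 Q, ∑ r ∈ (if 2 ^ s ≤ q then RR s q else ∅), f (q, r) ≤
        (3 * L) * (2 * (x / L ^ (U + 3))) := by
      intro s _
      have g0 : ∑ q ∈ Icc 1 Q, ∑ r ∈ (if 2 ^ s ≤ q then RR s q else ∅), f (q, r) ≤
          ∑ j ∈ (range J).filter (fun j => 2 ^ j ≤ Q), ∑ i ∈ Ifam (fun q => if 2 ^ s ≤ q then RR s q else ∅) j, f i := by
        apply Ifam_sum (fun q => if 2 ^ s ≤ q then RR s q else ∅) _ Q J (hQJ Q hQ) f hf0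
        intro q
        split_ifs
        · exact hRR1 s q
        · exact empty_subset _
      have g1 : ∀ j ∈ (range J).filter (fun j => 2 ^ j ≤ Q), ∑ i ∈ Ifam (fun q => if 2 ^ s ≤ q then RR s q else ∅) j, f i ≤
          2 ^ s * (2 * (x / L ^ (U + 3))) := by
        intro j hj
        rw [mem_filter] at hj
        rcases Nat.lt_or_ge j s with hjs | hjs
        · have g2 : Ifam (fun q => if 2 ^ s ≤ q then RR s q else ∅) j = ∅ := by
            unfold Ifam
            rw [filter_eq_empty_iff]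
            intro i hi hi2
            rw [mem_product, mem_Ico] at hi
            have g3 : 2 * 2 ^ j ≤ 2 ^ s := by
              rw [mul_comm, ← pow_succ]
              exact Nat.pow_le_pow_right (by norm_num) hjs
            simp only [if_neg (show ¬ 2 ^ s ≤ i.1 by omega), notMem_empty] at hi2
          rw [g2, sum_empty]
          positivity
        · have g2 := h3 (j, s) hjs (hQj Q hQ j hj.2)
          simp only at g2
          have g3 : Ifam (fun q => if 2 ^ s ≤ q then RR s q else ∅) j ⊆ Ifam (RR s) j := by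
            intro i hi
            unfold Ifam at hi ⊢
            rw [mem_filter] at hi ⊢
            refine ⟨hi.1, ?_⟩
            have g4 := hi.2
            simp only at g4
            split_ifs at g4 with g5
            · exact g4
            · exact absurd g4 (notMem_empty _)
          refine (sum_le_sum_of_subset_of_nonneg g3 (fun _ _ _ => hf0 _)).trans (g2.trans (le_of_eq ?_))
          push_cast
          ring
      have g2 : (#((range J).filter (fun j => 2 ^ j ≤ Q)) : ℝ) ≤ 3 * L := by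
        refine le_trans ?_ hJ1
        have := card_filter_le (range J) (fun j => 2 ^ j ≤ Q)
        rw [card_range] at this
        exact_mod_cast this
      calc (1 / 2 ^ s : ℝ) * ∑ q ∈ Icc 1 Q, ∑ r ∈ (if 2 ^ s ≤ q then RR s q else ∅), f (q, r)
          ≤ (1 / 2 ^ s : ℝ) * (#((range J).filter (fun j => 2 ^ j ≤ Q)) * (2 ^ s * (2 * (x / L ^ (U + 3))))) := by
            apply mul_le_mul_of_nonneg_left _ (by positivity)
            refine g0.trans ((sum_le_sum g1).trans (le_of_eq ?_))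
            rw [sum_const, nsmul_eq_mul]
        _ = #((range J).filter (fun j => 2 ^ j ≤ Q)) * (2 * (x / L ^ (U + 3))) := by field_simp
        _ ≤ _ := mul_le_mul_of_nonneg_right g2 (by positivity)
    refine (sum_le_sum h6).trans ?_
    rw [sum_const, card_range, nsmul_eq_mul]
    calc (J : ℝ) * ((3 * L) * (2 * (x / L ^ (U + 3)))) ≤ (3 * L) * ((3 * L) * (2 * (x / L ^ (U + 3)))) :=
          mul_le_mul_of_nonneg_right hJ1 (by positivity)
      _ = (18 / L) * (x / L ^ U) := by rw [pow_add]; field_simp; ring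
      _ ≤ 1 * (x / L ^ U) := by
          apply mul_le_mul_of_nonneg_right _ (by positivity)
          rw [div_le_one hL0]; linarith
      _ = _ := one_mul _
  exact_mod_cast card_le_card hsub

end Pool.Agent.H544.LD
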